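import Mathlib

/-!
The graded Lie ring of a descending central series `g` of a group with
`[g i, g j] ≤ g (i + j)` and `g 0 = g 1 = G`.
-/

namespace Pool.Agent.Lib.NOT62

open scoped DirectSum commutatorElement

/-- A central filtration of a group, indexed from one (`g 0 = g 1` is the whole group). -/
structure NSer (G : Type*) [Group G] where
  g : ℕ → Subgroup G
  nor : ∀ i, (g i).Normal
  anti : ∀ i, g (i + 1) ≤ g i
  com : ∀ i j, ⁅g i, g j⁆ ≤ g (i + j)
  top1 : g 1 = ⊤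

namespace NSer

variable {G : Type*} [Group G] (S : NSer G)

instance (i : ℕ) : (S.g i).Normal := S.nor i

theorem top0 : S.g 0 = ⊤ := by
  have := S.anti 0
  rw [zero_add, S.top1] at this
  exact top_le_iff.1 this

theorem anti' {i j : ℕ} (h : i ≤ j) : S.g j ≤ S.g i := antitone_nat_of_succ_le S.anti h

theorem com_mem {i j : ℕ} {a b : G} (ha : a ∈ S.g i) (hb : b ∈ S.g j) : ⁅a, b⁆ ∈ S.g (i + j) :=
  S.com i j (Subgroup.commutator_mem_commutator ha hb)

theorem com_mem1 {j : ℕ} (a : G) {b : G} (hb : b ∈ S.g j) : ⁅a, b⁆ ∈ S.g (j + 1) := by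
  have := S.com_mem (i := 1) (a := a) (by rw [S.top1]; trivial) hb
  rwa [add_comm] at this

theorem com_mem2 {j : ℕ} {b : G} (hb : b ∈ S.g j) (a : G) : ⁅b, a⁆ ∈ S.g (j + 1) := by
  have := S.com_mem (j := 1) (b := a) hb (by rw [S.top1]; trivial)
  exact this

/-- The graded piece `g i / g (i+1)`. -/
abbrev A (i : ℕ) : Type _ := Additive (S.g i ⧸ (S.g (i + 1)).subgroupOf (S.g i))

/-- class of an element. -/
def cl (i : ℕ) (a : G) (ha : a ∈ S.g i) : S.A i :=
  Additive.ofMul (QuotientGroup.mk (s := (S.g (i + 1)).subgroupOf (S.g i)) ⟨a, ha⟩)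

theorem cl_eq_iff {i : ℕ} {a b : G} (ha : a ∈ S.g i) (hb : b ∈ S.g i) :
    S.cl i a ha = S.cl i b hb ↔ a⁻¹ * b ∈ S.g (i + 1) := by
  rw [cl, cl, Additive.ofMul.injective.eq_iff, QuotientGroup.eq]
  rfl

theorem cl_mul {i : ℕ} {a b : G} (ha : a ∈ S.g i) (hb : b ∈ S.g i) :
    S.cl i (a * b) (mul_mem ha hb) = S.cl i a ha + S.cl i b hb := rfl

theorem cl_inv {i : ℕ} {a : G} (ha : a ∈ S.g i) :
    S.cl i a⁻¹ (inv_mem ha) = - S.cl i a ha := rfl

theorem cl_surj {i : ℕ} (u : S.A i) : ∃ a, ∃ ha : a ∈ S.g i, S.cl i a ha = u := by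
  obtain ⟨v, hv⟩ := QuotientGroup.mk_surjective (Additive.toMul u)
  refine ⟨v.1, v.2, ?_⟩
  rw [cl, Subtype.coe_eta, hv]
  rfl

theorem cl_one_eq {i : ℕ} {a : G} (ha : a ∈ S.g i) : S.cl i a ha = 0 ↔ a ∈ S.g (i + 1) := by
  have : (0 : S.A i) = S.cl i 1 (one_mem _) := rfl
  rw [this, S.cl_eq_iff, mul_one, inv_mem_iff]

instance instAddCommGroupA (i : ℕ) : AddCommGroup (S.A i) :=
  { (inferInstance : AddGroup (S.A i)) with
    add_comm := by
      intro u v
      obtain ⟨a, ha, rfl⟩ := S.cl_surj u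
      obtain ⟨b, hb, rfl⟩ := S.cl_surj v
      rw [← S.cl_mul, ← S.cl_mul, S.cl_eq_iff]
      have e : (a * b)⁻¹ * (b * a) = ⁅b⁻¹, a⁻¹⁆ := by
        rw [commutatorElement_def]; group
      rw [e]
      exact S.com_mem1 _ (inv_mem ha) }

/-- the bracket of graded pieces. -/
noncomputable def br {i j : ℕ} (u : S.A i) (v : S.A j) : S.A (i + j) :=
  S.cl (i + j) ⁅(S.cl_surj u).choose, (S.cl_surj v).choose⁆
    (S.com_mem (S.cl_surj u).choose_spec.choose (S.cl_surj v).choose_spec.choose)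

theorem cl_com {i j : ℕ} {a a' b b' : G} (ha : a ∈ S.g i) (ha' : a' ∈ S.g i) (hb : b ∈ S.g j)
    (hb' : b' ∈ S.g j) (h : S.cl i a ha = S.cl i a' ha') (h' : S.cl j b hb = S.cl j b' hb') :
    S.cl (i + j) ⁅a, b⁆ (S.com_mem ha hb) = S.cl (i + j) ⁅a', b'⁆ (S.com_mem ha' hb') := by
  rw [S.cl_eq_iff] at h h'
  -- first change a
  have step1 : S.cl (i + j) ⁅a', b⁆ (S.com_mem ha' hb) = S.cl (i + j) ⁅a, b⁆ (S.com_mem ha hb) := by
    rw [eq_comm, S.cl_eq_iff]
    have e : ⁅a', b⁆ = a * ⁅a⁻¹ * a', b⁆ * a⁻¹ * ⁅a, b⁆ := by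
      rw [← commutatorElement_mul_left_eq_conj_mul]; group
    rw [e]
    have m1 : ⁅a⁻¹ * a', b⁆ ∈ S.g (i + j + 1) := by
      have := S.com_mem h hb
      rwa [show i + 1 + j = i + j + 1 by omega] at this
    have m2 : a * ⁅a⁻¹ * a', b⁆ * a⁻¹ ∈ S.g (i + j + 1) := (S.nor _).conj_mem _ m1 a
    have := (S.nor (i + j + 1)).conj_mem _ m2 ⁅a, b⁆⁻¹
    rw [inv_inv] at this
    rwa [mul_assoc] at this
  have step2 : S.cl (i + j) ⁅a', b'⁆ (S.com_mem ha' hb') = S.cl (i + j) ⁅a', b⁆ (S.com_mem ha' hb) := by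
    rw [eq_comm, S.cl_eq_iff]
    have e : ⁅a', b'⁆ = ⁅a', b⁆ * (b * ⁅a', b⁻¹ * b'⁆ * b⁻¹) := by
      rw [← mul_assoc, ← mul_assoc, ← commutatorElement_mul_right_eq_mul_conj]; group
    rw [e]
    have m1 : ⁅a', b⁻¹ * b'⁆ ∈ S.g (i + j + 1) := by
      have := S.com_mem (i := i) (j := j + 1) ha' h'
      exact this
    have m2 : b * ⁅a', b⁻¹ * b'⁆ * b⁻¹ ∈ S.g (i + j + 1) := (S.nor _).conj_mem _ m1 b
    rw [← mul_assoc, inv_mul_cancel, one_mul]
    exact m2
  rw [step2, step1]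

theorem br_cl {i j : ℕ} {a b : G} (ha : a ∈ S.g i) (hb : b ∈ S.g j) :
    S.br (S.cl i a ha) (S.cl j b hb) = S.cl (i + j) ⁅a, b⁆ (S.com_mem ha hb) :=
  S.cl_com _ _ _ _ (S.cl_surj (S.cl i a ha)).choose_spec.choose_spec
    (S.cl_surj (S.cl j b hb)).choose_spec.choose_spec

theorem cl_conj {i : ℕ} {a : G} (ha : a ∈ S.g i) (c : G) :
    S.cl i (c * a * c⁻¹) ((S.nor i).conj_mem _ ha c) = S.cl i a ha := by
  rw [S.cl_eq_iff]
  have e : (c * a * c⁻¹)⁻¹ * a = ⁅c, a⁻¹⁆ := by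
    rw [commutatorElement_def]; group
  rw [e]
  exact S.com_mem1 _ (inv_mem ha)

theorem cl_congr {i : ℕ} {a b : G} (h : a = b) (ha : a ∈ S.g i) (hb : b ∈ S.g i) :
    S.cl i a ha = S.cl i b hb := by
  subst h; rfl

theorem add_br {i j : ℕ} (u u' : S.A i) (v : S.A j) : S.br (u + u') v = S.br u v + S.br u' v := by
  obtain ⟨a, ha, rfl⟩ := S.cl_surj u
  obtain ⟨a', ha', rfl⟩ := S.cl_surj u'
  obtain ⟨b, hb, rfl⟩ := S.cl_surj v
  rw [← S.cl_mul, S.br_cl, S.br_cl, S.br_cl]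
  rw [S.cl_congr (commutatorElement_mul_left_eq_conj_mul a a' b) _
    (mul_mem ((S.nor _).conj_mem _ (S.com_mem ha' hb) a) (S.com_mem ha hb)), S.cl_mul
    ((S.nor _).conj_mem _ (S.com_mem ha' hb) a), S.cl_conj (S.com_mem ha' hb)]
  exact add_comm _ _

theorem br_add {i j : ℕ} (u : S.A i) (v v' : S.A j) : S.br u (v + v') = S.br u v + S.br u v' := by
  obtain ⟨a, ha, rfl⟩ := S.cl_surj u
  obtain ⟨b, hb, rfl⟩ := S.cl_surj v
  obtain ⟨b', hb', rfl⟩ := S.cl_surj v'
  rw [← S.cl_mul, S.br_cl, S.br_cl, S.br_cl]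
  have e : ⁅a, b * b'⁆ = ⁅a, b⁆ * (b * ⁅a, b'⁆ * b⁻¹) := by
    rw [commutatorElement_mul_right_eq_mul_conj]; group
  rw [S.cl_congr e _ (mul_mem (S.com_mem ha hb) ((S.nor _).conj_mem _ (S.com_mem ha hb') b)),
    S.cl_mul _ ((S.nor _).conj_mem _ (S.com_mem ha hb') b), S.cl_conj (S.com_mem ha hb')]

noncomputable instance instG : DirectSum.GNonUnitalNonAssocSemiring (fun i => S.A i) where
  mul u v := S.br u v
  mul_zero {i j} u := by
    have := S.br_add u (0 : S.A j) 0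
    rw [add_zero] at this
    exact left_eq_add.1 this
  zero_mul {i j} v := by
    have := S.add_br (0 : S.A i) 0 v
    rw [add_zero] at this
    exact left_eq_add.1 this
  mul_add := S.br_add
  add_mul := S.add_br

/-- The graded Lie ring. -/
abbrev L : Type _ := DirectSum ℕ (fun i => S.A i)

/-- homogeneous element. -/
noncomputable def hom (i : ℕ) (a : G) (ha : a ∈ S.g i) : S.L :=
  DirectSum.of (fun i => S.A i) i (S.cl i a ha)

theorem hom_mul_hom {i j : ℕ} {a b : G} (ha : a ∈ S.g i) (hb : b ∈ S.g j) :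
    S.hom i a ha * S.hom j b hb = S.hom (i + j) ⁅a, b⁆ (S.com_mem ha hb) := by
  rw [hom, hom, DirectSum.of_mul_of, hom]
  congr 1
  exact S.br_cl ha hb

theorem hom_congr {i j : ℕ} {a b : G} (h : i = j) (hab : a = b) (ha : a ∈ S.g i) (hb : b ∈ S.g j) :
    S.hom i a ha = S.hom j b hb := by
  subst h; subst hab; rfl

theorem hom_add {i : ℕ} {a b : G} (ha : a ∈ S.g i) (hb : b ∈ S.g i) :
    S.hom i (a * b) (mul_mem ha hb) = S.hom i a ha + S.hom i b hb := by
  rw [hom, S.cl_mul ha hb, map_add]; rfl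

theorem hom_inv {i : ℕ} {a : G} (ha : a ∈ S.g i) :
    S.hom i a⁻¹ (inv_mem ha) = - S.hom i a ha := by
  rw [hom, S.cl_inv ha, map_neg]; rfl

theorem L_ind {P : S.L → Prop} (h0 : P 0) (h1 : ∀ i a ha, P (S.hom i a ha))
    (h2 : ∀ u v, P u → P v → P (u + v)) (u : S.L) : P u := by
  induction u using DirectSum.induction_on with
  | zero => exact h0
  | of i u =>
    obtain ⟨a, ha, rfl⟩ := S.cl_surj u
    exact h1 i a ha
  | add u v hu hv => exact h2 u v hu hv

theorem skew (u v : S.L) : u * v = - (v * u) := by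
  induction u using S.L_ind with
  | h0 => simp
  | h2 u u' hu hu' => rw [add_mul, mul_add, hu, hu']; abel
  | h1 i a ha =>
    induction v using S.L_ind with
    | h0 => simp
    | h2 v v' hv hv' => rw [add_mul, mul_add, hv, hv']; abel
    | h1 j b hb =>
      rw [S.hom_mul_hom ha hb, S.hom_mul_hom hb ha, ← S.hom_inv (S.com_mem hb ha)]
      exact S.hom_congr (add_comm i j) (commutatorElement_inv b a).symm _ _

theorem self_mul (u : S.L) : u * u = 0 := by
  induction u using S.L_ind with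
  | h0 => simp
  | h2 u v hu hv => rw [add_mul, mul_add, mul_add, hu, hv, S.skew v u]; abel
  | h1 i a ha =>
    rw [S.hom_mul_hom ha ha, S.hom_congr rfl (commutatorElement_self a) _ (one_mem _), hom]
    have : S.cl (i + i) 1 (one_mem _) = 0 := rfl
    rw [this, map_zero]

theorem jac_hom {i j k : ℕ} {a b c : G} (ha : a ∈ S.g i) (hb : b ∈ S.g j) (hc : c ∈ S.g k) :
    S.hom j b hb * (S.hom k c hc * S.hom i a ha) + S.hom i a ha * (S.hom j b hb * S.hom k c hc)
      + S.hom k c hc * (S.hom i a ha * S.hom j b hb) = 0 := by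
  have key := commutatorElement_conj_commutatorElement_mul a b c
  have m1 : a * b * a⁻¹ ∈ S.g j := (S.nor _).conj_mem _ hb a
  have m2 : c * a * c⁻¹ ∈ S.g i := (S.nor _).conj_mem _ ha c
  have m3 : b * c * b⁻¹ ∈ S.g k := (S.nor _).conj_mem _ hc b
  have e1 : S.hom j b hb = S.hom j _ m1 := by rw [hom, hom, S.cl_conj hb]
  have e2 : S.hom i a ha = S.hom i _ m2 := by rw [hom, hom, S.cl_conj ha]
  have e3 : S.hom k c hc = S.hom k _ m3 := by rw [hom, hom, S.cl_conj hc]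
  rw [S.hom_mul_hom hc ha, S.hom_mul_hom hb hc, S.hom_mul_hom ha hb]
  rw [e1, e2, e3]
  rw [S.hom_mul_hom m1, S.hom_mul_hom m2, S.hom_mul_hom m3]
  have n1 : j + (k + i) = i + j + k := by omega
  have n2 : i + (j + k) = i + j + k := by omega
  have n3 : k + (i + j) = i + j + k := by omega
  have q1 : ⁅a * b * a⁻¹, ⁅c, a⁆⁆ ∈ S.g (i + j + k) := n1 ▸ S.com_mem m1 (S.com_mem hc ha)
  have q2 : ⁅c * a * c⁻¹, ⁅b, c⁆⁆ ∈ S.g (i + j + k) := n2 ▸ S.com_mem m2 (S.com_mem hb hc)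
  have q3 : ⁅b * c * b⁻¹, ⁅a, b⁆⁆ ∈ S.g (i + j + k) := n3 ▸ S.com_mem m3 (S.com_mem ha hb)
  rw [S.hom_congr n1 rfl _ q1, S.hom_congr n2 rfl _ q2, S.hom_congr n3 rfl _ q3,
    ← S.hom_add q1 q2, ← S.hom_add (mul_mem q1 q2) q3, S.hom_congr rfl key _ (one_mem _), hom]
  have : S.cl (i + j + k) 1 (one_mem _) = 0 := rfl
  rw [this, map_zero]

theorem jac (u v w : S.L) : v * (w * u) + u * (v * w) + w * (u * v) = 0 := by
  induction u using S.L_ind with
  | h0 => simp
  | h2 u u' hu hu' =>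
    have := congrArg₂ (· + ·) hu hu'
    simp only [add_zero] at this
    rw [← this]
    simp only [add_mul, mul_add]
    abel
  | h1 i a ha =>
    induction v using S.L_ind with
    | h0 => simp
    | h2 u u' hu hu' =>
      have := congrArg₂ (· + ·) hu hu'
      simp only [add_zero] at this
      rw [← this]
      simp only [add_mul, mul_add]
      abel
    | h1 j b hb =>
      induction w using S.L_ind with
      | h0 => simp
      | h2 u u' hu hu' =>
        have := congrArg₂ (· + ·) hu hu'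
        simp only [add_zero] at this
        rw [← this]
        simp only [add_mul, mul_add]
        abel
      | h1 k c hc => exact S.jac_hom ha hb hc

noncomputable instance instLie : LieRing S.L where
  bracket u v := u * v
  add_lie u v w := add_mul u v w
  lie_add u v w := mul_add u v w
  lie_self u := S.self_mul u
  leibniz_lie u v w := by
    have h := S.jac u v w
    have h2 := S.skew w u
    have h3 := S.skew (u * v) w
    have h4 : v * (u * w) = - (v * (w * u)) := by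
      rw [S.skew u w, mul_neg]
    change u * (v * w) = (u * v) * w + v * (u * w)
    rw [h3, h4, ← sub_eq_zero, ← h]
    abel

theorem lie_hom {i j : ℕ} {a b : G} (ha : a ∈ S.g i) (hb : b ∈ S.g j) :
    ⁅S.hom i a ha, S.hom j b hb⁆ = S.hom (i + j) ⁅a, b⁆ (S.com_mem ha hb) :=
  S.hom_mul_hom ha hb

end NSer

end Pool.Agent.Lib.NOT62
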