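import Mathlib

/-!
The Lie ring part: a Lie ring killed by three, generated by two elements with four relations in
low degree, has the multiplication table of a central extension of the positive part of the loop
algebra of sl_2.
-/

namespace Pool.Agent.Lib.NOT62

variable {L : Type*} [LieRing L]

/-- `b 0 = [y,x]`, `b (k+1) = [b k, x, y]`. -/
def bb (x y : L) : ℕ → L
  | 0 => ⁅y, x⁆
  | k + 1 => ⁅⁅bb x y k, x⁆, y⁆

/-- `v k = [b k, x]`. -/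
def vv (x y : L) (k : ℕ) : L := ⁅bb x y k, x⁆

/-- `w k = [b k, y]`. -/
def ww (x y : L) (k : ℕ) : L := ⁅bb x y k, y⁆

/-- `c k = [w k, x] - [v k, y]`. -/
def cc (x y : L) (k : ℕ) : L := ⁅ww x y k, x⁆ - bb x y (k + 1)

theorem rl (m a b : L) : ⁅m, ⁅a, b⁆⁆ = ⁅⁅m, a⁆, b⁆ - ⁅⁅m, b⁆, a⁆ := by
  rw [lie_lie m a b, ← lie_skew ⁅m, b⁆ a]
  abel

theorem bb_succ (x y : L) (k : ℕ) : bb x y (k + 1) = ⁅⁅bb x y k, x⁆, y⁆ := rfl

theorem vvy (x y : L) (k : ℕ) : ⁅vv x y k, y⁆ = bb x y (k + 1) := rfl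

theorem wwx (x y : L) (k : ℕ) : ⁅ww x y k, x⁆ = bb x y (k + 1) + cc x y k := by
  simp [cc]

theorem bb_zero_op (x y m : L) : ⁅m, bb x y 0⁆ = ⁅⁅m, y⁆, x⁆ - ⁅⁅m, x⁆, y⁆ := by
  rw [bb, rl]

/-- the operator of `b (j+1)` in terms of the operator of `b j`. -/
theorem bb_succ_op (x y m : L) (j : ℕ) : ⁅m, bb x y (j + 1)⁆
    = ⁅⁅⁅m, bb x y j⁆, x⁆, y⁆ - ⁅⁅⁅m, x⁆, bb x y j⁆, y⁆
      - ⁅⁅⁅m, y⁆, bb x y j⁆, x⁆ + ⁅⁅⁅m, y⁆, x⁆, bb x y j⁆ := by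
  rw [bb_succ, rl, rl, rl]
  simp only [sub_lie]
  abel

theorem op1 (h3 : ∀ m : L, (3 : ℤ) • m = 0) (x y : L) (h : ⁅vv x y 0, x⁆ = 0) (m : L) :
    ⁅⁅⁅⁅m, y⁆, x⁆, x⁆, x⁆ = ⁅⁅⁅⁅m, x⁆, x⁆, x⁆, y⁆ := by
  have e : ⁅m, ⁅vv x y 0, x⁆⁆ = 0 := by rw [h, lie_zero]
  have e2 : ⁅m, ⁅vv x y 0, x⁆⁆ = ⁅⁅⁅⁅m, y⁆, x⁆, x⁆, x⁆ - ⁅⁅⁅⁅m, x⁆, x⁆, x⁆, y⁆
      + (3 : ℤ) • (⁅⁅⁅⁅m, x⁆, x⁆, y⁆, x⁆ - ⁅⁅⁅⁅m, x⁆, y⁆, x⁆, x⁆) := by
    rw [vv, bb]
    simp only [rl, sub_lie]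
    abel
  rw [e2, h3] at e
  rw [← sub_eq_zero, ← e]
  abel

theorem op2 (h3 : ∀ m : L, (3 : ℤ) • m = 0) (x y : L) (h : ⁅ww x y 0, y⁆ = 0) (m : L) :
    ⁅⁅⁅⁅m, x⁆, y⁆, y⁆, y⁆ = ⁅⁅⁅⁅m, y⁆, y⁆, y⁆, x⁆ := by
  have e : ⁅m, ⁅ww x y 0, y⁆⁆ = 0 := by rw [h, lie_zero]
  have e2 : ⁅m, ⁅ww x y 0, y⁆⁆ = ⁅⁅⁅⁅m, y⁆, y⁆, y⁆, x⁆ - ⁅⁅⁅⁅m, x⁆, y⁆, y⁆, y⁆
      + (3 : ℤ) • (⁅⁅⁅⁅m, y⁆, x⁆, y⁆, y⁆ - ⁅⁅⁅⁅m, y⁆, y⁆, x⁆, y⁆) := by
    rw [ww, bb]
    simp only [rl, sub_lie]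
    abel
  rw [e2, h3] at e
  rw [← sub_eq_zero, ← neg_eq_zero, ← e]
  abel

theorem op3 (x y : L) (h : ⁅bb x y 1, bb x y 0⁆ = 0) (m : L) :
    ⁅⁅m, bb x y 1⁆, bb x y 0⁆ = ⁅⁅m, bb x y 0⁆, bb x y 1⁆ := by
  have e : ⁅m, ⁅bb x y 1, bb x y 0⁆⁆ = 0 := by rw [h, lie_zero]
  rw [rl] at e
  exact sub_eq_zero.1 e

theorem ww_zero_op {x y : L} (k : ℕ) (hv : ⁅vv x y k, x⁆ = 0) :
    ⁅vv x y k, bb x y 0⁆ = vv x y (k + 1) := by
  rw [bb_zero_op, hv, zero_lie, sub_zero, vvy]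
  rfl

theorem ww_zero_op' {x y : L} (k : ℕ) (hw : ⁅ww x y k, y⁆ = 0) (hc : ⁅cc x y k, y⁆ = 0) :
    ⁅ww x y k, bb x y 0⁆ = - ww x y (k + 1) := by
  rw [bb_zero_op, hw, zero_lie, wwx, add_lie, hc, add_zero, zero_sub]
  rfl

theorem bb_zero_op' (x y : L) (k : ℕ) : ⁅bb x y k, bb x y 0⁆ = cc x y k := by
  rw [bb_zero_op]
  rfl

/-- the four basic facts in degree `k`. -/
def Good (x y : L) (k : ℕ) : Prop :=
  ⁅vv x y k, x⁆ = 0 ∧ ⁅ww x y k, y⁆ = 0 ∧ ⁅cc x y k, x⁆ = 0 ∧ ⁅cc x y k, y⁆ = 0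

theorem vv_one_op {x y : L} (k : ℕ) (h0 : Good x y k) (hv : ⁅vv x y (k + 1), x⁆ = 0) :
    ⁅vv x y k, bb x y 1⁆ = vv x y (k + 2) - ⁅cc x y (k + 1), x⁆ := by
  obtain ⟨h1, -, -, -⟩ := h0
  rw [bb_succ_op, ww_zero_op k h1, hv, h1, vvy, bb_zero_op']
  simp only [zero_lie]
  rw [show ⁅bb x y (k + 1), x⁆ = vv x y (k + 1) from rfl, ww_zero_op (k + 1) hv]
  abel

theorem ww_one_op (h3 : ∀ m : L, (3 : ℤ) • m = 0) {x y : L} (k : ℕ) (h0 : Good x y k) :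
    ⁅ww x y k, bb x y 1⁆ = - ww x y (k + 2) + ⁅cc x y (k + 1), y⁆ := by
  obtain ⟨-, h2, h4, h5⟩ := h0
  have e1 : ⁅cc x y k, bb x y 0⁆ = 0 := by
    rw [bb_zero_op, h4, h5]; simp
  rw [bb_succ_op, ww_zero_op' k h2 h5, h2, wwx]
  simp only [zero_lie, neg_lie, add_lie, e1, add_zero, bb_zero_op', wwx, sub_zero]
  rw [show ⁅bb x y (k + 1 + 1), y⁆ = ww x y (k + 2) from rfl]
  have := h3 ⁅cc x y (k + 1), y⁆
  rw [← sub_eq_zero, ← neg_eq_zero, ← this]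
  abel

theorem good (h3 : ∀ m : L, (3 : ℤ) • m = 0) (x y : L) (r1 : ⁅vv x y 0, x⁆ = 0)
    (r2 : ⁅ww x y 0, y⁆ = 0) (r3 : ⁅bb x y 1, bb x y 0⁆ = 0) (k : ℕ) : Good x y k := by
  induction k using Nat.strong_induction_on with
  | _ k ih =>
    match k with
    | 0 =>
      have e : cc x y 0 = 0 := by rw [← bb_zero_op', lie_self]
      exact ⟨r1, r2, by simp [e], by simp [e]⟩
    | k + 1 =>
      have g0 := ih k (by omega)
      have hv : ⁅vv x y (k + 1), x⁆ = 0 := by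
        have e1 : ⁅⁅⁅⁅bb x y k, y⁆, x⁆, x⁆, x⁆ = 0 := by
          rw [op1 h3 x y r1]
          rw [show ⁅⁅bb x y k, x⁆, x⁆ = 0 from g0.1]
          simp
        rw [show ⁅⁅bb x y k, y⁆, x⁆ = bb x y (k + 1) + cc x y k from wwx x y k, add_lie, add_lie,
          g0.2.2.1, zero_lie, add_zero] at e1
        exact e1
      have hw : ⁅ww x y (k + 1), y⁆ = 0 := by
        have e1 : ⁅⁅⁅⁅bb x y k, x⁆, y⁆, y⁆, y⁆ = 0 := by
          rw [op2 h3 x y r2]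
          rw [show ⁅⁅bb x y k, y⁆, y⁆ = 0 from g0.2.1]
          simp
        exact e1
      match k with
      | 0 =>
        have e : cc x y 1 = 0 := by rw [← bb_zero_op', r3]
        exact ⟨hv, hw, by simp [e], by simp [e]⟩
      | k + 1 =>
        have g1 := ih k (by omega)
        refine ⟨hv, hw, ?_, ?_⟩
        · have a1 : ⁅vv x y k, bb x y 1⁆ = vv x y (k + 2) := by
            rw [vv_one_op k g1 g0.1, g0.2.2.1, sub_zero]
          have a2 := vv_one_op (k + 1) g0 hv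
          have a3 := op3 x y r3 (vv x y k)
          rw [a1, ww_zero_op k g1.1, a2, ww_zero_op (k + 2) hv] at a3
          have : ⁅cc x y (k + 1 + 1), x⁆ = 0 := by
            have a4 : vv x y (k + 1 + 2) = vv x y (k + 2 + 1) := rfl
            rw [a4] at a3
            have a5 := sub_eq_zero.2 a3
            rw [← a5]; abel
          exact this
        · have a1 : ⁅ww x y k, bb x y 1⁆ = - ww x y (k + 2) := by
            rw [ww_one_op h3 k g1, g0.2.2.2, add_zero]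
          have a2 := ww_one_op h3 (k + 1) g0
          have a3 := op3 x y r3 (ww x y k)
          have a4 : ⁅ww x y (k + 2), bb x y 0⁆
              = - (ww x y (k + 3) + ⁅cc x y (k + 2), y⁆) := by
            rw [bb_zero_op, hw, zero_lie, wwx, add_lie, zero_sub]
            rfl
          rw [a1, neg_lie, a4, ww_zero_op' k g1.2.1 g1.2.2.2, neg_lie, a2] at a3
          have a5 := h3 ⁅cc x y (k + 2), y⁆
          have a6 : ⁅cc x y (k + 1 + 1), y⁆ = ⁅cc x y (k + 2), y⁆ := rfl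
          rw [a6] at a3 ⊢
          have a7 : ww x y (k + 1 + 2) = ww x y (k + 3) := rfl
          rw [a7] at a3
          have a8 := sub_eq_zero.2 a3
          have a9 : ⁅cc x y (k + 2), y⁆ = (3 : ℤ) • ⁅cc x y (k + 2), y⁆
            - (- -(ww x y (k + 3) + ⁅cc x y (k + 2), y⁆)
              - -(-ww x y (k + 3) + ⁅cc x y (k + 2), y⁆)) := by abel
          rw [a9, a5, a8, sub_zero]

/-- central elements commute with all `b j`. -/
theorem cen_bb {x y m : L} (hx : ⁅m, x⁆ = 0) (hy : ⁅m, y⁆ = 0) (j : ℕ) : ⁅m, bb x y j⁆ = 0 := by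
  induction j with
  | zero => rw [bb_zero_op, hx, hy]; simp
  | succ j ih => rw [bb_succ_op, ih, hx, hy]; simp

/-- the multiplication table. -/
theorem table {x y : L} (h : ∀ k, Good x y k) (j : ℕ) : ∀ i,
    ⁅vv x y i, bb x y j⁆ = vv x y (i + j + 1) ∧ ⁅ww x y i, bb x y j⁆ = - ww x y (i + j + 1) ∧
      ⁅bb x y i, bb x y j⁆ = (j + 1) • cc x y (i + j) := by
  induction j with
  | zero =>
    intro i
    refine ⟨ww_zero_op i (h i).1, ww_zero_op' i (h i).2.1 (h i).2.2.2, ?_⟩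
    rw [bb_zero_op', zero_add, one_smul]
    rfl
  | succ j ih =>
    intro i
    have i1 : i + 1 + j + 1 = i + (j + 1) + 1 := by omega
    have i2 : i + j + 1 = i + (j + 1) := by omega
    have i3 : i + 1 + j = i + (j + 1) := by omega
    refine ⟨?_, ?_, ?_⟩
    · rw [bb_succ_op, (ih i).1, (h i).1, vvy, (ih (i + 1)).2.2, (h _).1]
      simp only [zero_lie, nsmul_lie, (h _).2.2.1, smul_zero, sub_zero, zero_add]
      rw [show ⁅bb x y (i + 1), x⁆ = vv x y (i + 1) from rfl, (ih (i + 1)).1, i1]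
    · rw [bb_succ_op, (ih i).2.1, (h i).2.1, wwx]
      simp only [zero_lie, neg_lie, add_lie, (ih (i + 1)).2.2, nsmul_lie, (h _).2.2.2,
        cen_bb (h i).2.2.1 (h i).2.2.2, smul_zero, sub_zero, add_zero, wwx]
      rw [i2]
      rfl
    · rw [bb_succ_op, (ih i).2.2]
      rw [show ⁅bb x y i, x⁆ = vv x y i from rfl, show ⁅bb x y i, y⁆ = ww x y i from rfl,
        (ih i).1, (ih i).2.1, wwx, vvy]
      simp only [add_lie, neg_lie, nsmul_lie, (h _).2.2.1, smul_zero, zero_lie, wwx,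
        cen_bb (h i).2.2.1 (h i).2.2.2, (ih (i + 1)).2.2, add_zero, i2, i3]
      rw [show j + 1 + 1 = (j + 1) + 1 from rfl, add_smul (j + 1) 1, one_smul]
      abel

theorem cc_torsion {x y : L} (h : ∀ k, Good x y k) (n : ℕ) : (n + 2) • cc x y n = 0 := by
  have h1 := (table h n 0).2.2
  have h2 := (table h 0 n).2.2
  rw [← lie_skew, h2] at h1
  simp only [zero_add, add_zero, one_smul] at h1
  have : (n + 2) • cc x y n = (n + 1) • cc x y n + cc x y n := by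
    rw [show n + 2 = (n + 1) + 1 from rfl, add_smul, one_smul]
  rw [this, ← h1]
  abel

/-- `c n` vanishes unless its degree `2 n + 4` is a multiple of six. -/
theorem cc_eq_zero (h3 : ∀ m : L, (3 : ℤ) • m = 0) {x y : L} (h : ∀ k, Good x y k) (n : ℕ)
    (hn : ¬ 3 ∣ n + 2) : cc x y n = 0 := by
  have h1 := cc_torsion h n
  have h4 : (3 : ℕ) • cc x y n = 0 := by
    have := h3 (cc x y n)
    rw [← natCast_zsmul]
    exact_mod_cast this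
  have h2 : n + 2 = 3 * ((n + 2) / 3) + (n + 2) % 3 := (Nat.div_add_mod _ _).symm
  have h5 : (n + 2) % 3 = 1 ∨ (n + 2) % 3 = 2 := by omega
  rw [h2, add_smul, mul_comm, mul_smul, h4, smul_zero, zero_add] at h1
  rcases h5 with h5 | h5
  · rwa [h5, one_smul] at h1
  · rw [h5] at h1
    have : cc x y n = (3 : ℕ) • cc x y n - (2 : ℕ) • cc x y n := by
      rw [show (3 : ℕ) = 2 + 1 from rfl, add_smul, one_smul]
      abel
    rw [this, h4, h1, sub_zero]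

end Pool.Agent.Lib.NOT62
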