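import Mathlib
import Pool.Agent.Lib.NOT62.Lie
import Pool.Agent.Lib.NOT62.Gr

/-!
Orders of the lower central factors from four relations in low degree, `p = 3`.
-/

namespace Pool.Agent.Lib.NOT62

open scoped commutatorElement

section counting

variable {M : Type*} [AddCommGroup M]

theorem zsmul_mod (h3 : ∀ m : M, (3 : ℤ) • m = 0) (p : ℤ) (m : M) : p • m = (p % 3) • m := by
  conv_lhs => rw [← Int.emod_add_mul_ediv p 3, add_smul, mul_comm, mul_smul, h3, smul_zero, add_zero]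

theorem smul_cancel3 (h3 : ∀ m : M, (3 : ℤ) • m = 0) {p : ℤ} {m : M} (h : p • m = 0)
    (hp : ¬ (3 : ℤ) ∣ p) : m = 0 := by
  rw [zsmul_mod h3] at h
  have h5 : p % 3 = 1 ∨ p % 3 = 2 := by omega
  rcases h5 with h5 | h5
  · rwa [h5, one_smul] at h
  · rw [h5] at h
    have : m = (3 : ℤ) • m - (2 : ℤ) • m := by
      rw [← sub_smul]; norm_num
    rw [this, h3, h, sub_zero]

theorem card_nine (h3 : ∀ m : M, (3 : ℤ) • m = 0) (u v : M)
    (hs : ∀ m : M, ∃ p q : ℤ, m = p • u + q • v)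
    (hi : ∀ p q : ℤ, p • u + q • v = 0 → (3 : ℤ) ∣ p ∧ (3 : ℤ) ∣ q) : Nat.card M = 9 := by
  let f : Fin 3 × Fin 3 → M := fun a => ((a.1 : ℕ) : ℤ) • u + ((a.2 : ℕ) : ℤ) • v
  have hf : Function.Bijective f := by
    constructor
    · rintro ⟨a, b⟩ ⟨a', b'⟩ h
      have h1 : (((a : ℕ) : ℤ) - ((a' : ℕ) : ℤ)) • u + (((b : ℕ) : ℤ) - ((b' : ℕ) : ℤ)) • v = 0 := by
        have h2 : ((a : ℕ) : ℤ) • u + ((b : ℕ) : ℤ) • v
          = ((a' : ℕ) : ℤ) • u + ((b' : ℕ) : ℤ) • v := h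
        rw [sub_smul, sub_smul, ← sub_eq_zero.2 h2]
        abel
      obtain ⟨d1, d2⟩ := hi _ _ h1
      have l1 := a.2
      have l2 := a'.2
      have l3 := b.2
      have l4 := b'.2
      have e1 : (a : ℕ) = (a' : ℕ) := by omega
      have e2 : (b : ℕ) = (b' : ℕ) := by omega
      rw [Prod.mk.injEq]
      exact ⟨Fin.ext e1, Fin.ext e2⟩
    · intro m
      obtain ⟨p, q, rfl⟩ := hs m
      have hp : (p % 3).toNat < 3 := by omega
      have hq : (q % 3).toNat < 3 := by omega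
      refine ⟨(⟨(p % 3).toNat, hp⟩, ⟨(q % 3).toNat, hq⟩), ?_⟩
      change (((p % 3).toNat : ℕ) : ℤ) • u + (((q % 3).toNat : ℕ) : ℤ) • v = _
      rw [Int.toNat_of_nonneg (by omega), Int.toNat_of_nonneg (by omega), ← zsmul_mod h3,
        ← zsmul_mod h3]
  rw [← Nat.card_congr (Equiv.ofBijective f hf)]
  simp

theorem card_three (h3 : ∀ m : M, (3 : ℤ) • m = 0) (u : M)
    (hs : ∀ m : M, ∃ p : ℤ, m = p • u) (hi : u ≠ 0) : Nat.card M = 3 := by
  let f : Fin 3 → M := fun a => ((a : ℕ) : ℤ) • u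
  have hf : Function.Bijective f := by
    constructor
    · intro a a' h
      have h1 : (((a : ℕ) : ℤ) - ((a' : ℕ) : ℤ)) • u = 0 := by
        have h2 : ((a : ℕ) : ℤ) • u = ((a' : ℕ) : ℤ) • u := h
        rw [sub_smul, h2, sub_self]
      have d1 : (3 : ℤ) ∣ ((a : ℕ) : ℤ) - ((a' : ℕ) : ℤ) := by
        by_contra hd
        exact hi (smul_cancel3 h3 h1 hd)
      have l1 := a.2
      have l2 := a'.2
      exact Fin.ext (by omega)
    · intro m
      obtain ⟨p, rfl⟩ := hs m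
      have hp : (p % 3).toNat < 3 := by omega
      refine ⟨⟨(p % 3).toNat, hp⟩, ?_⟩
      change (((p % 3).toNat : ℕ) : ℤ) • u = _
      rw [Int.toNat_of_nonneg (by omega), ← zsmul_mod h3]
  rw [← Nat.card_congr (Equiv.ofBijective f hf)]
  simp

theorem card_three_or_nine (h3 : ∀ m : M, (3 : ℤ) • m = 0) (u v : M)
    (hs : ∀ m : M, ∃ p q : ℤ, m = p • u + q • v) (hn : ∃ m : M, m ≠ 0) :
    Nat.card M = 3 ∨ Nat.card M = 9 := by
  by_cases hi : ∀ p q : ℤ, p • u + q • v = 0 → (3 : ℤ) ∣ p ∧ (3 : ℤ) ∣ q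
  · exact Or.inr (card_nine h3 u v hs hi)
  · left
    push Not at hi
    obtain ⟨p, q, h, hpq⟩ := hi
    have inv3 : ∀ r : ℤ, ¬ (3 : ℤ) ∣ r → ∃ s : ℤ, (3 : ℤ) ∣ s * r - 1 := by
      intro r hr
      have h5 : r % 3 = 1 ∨ r % 3 = 2 := by omega
      rcases h5 with h5 | h5
      · exact ⟨1, by omega⟩
      · exact ⟨2, by omega⟩
    have key : ∀ (r : ℤ) (w : M), ¬ (3 : ℤ) ∣ r → ∃ s : ℤ, w = s • (r • w) := by
      intro r w hr
      obtain ⟨s, t, hst⟩ := inv3 r hr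
      refine ⟨s, ?_⟩
      rw [smul_smul, show s * r = 1 + 3 * t by omega, add_smul, one_smul, mul_comm, mul_smul, h3,
        smul_zero, add_zero]
    obtain ⟨m0, hm0⟩ := hn
    by_cases hp : (3 : ℤ) ∣ p
    · have hq := hpq hp
      obtain ⟨t, rfl⟩ := hp
      have hv : v = 0 := by
        rw [mul_comm, mul_smul, h3, smul_zero, zero_add] at h
        exact smul_cancel3 h3 h hq
      refine card_three h3 u (fun m => ?_) ?_
      · obtain ⟨a, b, e⟩ := hs m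
        exact ⟨a, by rw [e, hv, smul_zero, add_zero]⟩
      · rintro rfl
        obtain ⟨a, b, e⟩ := hs m0
        exact hm0 (by rw [e, hv, smul_zero, smul_zero, add_zero])
    · obtain ⟨s, hsu⟩ := key p u hp
      have hu : u = (-(s * q)) • v := by
        have : p • u = - (q • v) := by rw [← sub_eq_zero, ← h]; abel
        rw [hsu, this, smul_neg, smul_smul, neg_smul]
      refine card_three h3 v (fun m => ?_) ?_
      · obtain ⟨a, b, e⟩ := hs m
        refine ⟨a * -(s * q) + b, ?_⟩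
        rw [add_smul, mul_smul, ← hu, e]
      · rintro rfl
        obtain ⟨a, b, e⟩ := hs m0
        exact hm0 (by rw [e, hu]; simp)

/-- elementary abelian groups of exponent three with the same finite order are isomorphic. -/
theorem iso_of_card {M N : Type*} [AddCommGroup M] [AddCommGroup N]
    (hM : ∀ m : M, (3 : ℤ) • m = 0) (hN : ∀ m : N, (3 : ℤ) • m = 0) (h0 : Nat.card M ≠ 0)
    (h : Nat.card M = Nat.card N) : Nonempty (M ≃+ N) := by
  have hM' : ∀ m : M, 3 • m = 0 := fun m => by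
    have := hM m; rw [← natCast_zsmul]; exact_mod_cast this
  have hN' : ∀ m : N, 3 • m = 0 := fun m => by
    have := hN m; rw [← natCast_zsmul]; exact_mod_cast this
  let _ : Module (ZMod 3) M := AddCommGroup.zmodModule hM'
  let _ : Module (ZMod 3) N := AddCommGroup.zmodModule hN'
  have : Fact (Nat.Prime 3) := ⟨Nat.prime_three⟩
  have : Finite M := Nat.finite_of_card_ne_zero h0
  have : Finite N := Nat.finite_of_card_ne_zero (h ▸ h0)
  have e1 := Module.natCard_eq_pow_finrank (K := ZMod 3) (V := M)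
  have e2 := Module.natCard_eq_pow_finrank (K := ZMod 3) (V := N)
  have e3 : Module.finrank (ZMod 3) M = Module.finrank (ZMod 3) N := by
    rw [e1, e2, Nat.card_zmod] at h
    exact Nat.pow_right_injective (by norm_num : 2 ≤ 3) h
  exact ⟨(LinearEquiv.ofFinrankEq M N e3).toAddEquiv⟩

end counting

namespace NSer

variable {G : Type*} [Group G] (S : NSer G)

theorem hom_zero_iff {i : ℕ} {a : G} (ha : a ∈ S.g i) : S.hom i a ha = 0 ↔ a ∈ S.g (i + 1) := by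
  rw [← S.cl_one_eq ha, hom]
  constructor
  · intro h
    exact DirectSum.of_injective (β := fun i => S.A i) i (by rw [h, map_zero])
  · intro h
    rw [h, map_zero]

theorem hom_zpow {i : ℕ} {a : G} (ha : a ∈ S.g i) (n : ℤ) :
    S.hom i (a ^ n) (zpow_mem ha n) = n • S.hom i a ha := by
  rw [hom, hom, ← map_zsmul]
  rfl

/-- The hypotheses: two generators modulo `g 2`, whose cubes lie in `g 2`, generation of the higher
terms, and the relations of the Nottingham group in degrees four and six. -/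
structure Gen (x y : G) : Prop where
  span : ∀ a : G, ∃ p q : ℤ, ∃ c ∈ S.g 2, a = x ^ p * y ^ q * c
  cx : x ^ 3 ∈ S.g 2
  cy : y ^ 3 ∈ S.g 2
  gen : ∀ i, 1 ≤ i → ∀ a ∈ S.g (i + 1), ∃ b ∈ S.g i, ∃ c ∈ S.g i, ∃ d ∈ S.g (i + 2),
    a = ⁅b, x⁆ * ⁅c, y⁆ * d
  r1 : ⁅⁅⁅y, x⁆, x⁆, x⁆ ∈ S.g 5
  r2 : ⁅⁅⁅y, x⁆, y⁆, y⁆ ∈ S.g 5
  r3 : ⁅⁅⁅⁅y, x⁆, x⁆, y⁆, ⁅y, x⁆⁆ ∈ S.g 7
  inf : ∀ i, 1 ≤ i → ¬ S.g i ≤ S.g (i + 1)

variable {S} {x y : G}

theorem mem1 (S : NSer G) (a : G) : a ∈ S.g 1 := by rw [S.top1]; trivial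

theorem hom_one_span (h : S.Gen x y) (a : G) (ha : a ∈ S.g 1) : ∃ p q : ℤ,
    S.hom 1 a ha = p • S.hom 1 x (S.mem1 x) + q • S.hom 1 y (S.mem1 y) := by
  obtain ⟨p, q, c, hc, e⟩ := h.span a
  refine ⟨p, q, ?_⟩
  rw [S.hom_congr rfl e ha (mul_mem (mul_mem (zpow_mem (S.mem1 x) p) (zpow_mem (S.mem1 y) q))
    (S.mem1 c)), S.hom_add (mul_mem (zpow_mem (S.mem1 x) p) (zpow_mem (S.mem1 y) q)) (S.mem1 c),
    S.hom_add (zpow_mem (S.mem1 x) p) (zpow_mem (S.mem1 y) q), S.hom_zpow, S.hom_zpow,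
    (S.hom_zero_iff (S.mem1 c)).2 hc, add_zero]

theorem hom_succ_span (h : S.Gen x y) (i : ℕ) (hi : 1 ≤ i) (a : G) (ha : a ∈ S.g (i + 1)) :
    ∃ b, ∃ hb : b ∈ S.g i, ∃ c, ∃ hc : c ∈ S.g i, S.hom (i + 1) a ha
      = ⁅S.hom i b hb, S.hom 1 x (S.mem1 x)⁆ + ⁅S.hom i c hc, S.hom 1 y (S.mem1 y)⁆ := by
  obtain ⟨b, hb, c, hc, d, hd, e⟩ := h.gen i hi a ha
  refine ⟨b, hb, c, hc, ?_⟩
  have m1 : ⁅b, x⁆ ∈ S.g (i + 1) := S.com_mem hb (S.mem1 x)
  have m2 : ⁅c, y⁆ ∈ S.g (i + 1) := S.com_mem hc (S.mem1 y)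
  have m3 : d ∈ S.g (i + 1) := S.anti _ hd
  rw [S.hom_congr rfl e ha (mul_mem (mul_mem m1 m2) m3), S.hom_add (mul_mem m1 m2) m3,
    S.hom_add m1 m2, (S.hom_zero_iff m3).2 hd, add_zero, S.lie_hom, S.lie_hom]

theorem three_smul (h : S.Gen x y) (u : S.L) : (3 : ℤ) • u = 0 := by
  induction u using S.L_ind with
  | h0 => simp
  | h2 u v hu hv => rw [smul_add, hu, hv, add_zero]
  | h1 i a ha =>
    have h1 : ∀ (a : G) (ha : a ∈ S.g 1), (3 : ℤ) • S.hom 1 a ha = 0 := by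
      intro a ha
      obtain ⟨p, q, e⟩ := hom_one_span h a ha
      have ex : (3 : ℤ) • S.hom 1 x (S.mem1 x) = 0 := by
        rw [← S.hom_zpow, S.hom_zero_iff]
        exact_mod_cast h.cx
      have ey : (3 : ℤ) • S.hom 1 y (S.mem1 y) = 0 := by
        rw [← S.hom_zpow, S.hom_zero_iff]
        exact_mod_cast h.cy
      rw [e, smul_add, smul_comm, ex, smul_comm, ey]
      simp
    have hn : ∀ n : ℕ, ∀ (a : G) (ha : a ∈ S.g (n + 1)), (3 : ℤ) • S.hom (n + 1) a ha = 0 := by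
      intro n
      induction n with
      | zero => exact h1
      | succ n ih =>
        intro a ha
        obtain ⟨b, hb, c, hc, e⟩ := hom_succ_span h (n + 1) (by omega) a ha
        rw [e, smul_add, ← zsmul_lie, ← zsmul_lie, ih, ih]
        simp
    match i with
    | 0 =>
      have : S.hom 0 a ha = 0 := (S.hom_zero_iff ha).2 (S.mem1 a)
      rw [this, smul_zero]
    | n + 1 => exact hn n a ha

/-- group elements representing `bb`. -/
def bg (x y : G) : ℕ → G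
  | 0 => ⁅y, x⁆
  | k + 1 => ⁅⁅bg x y k, x⁆, y⁆

theorem bg_mem (S : NSer G) (x y : G) (k : ℕ) : bg x y k ∈ S.g (2 * k + 2) := by
  induction k with
  | zero => exact S.com_mem2 (S.mem1 y) x
  | succ k ih => exact S.com_mem2 (S.com_mem2 ih x) y

/-- the two generators of the graded Lie ring. -/
noncomputable abbrev gx (S : NSer G) (x : G) : S.L := S.hom 1 x (S.mem1 x)

theorem bb_eq (S : NSer G) (x y : G) (k : ℕ) :
    bb (gx S x) (gx S y) k = S.hom (2 * k + 2) (bg x y k) (bg_mem S x y k) := by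
  induction k with
  | zero =>
    rw [bb, gx, gx, S.lie_hom]
    rfl
  | succ k ih =>
    rw [bb, ih, gx, gx, S.lie_hom, S.lie_hom]
    rfl

theorem vv_eq (S : NSer G) (x y : G) (k : ℕ) : vv (gx S x) (gx S y) k
    = S.hom (2 * k + 3) ⁅bg x y k, x⁆ (S.com_mem2 (bg_mem S x y k) x) := by
  rw [vv, bb_eq, gx, S.lie_hom]

theorem ww_eq (S : NSer G) (x y : G) (k : ℕ) : ww (gx S x) (gx S y) k
    = S.hom (2 * k + 3) ⁅bg x y k, y⁆ (S.com_mem2 (bg_mem S x y k) y) := by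
  rw [ww, bb_eq, gx, S.lie_hom]

theorem cc_eq (S : NSer G) (x y : G) (k : ℕ) : ∃ ha, cc (gx S x) (gx S y) k
    = S.hom (2 * k + 4) (⁅⁅bg x y k, y⁆, x⁆ * (bg x y (k + 1))⁻¹) ha := by
  have m1 : ⁅⁅bg x y k, y⁆, x⁆ ∈ S.g (2 * k + 4) :=
    S.com_mem2 (S.com_mem2 (bg_mem S x y k) y) x
  have m2 : bg x y (k + 1) ∈ S.g (2 * k + 4) := bg_mem S x y (k + 1)
  refine ⟨mul_mem m1 (inv_mem m2), ?_⟩
  rw [S.hom_add m1 (inv_mem m2), S.hom_inv m2, cc, ww_eq, gx, S.lie_hom, bb_eq, sub_eq_add_neg]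
  rfl

theorem goodS (h : S.Gen x y) (k : ℕ) : Good (gx S x) (gx S y) k := by
  refine good (three_smul h) _ _ ?_ ?_ ?_ k
  · rw [vv_eq, gx, S.lie_hom, S.hom_zero_iff]
    exact h.r1
  · rw [ww_eq, gx, S.lie_hom, S.hom_zero_iff]
    exact h.r2
  · rw [bb_eq, bb_eq, S.lie_hom, S.hom_zero_iff]
    exact h.r3

theorem span2 (h : S.Gen x y) (a : G) (ha : a ∈ S.g 2) :
    ∃ p : ℤ, S.hom 2 a ha = p • bb (gx S x) (gx S y) 0 := by
  obtain ⟨b, hb, c, hc, e⟩ := hom_succ_span h 1 le_rfl a ha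
  obtain ⟨p, q, e1⟩ := hom_one_span h b hb
  obtain ⟨p', q', e2⟩ := hom_one_span h c hc
  refine ⟨q - p', ?_⟩
  rw [e, e1, e2]
  simp only [add_lie, zsmul_lie, lie_self, smul_zero, zero_add, add_zero]
  rw [show bb (gx S x) (gx S y) 0 = ⁅S.hom 1 y (S.mem1 y), S.hom 1 x (S.mem1 x)⁆ from rfl,
    ← lie_skew (S.hom 1 y (S.mem1 y)) (S.hom 1 x (S.mem1 x))]
  simp only [smul_neg, sub_smul]
  abel

theorem odd_of_even (h : S.Gen x y) (k : ℕ) (z : S.L) (hz : ⁅z, gx S x⁆ = 0)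
    (hz' : ⁅z, gx S y⁆ = 0) (hs : ∀ (a : G) (ha : a ∈ S.g (2 * k + 2)), ∃ p q : ℤ,
      S.hom (2 * k + 2) a ha = p • bb (gx S x) (gx S y) k + q • z)
    (a : G) (ha : a ∈ S.g (2 * k + 3)) : ∃ p q : ℤ, S.hom (2 * k + 3) a ha
      = p • vv (gx S x) (gx S y) k + q • ww (gx S x) (gx S y) k := by
  obtain ⟨b, hb, c, hc, e⟩ := hom_succ_span h (2 * k + 2) (by omega) a ha
  obtain ⟨p, q, e1⟩ := hs b hb
  obtain ⟨p', q', e2⟩ := hs c hc
  refine ⟨p, p', ?_⟩
  rw [e, e1, e2]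
  simp only [add_lie, zsmul_lie, hz, hz', smul_zero, add_zero]
  rfl

theorem even_of_odd (h : S.Gen x y) (k : ℕ) (hs : ∀ (a : G) (ha : a ∈ S.g (2 * k + 3)),
      ∃ p q : ℤ, S.hom (2 * k + 3) a ha
        = p • vv (gx S x) (gx S y) k + q • ww (gx S x) (gx S y) k)
    (a : G) (ha : a ∈ S.g (2 * k + 4)) : ∃ p q : ℤ, S.hom (2 * k + 4) a ha
      = p • bb (gx S x) (gx S y) (k + 1) + q • cc (gx S x) (gx S y) k := by
  obtain ⟨b, hb, c, hc, e⟩ := hom_succ_span h (2 * k + 3) (by omega) a ha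
  obtain ⟨p, q, e1⟩ := hs b hb
  obtain ⟨p', q', e2⟩ := hs c hc
  refine ⟨q + p', q, ?_⟩
  have g := goodS h k
  have f1 : ⁅vv (gx S x) (gx S y) k, S.hom 1 x (S.mem1 x)⁆ = 0 := g.1
  have f2 : ⁅ww (gx S x) (gx S y) k, S.hom 1 y (S.mem1 y)⁆ = 0 := g.2.1
  have f3 : ⁅vv (gx S x) (gx S y) k, S.hom 1 y (S.mem1 y)⁆ = bb (gx S x) (gx S y) (k + 1) := rfl
  have f4 : ⁅ww (gx S x) (gx S y) k, S.hom 1 x (S.mem1 x)⁆
    = bb (gx S x) (gx S y) (k + 1) + cc (gx S x) (gx S y) k := wwx _ _ k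
  rw [e, e1, e2]
  simp only [add_lie, zsmul_lie, f1, f2, f3, f4, smul_zero, zero_add, add_zero, smul_add, add_smul]
  abel

theorem span_all (h : S.Gen x y) (k : ℕ) :
    (∀ (a : G) (ha : a ∈ S.g (2 * k + 3)), ∃ p q : ℤ, S.hom (2 * k + 3) a ha
        = p • vv (gx S x) (gx S y) k + q • ww (gx S x) (gx S y) k) ∧
    (∀ (a : G) (ha : a ∈ S.g (2 * k + 4)), ∃ p q : ℤ, S.hom (2 * k + 4) a ha
      = p • bb (gx S x) (gx S y) (k + 1) + q • cc (gx S x) (gx S y) k) := by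
  induction k with
  | zero =>
    have o : ∀ (a : G) (ha : a ∈ S.g (2 * 0 + 3)), ∃ p q : ℤ, S.hom (2 * 0 + 3) a ha
        = p • vv (gx S x) (gx S y) 0 + q • ww (gx S x) (gx S y) 0 := by
      refine odd_of_even h 0 0 (zero_lie _) (zero_lie _) (fun a ha => ?_)
      obtain ⟨p, e⟩ := span2 h a ha
      refine ⟨p, 0, ?_⟩
      rw [smul_zero, add_zero]
      exact e
    exact ⟨o, even_of_odd h 0 o⟩
  | succ k ih =>
    have o := odd_of_even h (k + 1) (cc (gx S x) (gx S y) k) (goodS h k).2.2.1 (goodS h k).2.2.2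
      (fun a ha => ih.2 a ha)
    exact ⟨o, even_of_odd h (k + 1) o⟩

theorem bb_ne (h : S.Gen x y) (k : ℕ) : bb (gx S x) (gx S y) (k + 1) ≠ 0 ∧
    bb (gx S x) (gx S y) (k + 1) + cc (gx S x) (gx S y) k ≠ 0 ∧ bb (gx S x) (gx S y) 0 ≠ 0 := by
  have aux : ∀ j, vv (gx S x) (gx S y) j = 0 → ww (gx S x) (gx S y) j = 0 → False := by
    intro j h1 h2
    refine h.inf (2 * j + 3) (by omega) (fun a ha => ?_)
    obtain ⟨p, q, e⟩ := (span_all h j).1 a ha
    rw [h1, h2, smul_zero, smul_zero, add_zero, S.hom_zero_iff] at e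
    exact e
  refine ⟨fun e => ?_, fun e => ?_, fun e => ?_⟩
  · exact aux (k + 1) (by rw [vv, e, zero_lie]) (by rw [ww, e, zero_lie])
  · have e2 : bb (gx S x) (gx S y) (k + 1) = - cc (gx S x) (gx S y) k := by
      rw [← sub_eq_zero, ← e]; abel
    have g := goodS h k
    refine aux (k + 1) ?_ ?_
    · rw [vv, e2, neg_lie, g.2.2.1, neg_zero]
    · rw [ww, e2, neg_lie, g.2.2.2, neg_zero]
  · exact aux 0 (by rw [vv, e, zero_lie]) (by rw [ww, e, zero_lie])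

theorem three_smulA (h : S.Gen x y) (i : ℕ) (u : S.A i) : (3 : ℤ) • u = 0 := by
  obtain ⟨a, ha, rfl⟩ := S.cl_surj u
  have := three_smul h (S.hom i a ha)
  rw [hom, ← map_zsmul] at this
  exact DirectSum.of_injective (β := fun i => S.A i) i (by rw [this, map_zero])

theorem of_cl (i : ℕ) (a : G) (ha : a ∈ S.g i) :
    DirectSum.of (fun i => S.A i) i (S.cl i a ha) = S.hom i a ha := rfl

/-- odd degrees at least three. -/
theorem card_odd (h : S.Gen x y) (k : ℕ) : Nat.card (S.A (2 * k + 3)) = 9 := by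
  have g := goodS h k
  refine card_nine (three_smulA h _)
    (S.cl (2 * k + 3) ⁅bg x y k, x⁆ (S.com_mem2 (bg_mem S x y k) x))
    (S.cl (2 * k + 3) ⁅bg x y k, y⁆ (S.com_mem2 (bg_mem S x y k) y)) ?_ ?_
  · intro m
    obtain ⟨a, ha, rfl⟩ := S.cl_surj m
    obtain ⟨p, q, e⟩ := (span_all h k).1 a ha
    refine ⟨p, q, DirectSum.of_injective (β := fun i => S.A i) (2 * k + 3) ?_⟩
    rw [map_add, map_zsmul, map_zsmul, of_cl, of_cl, of_cl, ← vv_eq, ← ww_eq, e]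
  · intro p q e
    have e1 := congrArg (DirectSum.of (fun i => S.A i) (2 * k + 3)) e
    rw [map_add, map_zsmul, map_zsmul, of_cl, of_cl, ← vv_eq, ← ww_eq, map_zero] at e1
    have e2 := congrArg (fun u => ⁅u, gx S x⁆) e1
    have e3 := congrArg (fun u => ⁅u, gx S y⁆) e1
    simp only [add_lie, zsmul_lie, zero_lie, g.1, g.2.1, vvy, wwx, smul_zero, zero_add,
      add_zero] at e2 e3
    constructor
    · by_contra hp
      exact (bb_ne h k).1 (smul_cancel3 (three_smul h) e3 hp)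
    · by_contra hq
      exact (bb_ne h k).2.1 (smul_cancel3 (three_smul h) e2 hq)

theorem card_one (h : S.Gen x y) : Nat.card (S.A 1) = 9 := by
  refine card_nine (three_smulA h _) (S.cl 1 x (S.mem1 x)) (S.cl 1 y (S.mem1 y)) ?_ ?_
  · intro m
    obtain ⟨a, ha, rfl⟩ := S.cl_surj m
    obtain ⟨p, q, e⟩ := hom_one_span h a ha
    refine ⟨p, q, DirectSum.of_injective (β := fun i => S.A i) 1 ?_⟩
    rw [map_add, map_zsmul, map_zsmul, of_cl, of_cl, of_cl, e]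
  · intro p q e
    have e1 := congrArg (DirectSum.of (fun i => S.A i) 1) e
    rw [map_add, map_zsmul, map_zsmul, of_cl, of_cl, map_zero] at e1
    have e2 := congrArg (fun u => ⁅u, gx S x⁆) e1
    have e3 := congrArg (fun u => ⁅gx S y, u⁆) e1
    simp only [gx, add_lie, lie_add, lie_zsmul, zsmul_lie, zero_lie, lie_zero, lie_self, smul_zero,
      zero_add, add_zero] at e2 e3
    constructor
    · by_contra hp
      exact (bb_ne h 0).2.2 (smul_cancel3 (three_smul h) e3 hp)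
    · by_contra hq
      exact (bb_ne h 0).2.2 (smul_cancel3 (three_smul h) e2 hq)

/-- even degrees at least four. -/
theorem card_even (h : S.Gen x y) (k : ℕ) :
    Nat.card (S.A (2 * k + 4)) = 3 ∨ Nat.card (S.A (2 * k + 4)) = 9 := by
  obtain ⟨hc, ec⟩ := cc_eq S x y k
  refine card_three_or_nine (three_smulA h _)
    (S.cl (2 * k + 4) (bg x y (k + 1)) (bg_mem S x y (k + 1)))
    (S.cl (2 * k + 4) _ hc) ?_ ?_
  · intro m
    obtain ⟨a, ha, rfl⟩ := S.cl_surj m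
    obtain ⟨p, q, e⟩ := (span_all h k).2 a ha
    refine ⟨p, q, DirectSum.of_injective (β := fun i => S.A i) (2 * k + 4) ?_⟩
    rw [map_add, map_zsmul, map_zsmul, of_cl, of_cl, of_cl, ← ec, e, bb_eq]
    rfl
  · refine ⟨S.cl (2 * k + 4) (bg x y (k + 1)) (bg_mem S x y (k + 1)), fun e => ?_⟩
    refine (bb_ne h k).1 ?_
    rw [bb_eq, hom]
    have : S.cl (2 * (k + 1) + 2) (bg x y (k + 1)) (bg_mem S x y (k + 1)) = 0 := e
    rw [this, map_zero]

theorem card_even_three (h : S.Gen x y) (k : ℕ) (hk : ¬ 3 ∣ k + 2 ∨ k = 1) :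
    Nat.card (S.A (2 * k + 4)) = 3 := by
  have hc0 : cc (gx S x) (gx S y) k = 0 := by
    rcases hk with hk | rfl
    · exact cc_eq_zero (three_smul h) (goodS h) k hk
    · rw [← bb_zero_op', bb_eq, bb_eq, S.lie_hom, S.hom_zero_iff]
      exact h.r3
  refine card_three (three_smulA h _) (S.cl (2 * k + 4) (bg x y (k + 1)) (bg_mem S x y (k + 1)))
    ?_ ?_
  · intro m
    obtain ⟨a, ha, rfl⟩ := S.cl_surj m
    obtain ⟨p, q, e⟩ := (span_all h k).2 a ha
    refine ⟨p, DirectSum.of_injective (β := fun i => S.A i) (2 * k + 4) ?_⟩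
    rw [map_zsmul, of_cl, of_cl, e, hc0, smul_zero, add_zero, bb_eq]
    rfl
  · intro e
    refine (bb_ne h k).1 ?_
    rw [bb_eq, hom]
    have : S.cl (2 * (k + 1) + 2) (bg x y (k + 1)) (bg_mem S x y (k + 1)) = 0 := e
    rw [this, map_zero]

theorem card_two (h : S.Gen x y) : Nat.card (S.A 2) = 3 := by
  refine card_three (three_smulA h _) (S.cl 2 (bg x y 0) (bg_mem S x y 0)) ?_ ?_
  · intro m
    obtain ⟨a, ha, rfl⟩ := S.cl_surj m
    obtain ⟨p, e⟩ := span2 h a ha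
    refine ⟨p, DirectSum.of_injective (β := fun i => S.A i) 2 ?_⟩
    rw [map_zsmul, of_cl, of_cl, e, bb_eq]
  · intro e
    refine (bb_ne h 0).2.2 ?_
    rw [bb_eq, hom]
    have : S.cl (2 * 0 + 2) (bg x y 0) (bg_mem S x y 0) = 0 := e
    rw [this, map_zero]

/-- **Core theorem.** -/
theorem core (h : S.Gen x y) (i : ℕ) (hi : 1 ≤ i) :
    (i % 2 = 1 → Nat.card (S.A i) = 9) ∧
    (i % 2 = 0 → ¬ 6 ∣ i ∨ i = 6 → Nat.card (S.A i) = 3) ∧
    (i % 2 = 0 → Nat.card (S.A i) = 3 ∨ Nat.card (S.A i) = 9) := by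
  refine ⟨fun h1 => ?_, fun h1 h2 => ?_, fun h1 => ?_⟩
  · by_cases h3 : i = 1
    · subst h3; exact card_one h
    · obtain ⟨k, rfl⟩ : ∃ k, i = 2 * k + 3 := ⟨(i - 3) / 2, by omega⟩
      exact card_odd h k
  · by_cases h3 : i = 2
    · subst h3; exact card_two h
    · obtain ⟨k, rfl⟩ : ∃ k, i = 2 * k + 4 := ⟨(i - 4) / 2, by omega⟩
      exact card_even_three h k (by omega)
  · by_cases h3 : i = 2
    · subst h3; exact Or.inl (card_two h)
    · obtain ⟨k, rfl⟩ : ∃ k, i = 2 * k + 4 := ⟨(i - 4) / 2, by omega⟩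
      exact card_even h k

end NSer

end Pool.Agent.Lib.NOT62
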