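import Mathlib
import Pool.Agent.Lib.NOT62.Lie

/-!
The Lie ring part for primes `p = q + 5`: a Lie ring killed by `p`, generated by two elements with
the relations of the graded Lie ring of the Nottingham group in degrees at most `2 p`, is a central
extension of the positive part of a loop algebra of the Witt algebra.
-/

namespace Pool.Agent.Lib.NOT62.P

open Pool.Agent.Lib.NOT62 (rl)

variable {L : Type*} [LieRing L]

/-- `pw x n m = [m, x, ..., x]` with `n` factors `x`. -/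
def pw (x : L) : ℕ → L → L
  | 0, m => m
  | n + 1, m => ⁅pw x n m, x⁆

theorem pw_zero (x m : L) : pw x 0 m = m := rfl

theorem pw_succ (x : L) (n : ℕ) (m : L) : pw x (n + 1) m = ⁅pw x n m, x⁆ := rfl

theorem pw_add (x : L) (a b : ℕ) (m : L) : pw x (a + b) m = pw x b (pw x a m) := by
  induction b with
  | zero => rfl
  | succ b ih => rw [← add_assoc, pw_succ, ih, pw_succ]

theorem pw_succ' (x : L) (n : ℕ) (m : L) : pw x (n + 1) m = pw x n ⁅m, x⁆ := by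
  rw [add_comm, pw_add]; rfl

theorem pw_of_zero (x : L) (n : ℕ) : pw x n 0 = 0 := by
  induction n with
  | zero => rfl
  | succ n ih => rw [pw_succ, ih, zero_lie]

theorem pw_zsmul (x : L) (n : ℕ) (c : ℤ) (m : L) : pw x n (c • m) = c • pw x n m := by
  induction n with
  | zero => rfl
  | succ n ih => rw [pw_succ, ih, pw_succ, zsmul_lie]

/-- the operator of `u X^(n+1)`. -/
theorem ad_succ (x m u : L) (n : ℕ) :
    ⁅m, pw x (n + 1) u⁆ = ⁅⁅m, pw x n u⁆, x⁆ - ⁅⁅m, x⁆, pw x n u⁆ := by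
  rw [pw_succ, rl]

/-- one step of the recursion along total degree. -/
theorem gstep {x m u v : L} {t : ℕ}
    (h : ∀ j n, j + n = t → ⁅⁅pw x j m, pw x n u⁆, x⁆ = ((-1 : ℤ) ^ n) • v) (n : ℕ) :
    ∀ j, j + n = t + 1 →
      ⁅pw x j m, pw x n u⁆ = ((-1 : ℤ) ^ n) • (⁅pw x (t + 1) m, u⁆ - (n : ℤ) • v) := by
  induction n with
  | zero =>
    intro j hj
    have : j = t + 1 := by omega
    subst this
    simp [pw_zero]
  | succ n ih =>
    intro j hj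
    rw [ad_succ, h j n (by omega), ← pw_succ, ih (j + 1) (by omega), pow_succ]
    push_cast
    module

theorem g0 {x m u : L} {T : ℕ} (h : ∀ t, t < T → ⁅⁅pw x t m, u⁆, x⁆ = 0) (t : ℕ) (ht : t ≤ T) :
    ∀ j n, j + n = t → ⁅pw x j m, pw x n u⁆ = ((-1 : ℤ) ^ n) • ⁅pw x t m, u⁆ := by
  induction t with
  | zero =>
    intro j n hj
    have h1 : j = 0 := by omega
    have h2 : n = 0 := by omega
    subst h1; subst h2
    simp [pw_zero]
  | succ t ih =>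
    intro j n hj
    have h1 : ∀ j n, j + n = t → ⁅⁅pw x j m, pw x n u⁆, x⁆ = ((-1 : ℤ) ^ n) • (0 : L) := by
      intro j n hjn
      rw [ih (by omega) j n hjn, zsmul_lie, h t (by omega)]
    rw [gstep h1 n j hj, smul_zero, sub_zero]

theorem cen_pw {x y m : L} (hx : ⁅m, x⁆ = 0) (hy : ⁅m, y⁆ = 0) (n : ℕ) : ⁅m, pw x n y⁆ = 0 := by
  induction n with
  | zero => exact hy
  | succ n ih => rw [ad_succ, ih, hx]; simp

variable (q : ℕ) (x y : L)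

/-- `al 0 = [y, x, ..., x]` (`q + 3` factors `x`), `al (k+1) = [al k, x, y, x, ..., x]`
(`q + 2` factors `x` at the end). -/
def al : ℕ → L
  | 0 => pw x (q + 3) y
  | k + 1 => pw x (q + 2) ⁅⁅al k, x⁆, y⁆

/-- `ss k = [al k, x, y]`. -/
def ss (k : ℕ) : L := ⁅⁅al q x y k, x⁆, y⁆

/-- `xi k = [ss k, x, ..., x, y]` (`q` factors `x`). -/
def xi (k : ℕ) : L := ⁅pw x q (ss q x y k), y⁆

theorem al_succ (k : ℕ) : al q x y (k + 1) = pw x (q + 2) (ss q x y k) := rfl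

/-- The relations. -/
structure Rel : Prop where
  pr : (q + 5).Prime
  chp : ∀ m : L, ((q + 5 : ℕ) : ℤ) • m = 0
  ra : ∀ n, 1 ≤ n → n ≤ q + 2 → ⁅pw x n y, y⁆ = 0
  rb1 : ⁅⁅al q x y 0, x⁆, x⁆ = 0
  rb2 : ⁅⁅al q x y 0, y⁆, y⁆ = 0
  rc : ⁅⁅al q x y 0, y⁆, x⁆ = (-2 : ℤ) • ss q x y 0
  rd : xi q x y 0 = 0
  re : ⁅⁅al q x y 1, y⁆, x⁆ = (-2 : ℤ) • ss q x y 1

variable {q x y}

theorem Rel.even (h : Rel q x y) : Even q := by
  have h1 := h.pr.eq_two_or_odd'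
  rcases h1 with h1 | h1
  · omega
  · rw [Nat.even_iff]
    rw [Nat.odd_iff] at h1
    omega

theorem Rel.cancel (h : Rel q x y) {c : ℤ} {m : L} (hm : c • m = 0)
    (hc : ¬ ((q + 5 : ℕ) : ℤ) ∣ c) : m = 0 := by
  have hp : Prime ((q + 5 : ℕ) : ℤ) := Nat.prime_iff_prime_int.1 h.pr
  have hco : IsCoprime ((q + 5 : ℕ) : ℤ) c := (hp.irreducible.coprime_iff_not_dvd).2 hc
  obtain ⟨u, v, huv⟩ := hco
  have : m = (u * ((q + 5 : ℕ) : ℤ) + v * c) • m := by rw [huv, one_smul]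
  rw [this, add_smul, mul_smul, mul_smul, h.chp, hm]
  simp

theorem Rel.modp (h : Rel q x y) {c d : ℤ} (hcd : ((q + 5 : ℕ) : ℤ) ∣ c - d) (m : L) :
    c • m = d • m := by
  obtain ⟨e, he⟩ := hcd
  have : c = d + e * ((q + 5 : ℕ) : ℤ) := by linarith
  rw [this, add_smul, mul_smul, h.chp, smul_zero, add_zero]

/-- the first three facts. -/
def G3 (q : ℕ) (x y : L) (k : ℕ) : Prop :=
  ⁅⁅al q x y k, x⁆, x⁆ = 0 ∧ ⁅⁅al q x y k, y⁆, y⁆ = 0 ∧
    ⁅⁅al q x y k, y⁆, x⁆ = (-2 : ℤ) • ss q x y k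

/-- the last facts. -/
def G5 (q : ℕ) (x y : L) (k : ℕ) : Prop :=
  (∀ i, i ≤ q + 1 → i ≠ q → ⁅pw x i (ss q x y k), y⁆ = 0) ∧
    ⁅xi q x y k, x⁆ = 0 ∧ ⁅xi q x y k, y⁆ = 0

/-- `(al k X) F_n = s_k X^n`. -/
theorem t1 {k : ℕ} (g : G3 q x y k) (n : ℕ) :
    ⁅⁅al q x y k, x⁆, pw x n y⁆ = pw x n (ss q x y k) := by
  induction n with
  | zero => rfl
  | succ n ih => rw [ad_succ, ih, g.1, zero_lie, sub_zero, pw_succ]

/-- `al k F_(n+1) = - (n+3) s_k X^n`. -/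
theorem t2 {k : ℕ} (g : G3 q x y k) (n : ℕ) :
    ⁅al q x y k, pw x (n + 1) y⁆ = (-((n : ℤ) + 3)) • pw x n (ss q x y k) := by
  induction n with
  | zero =>
    rw [ad_succ, pw_zero, g.2.2, pw_zero]
    rw [show ⁅⁅al q x y k, x⁆, y⁆ = ss q x y k from rfl]
    push_cast
    module
  | succ n ih =>
    rw [ad_succ, ih, t1 g, zsmul_lie, ← pw_succ]
    push_cast
    module

/-- `al k Y X^(t+1) = -2 s_k X^t`. -/
theorem t3 {k : ℕ} (g : G3 q x y k) (t : ℕ) :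
    pw x (t + 1) ⁅al q x y k, y⁆ = (-2 : ℤ) • pw x t (ss q x y k) := by
  rw [pw_succ', g.2.2, pw_zsmul]

theorem comm_of_ra (h : Rel q x y) (m : L) (n : ℕ) (h1 : 1 ≤ n) (h2 : n ≤ q + 2) :
    ⁅⁅m, pw x n y⁆, y⁆ = ⁅⁅m, y⁆, pw x n y⁆ := by
  have e : ⁅m, ⁅pw x n y, y⁆⁆ = 0 := by rw [h.ra n h1 h2, lie_zero]
  rw [rl] at e
  exact sub_eq_zero.1 e

/-- `s_k X^i Y = 0` for `i < q`. -/
theorem c4a (h : Rel q x y) {k : ℕ} (g : G3 q x y k) (i : ℕ) (hi : i < q) :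
    ⁅pw x i (ss q x y k), y⁆ = 0 := by
  induction i using Nat.strong_induction_on with
  | _ i ih =>
    have e := comm_of_ra h (al q x y k) (i + 1) (by omega) (by omega)
    have h0 : ∀ t, t < i + 1 → ⁅⁅pw x t ⁅al q x y k, y⁆, y⁆, x⁆ = 0 := by
      intro t ht
      match t with
      | 0 => rw [pw_zero, g.2.1, zero_lie]
      | t + 1 => rw [t3 g, zsmul_lie, ih t (by omega) (by omega), smul_zero, zero_lie]
    have e2 := g0 h0 (i + 1) le_rfl 0 (i + 1) (by omega)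
    rw [pw_zero, t3 g, zsmul_lie, smul_smul] at e2
    rw [e2, t2 g, zsmul_lie, ← sub_eq_zero, ← sub_smul] at e
    rcases Nat.even_or_odd i with he | ho
    · refine h.cancel e ?_
      rw [pow_succ, he.neg_one_pow]
      intro hd
      have e5 : -((i : ℤ) + 3) - 1 * -1 * -2 = -((i + 5 : ℕ) : ℤ) := by push_cast; ring
      have : ((q + 5 : ℕ) : ℤ) ∣ ((i + 5 : ℕ) : ℤ) := by
        rw [e5, dvd_neg] at hd
        exact hd
      have := Nat.le_of_dvd (by omega) (Int.natCast_dvd_natCast.1 this)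
      omega
    · refine h.cancel e ?_
      rw [pow_succ, ho.neg_one_pow]
      intro hd
      have e5 : -((i : ℤ) + 3) - -1 * -1 * -2 = -((i + 1 : ℕ) : ℤ) := by push_cast; ring
      have : ((q + 5 : ℕ) : ℤ) ∣ ((i + 1 : ℕ) : ℤ) := by
        rw [e5, dvd_neg] at hd
        exact hd
      have := Nat.le_of_dvd (by omega) (Int.natCast_dvd_natCast.1 this)
      omega

/-- `3 Q = -6 P`. -/
theorem c4b (h : Rel q x y) {k : ℕ} (g : G3 q x y k) :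
    (3 : ℤ) • ⁅pw x (q + 1) (ss q x y k), y⁆ = (-6 : ℤ) • ⁅xi q x y k, x⁆ := by
  have e := comm_of_ra h (al q x y k) (q + 2) (by omega) (by omega)
  have h0 : ∀ t, t < q + 1 → ⁅⁅pw x t ⁅al q x y k, y⁆, y⁆, x⁆ = 0 := by
    intro t ht
    match t with
    | 0 => rw [pw_zero, g.2.1, zero_lie]
    | t + 1 => rw [t3 g, zsmul_lie, c4a h g t (by omega), smul_zero, zero_lie]
  have h1 : ∀ j n, j + n = q + 1 → ⁅⁅pw x j ⁅al q x y k, y⁆, pw x n y⁆, x⁆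
      = ((-1 : ℤ) ^ n) • ((-2 : ℤ) • ⁅xi q x y k, x⁆) := by
    intro j n hj
    rw [g0 h0 (q + 1) le_rfl j n hj, t3 g, zsmul_lie, zsmul_lie, zsmul_lie]
    rfl
  have e2 := gstep h1 (q + 2) 0 (by omega)
  rw [pw_zero, t3 g, zsmul_lie, pow_add, h.even.neg_one_pow] at e2
  rw [e2, t2 g, zsmul_lie] at e
  have e3 := h.chp ⁅pw x (q + 1) (ss q x y k), y⁆
  have e4 := h.chp ⁅xi q x y k, x⁆
  push_cast at e e3 e4
  linear_combination (norm := module) e3 + (2 : ℤ) • e4 + e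

theorem c5y (h : Rel q x y) {k : ℕ} (g : G3 q x y k) : ⁅xi q x y k, y⁆ = 0 := by
  have key : ∀ m : L, ⁅m, y⁆ = 0 → ⁅⁅⁅m, x⁆, y⁆, y⁆ = 0 := by
    intro m hm
    have e := comm_of_ra h m 1 le_rfl (by omega)
    rw [show pw x 1 y = ⁅y, x⁆ from rfl, rl, rl, hm] at e
    simp only [zero_lie, zero_sub, neg_lie, sub_self] at e
    exact neg_eq_zero.1 e
  match q, h, g with
  | 0, h, g =>
    have e := key ⁅al 0 x y k, y⁆ g.2.1
    rw [g.2.2, zsmul_lie, zsmul_lie] at e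
    refine h.cancel e ?_
    omega
  | q + 1, h, g =>
    exact key (pw x q (ss (q + 1) x y k)) (c4a h g q (by omega))

theorem g1succ (h : Rel q x y) {k : ℕ} (g : G3 q x y k) : ⁅⁅al q x y (k + 1), x⁆, x⁆ = 0 := by
  have e1 : pw x (q + 5) y = 0 := h.rb1
  have e2 := t2 g (q + 4)
  rw [e1, lie_zero] at e2
  have e3 : pw x (q + 4) (ss q x y k) = 0 := by
    refine h.cancel e2.symm ?_
    intro hd
    have e5 : -(((q + 4 : ℕ) : ℤ) + 3) = -(((q + 5 : ℕ) : ℤ) + 2) := by push_cast; ring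
    rw [e5, dvd_neg, dvd_add_right (dvd_refl _)] at hd
    have := Int.le_of_dvd (by norm_num) hd
    omega
  exact e3

/-- the facts `G5` follow from `G3` and `xi k X = 0`. -/
theorem g5_of (h : Rel q x y) {k : ℕ} (g : G3 q x y k) (hP : ⁅xi q x y k, x⁆ = 0) :
    G5 q x y k := by
  refine ⟨fun i hi hq => ?_, hP, c5y h g⟩
  rcases lt_or_ge i q with h1 | h1
  · exact c4a h g i h1
  · have h2 : i = q + 1 := by omega
    subst h2
    have e := c4b h g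
    rw [hP, smul_zero] at e
    refine h.cancel e ?_
    intro hd
    have := Int.le_of_dvd (by norm_num) hd
    omega

theorem wX {k : ℕ} (g' : G5 q x y k) (t : ℕ) (ht : t < q + 2) :
    ⁅⁅pw x t (ss q x y k), y⁆, x⁆ = 0 := by
  by_cases h1 : t = q
  · subst h1; exact g'.2.1
  · rw [g'.1 t (by omega) h1, zero_lie]

theorem sF {k : ℕ} (g' : G5 q x y k) (t : ℕ) (ht : t ≤ q + 2) (j n : ℕ) (hj : j + n = t) :
    ⁅pw x j (ss q x y k), pw x n y⁆ = ((-1 : ℤ) ^ n) • ⁅pw x t (ss q x y k), y⁆ :=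
  g0 (T := q + 2) (fun t ht => wX g' t ht) t ht j n hj

theorem aYX {k : ℕ} (g : G3 q x y k) (g' : G5 q x y k) (t : ℕ) (ht : t < q + 3) :
    ⁅⁅pw x t ⁅al q x y k, y⁆, y⁆, x⁆ = 0 := by
  match t with
  | 0 => rw [pw_zero, g.2.1, zero_lie]
  | t + 1 => rw [t3 g, zsmul_lie, zsmul_lie, wX g' t (by omega), smul_zero]

/-- `al k Y A = 2 al (k+1) Y`. -/
theorem aYA (h : Rel q x y) {k : ℕ} (g : G3 q x y k) (g' : G5 q x y k) :
    ⁅⁅al q x y k, y⁆, al q x y 0⁆ = (2 : ℤ) • ⁅al q x y (k + 1), y⁆ := by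
  have e := g0 (T := q + 3) (fun t ht => aYX g g' t ht) (q + 3) le_rfl 0 (q + 3) (by omega)
  rw [pw_zero, t3 g, zsmul_lie, pow_add, h.even.neg_one_pow] at e
  rw [al, e, al_succ]
  module

/-- `al k A = 0`. -/
theorem aA (h : Rel q x y) {k : ℕ} (g : G3 q x y k) : ⁅al q x y k, al q x y 0⁆ = 0 := by
  have e := t2 g (q + 2)
  have e2 : -(((q + 2 : ℕ) : ℤ) + 3) = -((q + 5 : ℕ) : ℤ) := by push_cast; ring
  rw [e2, neg_smul, h.chp, neg_zero] at e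
  exact e

/-- `al k X A = al (k+1) X`. -/
theorem aXA {k : ℕ} (g : G3 q x y k) :
    ⁅⁅al q x y k, x⁆, al q x y 0⁆ = ⁅al q x y (k + 1), x⁆ := t1 g (q + 3)

theorem g2succ (h : Rel q x y) {k : ℕ} (g : G3 q x y k) (g' : G5 q x y k) :
    ⁅⁅al q x y (k + 1), y⁆, y⁆ = 0 := by
  have e : ⁅al q x y k, ⁅⁅al q x y 0, y⁆, y⁆⁆ = 0 := by rw [h.rb2, lie_zero]
  rw [rl, rl, rl, aA h g, g.2.1, aYA h g g'] at e
  simp only [zero_lie, zsmul_lie, neg_lie, zero_sub, sub_zero] at e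
  refine h.cancel (c := -4) ?_ ?_
  · rw [← e]; module
  · intro hd
    rw [Int.dvd_neg] at hd
    have := Int.le_of_dvd (by norm_num) hd
    omega

/-- `s_k X^j F_n`, `j + n = q + 3`. -/
theorem sE {k : ℕ} (g' : G5 q x y k) (j n : ℕ) (hj : j + n = q + 3) :
    ⁅pw x j (ss q x y k), pw x n y⁆
      = ((-1 : ℤ) ^ n) • (ss q x y (k + 1) - (n : ℤ) • ⁅⁅al q x y (k + 1), y⁆, x⁆) := by
  have h1 : ∀ j n, j + n = q + 2 → ⁅⁅pw x j (ss q x y k), pw x n y⁆, x⁆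
      = ((-1 : ℤ) ^ n) • ⁅⁅al q x y (k + 1), y⁆, x⁆ := by
    intro j n hj
    rw [sF g' (q + 2) le_rfl j n hj, zsmul_lie]
    rfl
  exact gstep h1 n j hj

theorem sA (h : Rel q x y) {k : ℕ} (g' : G5 q x y k) : ⁅ss q x y k, al q x y 0⁆
    = - ss q x y (k + 1) - (2 : ℤ) • ⁅⁅al q x y (k + 1), y⁆, x⁆ := by
  have e := sE g' 0 (q + 3) (by omega)
  rw [pow_add, h.even.neg_one_pow, pw_zero] at e
  rw [al, e]
  have e3 := h.chp ⁅⁅al q x y (k + 1), y⁆, x⁆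
  push_cast at e3 ⊢
  linear_combination (norm := module) e3

theorem sA3 (h : Rel q x y) {k : ℕ} (g' : G5 q x y k) (g1 : G3 q x y (k + 1)) :
    ⁅ss q x y k, al q x y 0⁆ = (3 : ℤ) • ss q x y (k + 1) := by
  rw [sA h g', g1.2.2]
  module

theorem sG {k : ℕ} (g' : G5 q x y k) (g1 : G3 q x y (k + 1)) (n : ℕ) :
    ∀ j, j + n = q + 4 → ⁅pw x j (ss q x y k), pw x n y⁆
      = ((-1 : ℤ) ^ (n + 1) * (n : ℤ) ^ 2) • ⁅ss q x y (k + 1), x⁆ := by
  induction n with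
  | zero =>
    intro j hj
    have : j = q + 4 := by omega
    subst this
    have e : pw x (q + 4) (ss q x y k) = ⁅⁅al q x y (k + 1), x⁆, x⁆ := rfl
    rw [e, g1.1]
    simp
  | succ n ih =>
    intro j hj
    rw [ad_succ, sE g' j n (by omega), g1.2.2, ← pw_succ, ih (j + 1) (by omega)]
    simp only [zsmul_lie, sub_lie]
    push_cast
    rw [pow_succ (-1 : ℤ) (n + 1), pow_succ (-1 : ℤ) n]
    module

theorem sXA (h : Rel q x y) {k : ℕ} (g' : G5 q x y k) (g1 : G3 q x y (k + 1)) :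
    ⁅⁅ss q x y k, x⁆, al q x y 0⁆ = (4 : ℤ) • ⁅ss q x y (k + 1), x⁆ := by
  have e := sG g' g1 (q + 3) 1 (by omega)
  rw [pow_add, pow_add, h.even.neg_one_pow] at e
  have e2 : ⁅⁅ss q x y k, x⁆, al q x y 0⁆ = ⁅pw x 1 (ss q x y k), pw x (q + 3) y⁆ := rfl
  rw [e2, e]
  refine h.modp ?_ _
  refine ⟨(q : ℤ) + 1, ?_⟩
  push_cast
  ring

/-- `s_k X^i A = (i+3) s_(k+1) X^i`. -/
theorem sXiA (h : Rel q x y) {k : ℕ} (g' : G5 q x y k) (g1 : G3 q x y (k + 1)) (i : ℕ) :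
    ⁅pw x i (ss q x y k), al q x y 0⁆ = ((i : ℤ) + 3) • pw x i (ss q x y (k + 1)) ∧
    ⁅pw x (i + 1) (ss q x y k), al q x y 0⁆
      = (((i + 1 : ℕ) : ℤ) + 3) • pw x (i + 1) (ss q x y (k + 1)) := by
  have rr : ∀ m : L, ⁅⁅⁅m, x⁆, x⁆, al q x y 0⁆ = (2 : ℤ) • ⁅⁅⁅m, x⁆, al q x y 0⁆, x⁆
      - ⁅⁅⁅m, al q x y 0⁆, x⁆, x⁆ := by
    intro m
    have e : ⁅m, ⁅⁅al q x y 0, x⁆, x⁆⁆ = 0 := by rw [h.rb1, lie_zero]
    rw [rl, rl, rl] at e
    simp only [sub_lie] at e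
    linear_combination (norm := module) e
  induction i with
  | zero =>
    refine ⟨?_, ?_⟩
    · rw [pw_zero, sA3 h g' g1, pw_zero]
      push_cast
      module
    · rw [show pw x (0 + 1) (ss q x y k) = ⁅ss q x y k, x⁆ from rfl, sXA h g' g1,
        show pw x (0 + 1) (ss q x y (k + 1)) = ⁅ss q x y (k + 1), x⁆ from rfl]
      push_cast
      module
  | succ i ih =>
    refine ⟨ih.2, ?_⟩
    have e1 : pw x (i + 1 + 1) (ss q x y k) = ⁅⁅pw x i (ss q x y k), x⁆, x⁆ := rfl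
    rw [e1, rr, ← pw_succ, ih.2, ih.1]
    simp only [zsmul_lie, ← pw_succ]
    push_cast
    module

theorem Sop (q : ℕ) (x y m : L) : ⁅m, ss q x y 0⁆
    = ⁅⁅⁅m, al q x y 0⁆, x⁆, y⁆ - ⁅⁅⁅m, x⁆, al q x y 0⁆, y⁆
      - ⁅⁅⁅m, y⁆, al q x y 0⁆, x⁆ + ⁅⁅⁅m, y⁆, x⁆, al q x y 0⁆ := by
  rw [ss, rl, rl, rl]
  simp only [sub_lie]
  abel

theorem aXS (h : Rel q x y) {k : ℕ} (g : G3 q x y k) (g' : G5 q x y k) (g1 : G3 q x y (k + 1)) :
    ⁅⁅al q x y k, x⁆, ss q x y 0⁆ = ⁅ss q x y (k + 1), x⁆ := by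
  rw [Sop, aXA g, g1.1, g.1]
  rw [show ⁅⁅al q x y k, x⁆, y⁆ = ss q x y k from rfl, sA3 h g' g1, sXA h g' g1]
  simp only [zero_lie, zsmul_lie]
  module

theorem aXSn (h : Rel q x y) {k : ℕ} (g : G3 q x y k) (g' : G5 q x y k) (g1 : G3 q x y (k + 1))
    (n : ℕ) : ⁅⁅al q x y k, x⁆, pw x n (ss q x y 0)⁆ = pw x (n + 1) (ss q x y (k + 1)) := by
  induction n with
  | zero => exact aXS h g g' g1
  | succ n ih => rw [ad_succ, ih, g.1, zero_lie, sub_zero, ← pw_succ]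

/-- `s_k X^i S = - s_(k+1) X^(i+1) Y`, `i ≤ q + 1`. -/
theorem sS (h : Rel q x y) {k : ℕ} (g' : G5 q x y k) (g1 : G3 q x y (k + 1)) (i : ℕ)
    (hi : i ≤ q + 1) : ⁅pw x i (ss q x y k), ss q x y 0⁆
      = - ⁅pw x (i + 1) (ss q x y (k + 1)), y⁆ := by
  have hy : ⁅⁅pw x i (ss q x y k), y⁆, al q x y 0⁆ = 0 ∧
      ⁅⁅⁅pw x i (ss q x y k), y⁆, x⁆, al q x y 0⁆ = 0 := by
    by_cases h1 : i = q
    · subst h1
      have e : ⁅xi i x y k, al i x y 0⁆ = 0 := cen_pw g'.2.1 g'.2.2 _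
      refine ⟨e, ?_⟩
      rw [show ⁅⁅pw x i (ss i x y k), y⁆, x⁆ = ⁅xi i x y k, x⁆ from rfl, g'.2.1, zero_lie]
    · rw [g'.1 i hi h1]
      simp
  rw [Sop, hy.1, hy.2, (sXiA h g' g1 i).1, ← pw_succ, (sXiA h g' g1 i).2]
  simp only [zsmul_lie, zero_lie, ← pw_succ]
  push_cast
  module

/-- `xi (k+1) X = 0`. -/
theorem pSucc (h : Rel q x y) {k : ℕ} (g : G3 q x y k) (g' : G5 q x y k)
    (g1 : G3 q x y (k + 1)) : ⁅xi q x y (k + 1), x⁆ = 0 := by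
  have e0 : ⁅⁅al q x y k, x⁆, ⁅pw x q (ss q x y 0), y⁆⁆ = 0 := by
    rw [show ⁅pw x q (ss q x y 0), y⁆ = xi q x y 0 from rfl, h.rd, lie_zero]
  rw [rl, aXSn h g g' g1, show ⁅⁅al q x y k, x⁆, y⁆ = ss q x y k from rfl] at e0
  have e1 : ⁅ss q x y k, pw x q (ss q x y 0)⁆ = - ⁅pw x (q + 1) (ss q x y (k + 1)), y⁆
      + (q : ℤ) • ⁅xi q x y (k + 1), x⁆ := by
    match q, h, g, g', g1 with
    | 0, h, g, g', g1 =>
      have := sS h g' g1 0 (by omega)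
      rw [pw_zero] at this
      rw [pw_zero, this]
      simp
    | r + 1, h, g, g', g1 =>
      have f0 : ∀ t, t < r → ⁅⁅pw x t (ss (r + 1) x y k), ss (r + 1) x y 0⁆, x⁆ = 0 := by
        intro t ht
        rw [sS h g' g1 t (by omega), c4a h g1 (t + 1) (by omega)]
        simp
      have f1 : ∀ j n, j + n = r → ⁅⁅pw x j (ss (r + 1) x y k), pw x n (ss (r + 1) x y 0)⁆, x⁆
          = ((-1 : ℤ) ^ n) • (- ⁅xi (r + 1) x y (k + 1), x⁆) := by
        intro j n hj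
        rw [g0 f0 r le_rfl j n hj, sS h g' g1 r (by omega), zsmul_lie, neg_lie]
        rfl
      have f2 := gstep f1 (r + 1) 0 (by omega)
      rw [pw_zero, sS h g' g1 (r + 1) (by omega), h.even.neg_one_pow] at f2
      rw [f2]
      module
  rw [e1] at e0
  have e2 := c4b h g1
  have e3 := h.chp ⁅xi q x y (k + 1), x⁆
  push_cast at e3
  refine h.cancel (c := 3) ?_ ?_
  · linear_combination (norm := module) (3 : ℤ) • e0 - (2 : ℤ) • e2 + (3 : ℤ) • e3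
  · intro hd
    have := Int.le_of_dvd (by norm_num) hd
    omega

theorem aYS (h : Rel q x y) {k : ℕ} (g : G3 q x y k) (g' : G5 q x y k) (g1 : G3 q x y (k + 1)) :
    ⁅⁅al q x y k, y⁆, ss q x y 0⁆ = (2 : ℤ) • ⁅ss q x y (k + 1), y⁆ := by
  rw [Sop, aYA h g g', g.2.1, g.2.2]
  simp only [zero_lie, zsmul_lie, g1.2.2, sA3 h g' g1]
  module

/-- `al k S`. -/
theorem aS (h : Rel q x y) {k : ℕ} (g : G3 q x y k) (g' : G5 q x y k) :
    ⁅al q x y k, ss q x y 0⁆ = ss q x y (k + 1) + (2 : ℤ) • ⁅⁅al q x y (k + 1), y⁆, x⁆ := by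
  rw [Sop, aA h g, aXA g, aYA h g g', g.2.2]
  simp only [zero_lie, zsmul_lie, sA h g']
  rw [show ⁅⁅al q x y (k + 1), x⁆, y⁆ = ss q x y (k + 1) from rfl]
  module

theorem aSn (h : Rel q x y) {k : ℕ} (g : G3 q x y k) (g' : G5 q x y k) (g1 : G3 q x y (k + 1))
    (n : ℕ) : ⁅al q x y k, pw x n (ss q x y 0)⁆
      = (-((n : ℤ) + 3)) • pw x n (ss q x y (k + 1)) := by
  induction n with
  | zero =>
    rw [pw_zero, aS h g g', g1.2.2, pw_zero]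
    push_cast
    module
  | succ n ih =>
    rw [ad_succ, ih, aXSn h g g' g1, zsmul_lie, ← pw_succ]
    push_cast
    module

/-- `al (k+2) Y X = -2 al (k+2) X Y`. -/
theorem g3succ (h : Rel q x y) {k : ℕ} (g : G3 q x y k) (g' : G5 q x y k)
    (g1 : G3 q x y (k + 1)) (g1' : G5 q x y (k + 1)) :
    ⁅⁅al q x y (k + 2), y⁆, x⁆ = (-2 : ℤ) • ss q x y (k + 2) := by
  -- the operator of `al 1`
  have hA : ⁅al q x y k, al q x y 1⁆ = 0 := by
    have e := aSn h g g' g1 (q + 2)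
    have e2 : -(((q + 2 : ℕ) : ℤ) + 3) = -((q + 5 : ℕ) : ℤ) := by push_cast; ring
    rw [e2, neg_smul, h.chp, neg_zero] at e
    exact e
  have hX : ⁅⁅al q x y k, x⁆, al q x y 1⁆ = ⁅al q x y (k + 2), x⁆ := aXSn h g g' g1 (q + 2)
  have hY : ⁅⁅al q x y k, y⁆, al q x y 1⁆ = (2 : ℤ) • ⁅al q x y (k + 2), y⁆ := by
    have v0 : ∀ t, t ≤ q + 2 → ⁅pw x t ⁅al q x y k, y⁆, ss q x y 0⁆
        = (2 : ℤ) • ⁅pw x t (ss q x y (k + 1)), y⁆ := by
      intro t ht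
      match t with
      | 0 => exact aYS h g g' g1
      | t + 1 =>
        rw [t3 g, zsmul_lie, sS h g' g1 t (by omega)]
        module
    have v1 : ∀ t, t < q + 2 → ⁅⁅pw x t ⁅al q x y k, y⁆, ss q x y 0⁆, x⁆ = 0 := by
      intro t ht
      rw [v0 t (by omega), zsmul_lie, wX g1' t ht, smul_zero]
    have e := g0 v1 (q + 2) le_rfl 0 (q + 2) (by omega)
    rw [pw_zero, v0 (q + 2) le_rfl, pow_add, h.even.neg_one_pow] at e
    rw [al_succ, e, al_succ q x y (k + 1)]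
    module
  have hS : ⁅ss q x y k, al q x y 1⁆ = ss q x y (k + 2) - ⁅⁅al q x y (k + 2), y⁆, x⁆ := by
    have v1 : ∀ t, t < q + 1 → ⁅⁅pw x t (ss q x y k), ss q x y 0⁆, x⁆ = 0 := by
      intro t ht
      rw [sS h g' g1 t (by omega), neg_lie, wX g1' (t + 1) (by omega), neg_zero]
    have v2 : ∀ j n, j + n = q + 1 → ⁅⁅pw x j (ss q x y k), pw x n (ss q x y 0)⁆, x⁆
        = ((-1 : ℤ) ^ n) • (- ⁅⁅al q x y (k + 2), y⁆, x⁆) := by
      intro j n hj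
      rw [g0 v1 (q + 1) le_rfl j n hj, sS h g' g1 (q + 1) le_rfl, zsmul_lie, neg_lie]
      rfl
    have e := gstep v2 (q + 2) 0 (by omega)
    rw [pw_zero, show pw x (q + 1 + 1) (ss q x y k) = al q x y (k + 1) from rfl,
      aS h g1 g1', pow_add, h.even.neg_one_pow] at e
    rw [al_succ q x y 0, e]
    have e3 := h.chp ⁅⁅al q x y (k + 2), y⁆, x⁆
    push_cast at e3 ⊢
    linear_combination (norm := module) e3
  have e1 : ⁅al q x y k, ⁅⁅al q x y 1, y⁆, x⁆⁆ = (-2 : ℤ) • ⁅al q x y k, ⁅⁅al q x y 1, x⁆, y⁆⁆ := by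
    rw [h.re, lie_zsmul]
    rfl
  rw [rl, rl, rl, rl, rl, rl, hA, hX, hY, g.2.2] at e1
  rw [show ⁅⁅al q x y k, x⁆, y⁆ = ss q x y k from rfl] at e1
  simp only [zero_lie, zsmul_lie, sub_lie, hS] at e1
  rw [show ⁅⁅al q x y (k + 2), x⁆, y⁆ = ss q x y (k + 2) from rfl] at e1
  have e2 : (3 : ℤ) • (⁅⁅al q x y (k + 2), y⁆, x⁆ - (-2 : ℤ) • ss q x y (k + 2)) = 0 := by
    linear_combination (norm := module) - e1
  refine sub_eq_zero.1 (h.cancel e2 ?_)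
  intro hd
  have := Int.le_of_dvd (by norm_num) hd
  omega

/-- all facts in all degrees. -/
theorem all (h : Rel q x y) (k : ℕ) : (G3 q x y k ∧ G5 q x y k) ∧
    (G3 q x y (k + 1) ∧ G5 q x y (k + 1)) := by
  induction k with
  | zero =>
    have g : G3 q x y 0 := ⟨h.rb1, h.rb2, h.rc⟩
    have g' : G5 q x y 0 := g5_of h g (by rw [h.rd, zero_lie])
    have g1 : G3 q x y 1 := ⟨g1succ h g, g2succ h g g', h.re⟩
    exact ⟨⟨g, g'⟩, g1, g5_of h g1 (pSucc h g g' g1)⟩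
  | succ k ih =>
    obtain ⟨⟨g, g'⟩, g1, g1'⟩ := ih
    have g2 : G3 q x y (k + 2) := ⟨g1succ h g1, g2succ h g1 g1', g3succ h g g' g1 g1'⟩
    exact ⟨⟨g1, g1'⟩, g2, g5_of h g2 (pSucc h g1 g1' g2)⟩

end Pool.Agent.Lib.NOT62.P
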