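import Mathlib
import Pool.Agent.Lib.NOT62.LieP
import Pool.Agent.Lib.NOT62.Core

/-!
Orders of the lower central factors from relations in degrees at most `2 p`, `p = q + 5`.
-/

namespace Pool.Agent.Lib.NOT62.P

open scoped commutatorElement
open Pool.Agent.Lib.NOT62

section counting

variable {M : Type*} [AddCommGroup M] {p : ℕ}

theorem cancelP (hp : p.Prime) (hM : ∀ m : M, (p : ℤ) • m = 0) {c : ℤ} {m : M} (hm : c • m = 0)
    (hc : ¬ (p : ℤ) ∣ c) : m = 0 := by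
  have hp : Prime (p : ℤ) := Nat.prime_iff_prime_int.1 hp
  have hco : IsCoprime (p : ℤ) c := (hp.irreducible.coprime_iff_not_dvd).2 hc
  obtain ⟨u, v, huv⟩ := hco
  have : m = (u * (p : ℤ) + v * c) • m := by rw [huv, one_smul]
  rw [this, add_smul, mul_smul, mul_smul, hM, hm]
  simp

theorem card_sq (hp : p.Prime) (hM : ∀ m : M, (p : ℤ) • m = 0) (u v : M)
    (hs : ∀ m : M, ∃ a b : ℤ, m = a • u + b • v)
    (hi : ∀ a b : ℤ, a • u + b • v = 0 → (p : ℤ) ∣ a ∧ (p : ℤ) ∣ b) : Nat.card M = p ^ 2 := by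
  have hM' : ∀ m : M, p • m = 0 := fun m => by
    have := hM m; rw [← natCast_zsmul]; exact this
  let _ : Module (ZMod p) M := AddCommGroup.zmodModule hM'
  have : Fact p.Prime := ⟨hp⟩
  let f : ZMod p × ZMod p → M := fun a => a.1 • u + a.2 • v
  have hf : Function.Bijective f := by
    constructor
    · rintro ⟨a, b⟩ ⟨a', b'⟩ h
      obtain ⟨c, hc⟩ := ZMod.intCast_surjective (a - a')
      obtain ⟨d, hd⟩ := ZMod.intCast_surjective (b - b')
      have h1 : c • u + d • v = 0 := by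
        rw [← Int.cast_smul_eq_zsmul (ZMod p) c u, ← Int.cast_smul_eq_zsmul (ZMod p) d v, hc, hd,
          sub_smul, sub_smul]
        have h2 : a • u + b • v = a' • u + b' • v := h
        rw [← sub_eq_zero.2 h2]
        abel
      obtain ⟨d1, d2⟩ := hi _ _ h1
      rw [← ZMod.intCast_zmod_eq_zero_iff_dvd] at d1 d2
      rw [hc] at d1
      rw [hd] at d2
      rw [sub_eq_zero.1 d1, sub_eq_zero.1 d2]
    · intro m
      obtain ⟨a, b, rfl⟩ := hs m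
      refine ⟨((a : ZMod p), (b : ZMod p)), ?_⟩
      change (a : ZMod p) • u + (b : ZMod p) • v = _
      rw [Int.cast_smul_eq_zsmul, Int.cast_smul_eq_zsmul]
  rw [← Nat.card_congr (Equiv.ofBijective f hf), Nat.card_prod, Nat.card_zmod, sq]

theorem card_pr (hp : p.Prime) (hM : ∀ m : M, (p : ℤ) • m = 0) (u : M)
    (hs : ∀ m : M, ∃ a : ℤ, m = a • u) (hi : u ≠ 0) : Nat.card M = p := by
  have hM' : ∀ m : M, p • m = 0 := fun m => by
    have := hM m; rw [← natCast_zsmul]; exact this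
  let _ : Module (ZMod p) M := AddCommGroup.zmodModule hM'
  have : Fact p.Prime := ⟨hp⟩
  let f : ZMod p → M := fun a => a • u
  have hf : Function.Bijective f := by
    constructor
    · intro a a' h
      have h2 : a • u = a' • u := h
      obtain ⟨c, hc⟩ := ZMod.intCast_surjective (a - a')
      have h3 : c • u = 0 := by
        rw [← Int.cast_smul_eq_zsmul (ZMod p) c u, hc, sub_smul, h2, sub_self]
      have h4 : (p : ℤ) ∣ c := by
        by_contra h4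
        exact hi (cancelP hp hM h3 h4)
      rw [← ZMod.intCast_zmod_eq_zero_iff_dvd, hc] at h4
      exact sub_eq_zero.1 h4
    · intro m
      obtain ⟨a, rfl⟩ := hs m
      refine ⟨(a : ZMod p), ?_⟩
      change (a : ZMod p) • u = _
      rw [Int.cast_smul_eq_zsmul]
  rw [← Nat.card_congr (Equiv.ofBijective f hf), Nat.card_zmod]

theorem card_or (hp : p.Prime) (hM : ∀ m : M, (p : ℤ) • m = 0) (u v : M)
    (hs : ∀ m : M, ∃ a b : ℤ, m = a • u + b • v) (hu : u ≠ 0) :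
    Nat.card M = p ∨ Nat.card M = p ^ 2 := by
  by_cases hv : ∃ c : ℤ, v = c • u
  · obtain ⟨c, rfl⟩ := hv
    left
    refine card_pr hp hM u (fun m => ?_) hu
    obtain ⟨a, b, e⟩ := hs m
    exact ⟨a + b * c, by rw [e, add_smul, mul_smul]⟩
  · right
    refine card_sq hp hM u v hs (fun a b h => ?_)
    have hb : (p : ℤ) ∣ b := by
      by_contra hb
      have hpp : Prime (p : ℤ) := Nat.prime_iff_prime_int.1 hp
      have hco : IsCoprime (p : ℤ) b := (hpp.irreducible.coprime_iff_not_dvd).2 hb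
      obtain ⟨s, t, hst⟩ := hco
      apply hv
      refine ⟨-(t * a), ?_⟩
      have e1 : v = (s * (p : ℤ) + t * b) • v := by rw [hst, one_smul]
      have e2 : b • v = - (a • u) := by rw [← sub_eq_zero, ← h]; abel
      rw [e1, add_smul, mul_smul, mul_smul, hM, e2]
      simp [mul_smul]
    refine ⟨?_, hb⟩
    by_contra ha
    obtain ⟨c, rfl⟩ := hb
    rw [mul_comm, mul_smul, hM, smul_zero, add_zero] at h
    exact hu (cancelP hp hM h ha)

theorem iso_aux {K M N : Type*} [Field K] [AddCommGroup M] [AddCommGroup N] [Module K M]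
    [Module K N] [Finite M] [Finite N] (hK : 2 ≤ Nat.card K) (h : Nat.card M = Nat.card N) :
    Nonempty (M ≃+ N) := by
  have e1 := Module.natCard_eq_pow_finrank (K := K) (V := M)
  have e2 := Module.natCard_eq_pow_finrank (K := K) (V := N)
  have e3 : Module.finrank K M = Module.finrank K N := by
    rw [e1, e2] at h
    exact Nat.pow_right_injective hK h
  exact ⟨(LinearEquiv.ofFinrankEq M N e3).toAddEquiv⟩

theorem iso_of_cardP {M N : Type*} [AddCommGroup M] [AddCommGroup N] (hp : p.Prime)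
    (hM : ∀ m : M, (p : ℤ) • m = 0) (hN : ∀ m : N, (p : ℤ) • m = 0) (h0 : Nat.card M ≠ 0)
    (h : Nat.card M = Nat.card N) : Nonempty (M ≃+ N) := by
  have hM' : ∀ m : M, p • m = 0 := fun m => by
    have := hM m; rw [← natCast_zsmul]; exact this
  have hN' : ∀ m : N, p • m = 0 := fun m => by
    have := hN m; rw [← natCast_zsmul]; exact this
  have : Fact p.Prime := ⟨hp⟩
  have : Finite M := Nat.finite_of_card_ne_zero h0
  have : Finite N := Nat.finite_of_card_ne_zero (h ▸ h0)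
  exact @iso_aux (ZMod p) M N _ _ _ (AddCommGroup.zmodModule hM') (AddCommGroup.zmodModule hN') _ _
    (by rw [Nat.card_zmod]; exact hp.two_le) h

end counting

section words

variable {G : Type*} [Group G]

/-- group words: `[m, x, ..., x]`. -/
def pwg (x : G) : ℕ → G → G
  | 0, m => m
  | n + 1, m => ⁅pwg x n m, x⁆

variable (q : ℕ) (x y : G)

def alg : ℕ → G
  | 0 => pwg x (q + 3) y
  | k + 1 => pwg x (q + 2) ⁅⁅alg k, x⁆, y⁆

def ssg (k : ℕ) : G := ⁅⁅alg q x y k, x⁆, y⁆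

def xig (k : ℕ) : G := ⁅pwg x q (ssg q x y k), y⁆

end words

variable {G : Type*} [Group G] (S : NSer G)

theorem pwg_mem {x m : G} {i : ℕ} (hm : m ∈ S.g i) (n : ℕ) : pwg x n m ∈ S.g (i + n) := by
  induction n with
  | zero => exact hm
  | succ n ih => exact S.com_mem2 ih x

/-- The hypotheses for `p = q + 5`. -/
structure GenP (q : ℕ) (x y : G) : Prop where
  pr : (q + 5).Prime
  span : ∀ a : G, ∃ p q : ℤ, ∃ c ∈ S.g 2, a = x ^ p * y ^ q * c
  cx : x ^ (q + 5) ∈ S.g 2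
  cy : y ^ (q + 5) ∈ S.g 2
  gen : ∀ i, 1 ≤ i → ∀ a ∈ S.g (i + 1), ∃ b ∈ S.g i, ∃ c ∈ S.g i, ∃ d ∈ S.g (i + 2),
    a = ⁅b, x⁆ * ⁅c, y⁆ * d
  ra : ∀ n, 1 ≤ n → n ≤ q + 2 → ⁅pwg x n y, y⁆ ∈ S.g (n + 3)
  rb1 : ⁅⁅alg q x y 0, x⁆, x⁆ ∈ S.g (q + 7)
  rb2 : ⁅⁅alg q x y 0, y⁆, y⁆ ∈ S.g (q + 7)
  rc : ⁅⁅alg q x y 0, y⁆, x⁆ * (ssg q x y 0) ^ 2 ∈ S.g (q + 7)
  rd : xig q x y 0 ∈ S.g (2 * q + 8)
  re : ⁅⁅alg q x y 1, y⁆, x⁆ * (ssg q x y 1) ^ 2 ∈ S.g (2 * q + 11)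
  inf : ∀ i, 1 ≤ i → ¬ S.g i ≤ S.g (i + 1)

variable {S} {q : ℕ} {x y : G}

theorem hom_one_spanP (h : GenP S q x y) (a : G) (ha : a ∈ S.g 1) : ∃ b c : ℤ,
    S.hom 1 a ha = b • S.hom 1 x (S.mem1 x) + c • S.hom 1 y (S.mem1 y) := by
  obtain ⟨b, c, d, hc, e⟩ := h.span a
  refine ⟨b, c, ?_⟩
  rw [S.hom_congr rfl e ha (mul_mem (mul_mem (zpow_mem (S.mem1 x) b) (zpow_mem (S.mem1 y) c))
    (S.mem1 d)), S.hom_add (mul_mem (zpow_mem (S.mem1 x) b) (zpow_mem (S.mem1 y) c)) (S.mem1 d),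
    S.hom_add (zpow_mem (S.mem1 x) b) (zpow_mem (S.mem1 y) c), S.hom_zpow, S.hom_zpow,
    (S.hom_zero_iff (S.mem1 d)).2 hc, add_zero]

theorem hom_succ_spanP (h : GenP S q x y) (i : ℕ) (hi : 1 ≤ i) (a : G) (ha : a ∈ S.g (i + 1)) :
    ∃ b, ∃ hb : b ∈ S.g i, ∃ c, ∃ hc : c ∈ S.g i, S.hom (i + 1) a ha
      = ⁅S.hom i b hb, S.hom 1 x (S.mem1 x)⁆ + ⁅S.hom i c hc, S.hom 1 y (S.mem1 y)⁆ := by
  obtain ⟨b, hb, c, hc, d, hd, e⟩ := h.gen i hi a ha
  refine ⟨b, hb, c, hc, ?_⟩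
  have m1 : ⁅b, x⁆ ∈ S.g (i + 1) := S.com_mem hb (S.mem1 x)
  have m2 : ⁅c, y⁆ ∈ S.g (i + 1) := S.com_mem hc (S.mem1 y)
  have m3 : d ∈ S.g (i + 1) := S.anti _ hd
  rw [S.hom_congr rfl e ha (mul_mem (mul_mem m1 m2) m3), S.hom_add (mul_mem m1 m2) m3,
    S.hom_add m1 m2, (S.hom_zero_iff m3).2 hd, add_zero, S.lie_hom, S.lie_hom]

theorem smulP (h : GenP S q x y) (u : S.L) : ((q + 5 : ℕ) : ℤ) • u = 0 := by
  induction u using S.L_ind with
  | h0 => simp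
  | h2 u v hu hv => rw [smul_add, hu, hv, add_zero]
  | h1 i a ha =>
    have h1 : ∀ (a : G) (ha : a ∈ S.g 1), ((q + 5 : ℕ) : ℤ) • S.hom 1 a ha = 0 := by
      intro a ha
      obtain ⟨b, c, e⟩ := hom_one_spanP h a ha
      have ex : ((q + 5 : ℕ) : ℤ) • S.hom 1 x (S.mem1 x) = 0 := by
        rw [← S.hom_zpow, S.hom_zero_iff, zpow_natCast]
        exact h.cx
      have ey : ((q + 5 : ℕ) : ℤ) • S.hom 1 y (S.mem1 y) = 0 := by
        rw [← S.hom_zpow, S.hom_zero_iff, zpow_natCast]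
        exact h.cy
      rw [e, smul_add, smul_comm, ex, smul_comm, ey]
      simp
    have hn : ∀ n : ℕ, ∀ (a : G) (ha : a ∈ S.g (n + 1)),
        ((q + 5 : ℕ) : ℤ) • S.hom (n + 1) a ha = 0 := by
      intro n
      induction n with
      | zero => exact h1
      | succ n ih =>
        intro a ha
        obtain ⟨b, hb, c, hc, e⟩ := hom_succ_spanP h (n + 1) (by omega) a ha
        rw [e, smul_add, ← zsmul_lie, ← zsmul_lie, ih, ih]
        simp
    match i with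
    | 0 =>
      have : S.hom 0 a ha = 0 := (S.hom_zero_iff ha).2 (S.mem1 a)
      rw [this, smul_zero]
    | n + 1 => exact hn n a ha

theorem smulAP (h : GenP S q x y) (i : ℕ) (u : S.A i) : ((q + 5 : ℕ) : ℤ) • u = 0 := by
  obtain ⟨a, ha, rfl⟩ := S.cl_surj u
  have := smulP h (S.hom i a ha)
  rw [NSer.hom, ← map_zsmul] at this
  exact DirectSum.of_injective (β := fun i => S.A i) i (by rw [this, map_zero])

/-- the group element `a` represents the homogeneous element `u` of degree `i`. -/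
def Rp (S : NSer G) (i : ℕ) (a : G) (u : S.L) : Prop := ∃ ha : a ∈ S.g i, u = S.hom i a ha

theorem Rp.cast {i j : ℕ} {a : G} {u : S.L} (h : Rp S i a u) (e : i = j) : Rp S j a u := by
  subst e; exact h

theorem Rp.lie {i j : ℕ} {a b : G} {u v : S.L} (hu : Rp S i a u) (hv : Rp S j b v) :
    Rp S (i + j) ⁅a, b⁆ ⁅u, v⁆ := by
  obtain ⟨ha, rfl⟩ := hu
  obtain ⟨hb, rfl⟩ := hv
  exact ⟨S.com_mem ha hb, S.lie_hom ha hb⟩

theorem Rp.mul {i : ℕ} {a b : G} {u v : S.L} (hu : Rp S i a u) (hv : Rp S i b v) :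
    Rp S i (a * b) (u + v) := by
  obtain ⟨ha, rfl⟩ := hu
  obtain ⟨hb, rfl⟩ := hv
  exact ⟨mul_mem ha hb, (S.hom_add ha hb).symm⟩

theorem Rp.zero_iff {i : ℕ} {a : G} {u : S.L} (hu : Rp S i a u) : u = 0 ↔ a ∈ S.g (i + 1) := by
  obtain ⟨ha, rfl⟩ := hu
  exact S.hom_zero_iff ha

theorem Rp.one {a : G} : Rp S 1 a (S.gx a) := ⟨S.mem1 a, rfl⟩

theorem rp_pw {i : ℕ} {m : G} {u : S.L} (x : G) (h : Rp S i m u) (n : ℕ) :
    Rp S (i + n) (pwg x n m) (pw (S.gx x) n u) := by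
  induction n with
  | zero => exact h
  | succ n ih => exact ih.lie Rp.one

theorem rp_al (S : NSer G) (q : ℕ) (x y : G) (k : ℕ) :
    Rp S ((k + 1) * (q + 4)) (alg q x y k) (al q (S.gx x) (S.gx y) k) := by
  induction k with
  | zero => exact (rp_pw x (Rp.one (a := y)) (q + 3)).cast (by ring)
  | succ k ih =>
    exact (rp_pw x ((ih.lie (Rp.one (a := x))).lie (Rp.one (a := y))) (q + 2)).cast (by ring)

theorem rp_ss (S : NSer G) (q : ℕ) (x y : G) (k : ℕ) :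
    Rp S ((k + 1) * (q + 4) + 2) (ssg q x y k) (ss q (S.gx x) (S.gx y) k) :=
  ((rp_al S q x y k).lie Rp.one).lie Rp.one

theorem rp_xi (S : NSer G) (q : ℕ) (x y : G) (k : ℕ) :
    Rp S ((k + 1) * (q + 4) + q + 3) (xig q x y k) (xi q (S.gx x) (S.gx y) k) :=
  ((rp_pw x (rp_ss S q x y k) q).lie Rp.one).cast (by ring)

theorem relP (h : GenP S q x y) : Rel q (S.gx x) (S.gx y) := by
  refine ⟨h.pr, smulP h, fun n h1 h2 => ?_, ?_, ?_, ?_, ?_, ?_⟩
  · exact ((rp_pw x (Rp.one (a := y)) n).lie (Rp.one (a := y))).zero_iff.2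
      (by rw [show 1 + n + 1 + 1 = n + 3 by ring]; exact h.ra n h1 h2)
  · exact (((rp_al S q x y 0).lie (Rp.one (a := x))).lie (Rp.one (a := x))).zero_iff.2
      (by rw [show (0 + 1) * (q + 4) + 1 + 1 + 1 = q + 7 by ring]; exact h.rb1)
  · exact (((rp_al S q x y 0).lie (Rp.one (a := y))).lie (Rp.one (a := y))).zero_iff.2
      (by rw [show (0 + 1) * (q + 4) + 1 + 1 + 1 = q + 7 by ring]; exact h.rb2)
  · have e := ((((rp_al S q x y 0).lie (Rp.one (a := y))).lie (Rp.one (a := x))).mul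
      ((rp_ss S q x y 0).mul (rp_ss S q x y 0))).zero_iff.2
      (by rw [show (0 + 1) * (q + 4) + 1 + 1 + 1 = q + 7 by ring, ← sq]; exact h.rc)
    linear_combination (norm := module) e
  · exact (rp_xi S q x y 0).zero_iff.2
      (by rw [show (0 + 1) * (q + 4) + q + 3 + 1 = 2 * q + 8 by ring]; exact h.rd)
  · have e := ((((rp_al S q x y 1).lie (Rp.one (a := y))).lie (Rp.one (a := x))).mul
      ((rp_ss S q x y 1).mul (rp_ss S q x y 1))).zero_iff.2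
      (by rw [show (1 + 1) * (q + 4) + 1 + 1 + 1 = 2 * q + 11 by ring, ← sq]; exact h.re)
    linear_combination (norm := module) e

/-- `u` is a homogeneous element of degree `i`. -/
def Hd (S : NSer G) (i : ℕ) (u : S.L) : Prop := ∃ a, Rp S i a u

/-- the degree `i` part is spanned by `u` and `v`. -/
def Sp (S : NSer G) (i : ℕ) (u v : S.L) : Prop :=
  ∀ (a : G) (ha : a ∈ S.g i), ∃ b c : ℤ, S.hom i a ha = b • u + c • v

theorem sp_succ (h : GenP S q x y) {i : ℕ} (hi : 1 ≤ i) {u v u' v' : S.L} (hs : Sp S i u v)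
    (e1 : ∃ b c : ℤ, ⁅u, S.gx x⁆ = b • u' + c • v') (e2 : ∃ b c : ℤ, ⁅u, S.gx y⁆ = b • u' + c • v')
    (e3 : ∃ b c : ℤ, ⁅v, S.gx x⁆ = b • u' + c • v') (e4 : ∃ b c : ℤ, ⁅v, S.gx y⁆ = b • u' + c • v') :
    Sp S (i + 1) u' v' := by
  intro a ha
  obtain ⟨b, hb, c, hc, e⟩ := hom_succ_spanP h i hi a ha
  obtain ⟨b1, b2, eb⟩ := hs b hb
  obtain ⟨c1, c2, ec⟩ := hs c hc
  obtain ⟨d1, f1, e1⟩ := e1
  obtain ⟨d2, f2, e2⟩ := e2
  obtain ⟨d3, f3, e3⟩ := e3
  obtain ⟨d4, f4, e4⟩ := e4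
  refine ⟨b1 * d1 + b2 * d3 + c1 * d2 + c2 * d4, b1 * f1 + b2 * f3 + c1 * f2 + c2 * f4, ?_⟩
  rw [e, eb, ec]
  simp only [add_lie, zsmul_lie]
  rw [show ⁅u, S.hom 1 x (S.mem1 x)⁆ = ⁅u, S.gx x⁆ from rfl,
    show ⁅v, S.hom 1 x (S.mem1 x)⁆ = ⁅v, S.gx x⁆ from rfl,
    show ⁅u, S.hom 1 y (S.mem1 y)⁆ = ⁅u, S.gx y⁆ from rfl,
    show ⁅v, S.hom 1 y (S.mem1 y)⁆ = ⁅v, S.gx y⁆ from rfl, e1, e2, e3, e4]
  module

theorem not_all_zero (h : GenP S q x y) {i : ℕ} (hi : 1 ≤ i) {u v : S.L} (hs : Sp S i u v)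
    (hu : u = 0) (hv : v = 0) : False := by
  refine h.inf i hi (fun a ha => ?_)
  obtain ⟨b, c, e⟩ := hs a ha
  rw [hu, hv, smul_zero, smul_zero, add_zero, S.hom_zero_iff] at e
  exact e

theorem cardP_sq (h : GenP S q x y) {i : ℕ} {u v : S.L} (hu : Hd S i u) (hv : Hd S i v)
    (hs : Sp S i u v) (hi : ∀ a b : ℤ, a • u + b • v = 0 →
      ((q + 5 : ℕ) : ℤ) ∣ a ∧ ((q + 5 : ℕ) : ℤ) ∣ b) : Nat.card (S.A i) = (q + 5) ^ 2 := by
  obtain ⟨a, ha, rfl⟩ := hu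
  obtain ⟨b, hb, rfl⟩ := hv
  refine card_sq h.pr (smulAP h i) (S.cl i a ha) (S.cl i b hb) ?_ ?_
  · intro m
    obtain ⟨c, hc, rfl⟩ := S.cl_surj m
    obtain ⟨s, t, e⟩ := hs c hc
    refine ⟨s, t, DirectSum.of_injective (β := fun i => S.A i) i ?_⟩
    rw [map_add, map_zsmul, map_zsmul]
    exact e
  · intro s t e
    refine hi s t ?_
    have e1 := congrArg (DirectSum.of (fun i => S.A i) i) e
    rw [map_add, map_zsmul, map_zsmul, map_zero] at e1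
    exact e1

theorem cardP_pr (h : GenP S q x y) {i : ℕ} {u : S.L} (hu : Hd S i u)
    (hs : Sp S i u 0) (hi : u ≠ 0) : Nat.card (S.A i) = q + 5 := by
  obtain ⟨a, ha, rfl⟩ := hu
  refine card_pr h.pr (smulAP h i) (S.cl i a ha) ?_ ?_
  · intro m
    obtain ⟨c, hc, rfl⟩ := S.cl_surj m
    obtain ⟨s, t, e⟩ := hs c hc
    refine ⟨s, DirectSum.of_injective (β := fun i => S.A i) i ?_⟩
    rw [smul_zero, add_zero] at e
    rw [map_zsmul]
    exact e
  · intro e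
    refine hi ?_
    rw [NSer.hom, e, map_zero]

theorem cardP_or (h : GenP S q x y) {i : ℕ} {u v : S.L} (hu : Hd S i u) (hv : Hd S i v)
    (hs : Sp S i u v) (hi : u ≠ 0) : Nat.card (S.A i) = q + 5 ∨ Nat.card (S.A i) = (q + 5) ^ 2 := by
  obtain ⟨a, ha, rfl⟩ := hu
  obtain ⟨b, hb, rfl⟩ := hv
  refine card_or h.pr (smulAP h i) (S.cl i a ha) (S.cl i b hb) ?_ ?_
  · intro m
    obtain ⟨c, hc, rfl⟩ := S.cl_surj m
    obtain ⟨s, t, e⟩ := hs c hc
    refine ⟨s, t, DirectSum.of_injective (β := fun i => S.A i) i ?_⟩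
    rw [map_add, map_zsmul, map_zsmul]
    exact e
  · intro e
    refine hi ?_
    rw [NSer.hom, e, map_zero]

theorem Sp.cast {i j : ℕ} {u v : S.L} (h : Sp S i u v) (e : i = j) : Sp S j u v := by
  subst e; exact h

/-- one generator to one generator. -/
theorem sp_one (h : GenP S q x y) {i : ℕ} (hi : 1 ≤ i) {u : S.L} (hs : Sp S i u 0)
    (e : ⁅u, S.gx y⁆ = 0) : Sp S (i + 1) ⁅u, S.gx x⁆ 0 :=
  sp_succ h hi hs ⟨1, 0, by simp⟩ ⟨0, 0, by simp [e]⟩ ⟨0, 0, by simp⟩ ⟨0, 0, by simp⟩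

theorem sp_low (h : GenP S q x y) (n : ℕ) (hn : n ≤ q + 2) :
    Sp S (n + 2) (pw (S.gx x) (n + 1) (S.gx y)) 0 := by
  induction n with
  | zero =>
    have h1 : Sp S 1 (S.gx x) (S.gx y) := fun a ha => hom_one_spanP h a ha
    refine sp_succ h le_rfl h1 ⟨0, 0, by simp⟩ ⟨-1, 0, ?_⟩ ⟨1, 0, ?_⟩ ⟨0, 0, by simp⟩
    · rw [show pw (S.gx x) (0 + 1) (S.gx y) = ⁅S.gx y, S.gx x⁆ from rfl,
        ← lie_skew (S.gx y) (S.gx x)]
      simp
    · rw [show pw (S.gx x) (0 + 1) (S.gx y) = ⁅S.gx y, S.gx x⁆ from rfl]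
      simp
  | succ n ih => exact sp_one h (by omega) (ih (by omega)) ((relP h).ra (n + 1) (by omega) (by omega))

/-- the spanning statements for one period. -/
def SpAll (S : NSer G) (q : ℕ) (x y : G) (k : ℕ) : Prop :=
  Sp S ((k + 1) * (q + 4)) (al q (S.gx x) (S.gx y) k) 0 ∧
  Sp S ((k + 1) * (q + 4) + 1) ⁅al q (S.gx x) (S.gx y) k, S.gx x⁆
    ⁅al q (S.gx x) (S.gx y) k, S.gx y⁆ ∧
  (∀ i, i ≤ q → Sp S ((k + 1) * (q + 4) + 2 + i) (pw (S.gx x) i (ss q (S.gx x) (S.gx y) k)) 0) ∧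
  Sp S ((k + 1) * (q + 4) + q + 3) (pw (S.gx x) (q + 1) (ss q (S.gx x) (S.gx y) k))
    (xi q (S.gx x) (S.gx y) k)

theorem spAll_of (h : GenP S q x y) (k : ℕ)
    (h0 : Sp S ((k + 1) * (q + 4)) (al q (S.gx x) (S.gx y) k) 0) : SpAll S q x y k ∧
    Sp S ((k + 2) * (q + 4)) (al q (S.gx x) (S.gx y) (k + 1)) 0 := by
  obtain ⟨g, g'⟩ := (all (relP h) k).1
  have hpos : 1 ≤ (k + 1) * (q + 4) := Nat.one_le_iff_ne_zero.2 (by positivity)
  have h1 : Sp S ((k + 1) * (q + 4) + 1) ⁅al q (S.gx x) (S.gx y) k, S.gx x⁆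
      ⁅al q (S.gx x) (S.gx y) k, S.gx y⁆ :=
    sp_succ h hpos h0 ⟨1, 0, by simp⟩ ⟨0, 1, by simp⟩ ⟨0, 0, by simp⟩ ⟨0, 0, by simp⟩
  have h2 : ∀ i, i ≤ q →
      Sp S ((k + 1) * (q + 4) + 2 + i) (pw (S.gx x) i (ss q (S.gx x) (S.gx y) k)) 0 := by
    intro i
    induction i with
    | zero =>
      intro _
      refine sp_succ h (by omega) h1 ⟨0, 0, by simp [g.1]⟩ ⟨1, 0, ?_⟩ ⟨-2, 0, ?_⟩
        ⟨0, 0, by simp [g.2.1]⟩
      · rw [pw_zero, ss]; simp
      · rw [g.2.2, pw_zero]; simp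
    | succ i ih =>
      intro hi
      exact sp_one h (i := (k + 1) * (q + 4) + 2 + i) (by omega)
        (ih (by omega)) (c4a (relP h) g i (by omega))
  have h3 : Sp S ((k + 1) * (q + 4) + q + 3) (pw (S.gx x) (q + 1) (ss q (S.gx x) (S.gx y) k))
      (xi q (S.gx x) (S.gx y) k) := by
    refine Sp.cast (sp_succ h (by omega) (h2 q le_rfl) ⟨1, 0, ?_⟩ ⟨0, 1, ?_⟩ ⟨0, 0, by simp⟩
      ⟨0, 0, by simp⟩) (by ring)
    · rw [pw_succ]; simp
    · rw [xi]; simp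
  refine ⟨⟨h0, h1, h2, h3⟩, ?_⟩
  refine Sp.cast (sp_succ h (by omega) h3 ⟨1, 0, ?_⟩ ⟨0, 0, ?_⟩ ⟨0, 0, ?_⟩ ⟨0, 0, ?_⟩) (by ring)
  · rw [al_succ, pw_succ _ (q + 1)]; simp
  · rw [g'.1 (q + 1) le_rfl (by omega)]; simp
  · rw [g'.2.1]; simp
  · rw [g'.2.2]; simp

theorem spAll (h : GenP S q x y) (k : ℕ) : SpAll S q x y k ∧
    Sp S ((k + 2) * (q + 4)) (al q (S.gx x) (S.gx y) (k + 1)) 0 := by
  induction k with
  | zero =>
    refine spAll_of h 0 (Sp.cast (sp_low h (q + 2) le_rfl) (by ring))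
  | succ k ih => exact spAll_of h (k + 1) ih.2

theorem al_ne (h : GenP S q x y) (k : ℕ) : al q (S.gx x) (S.gx y) k ≠ 0 := fun e =>
  not_all_zero h (Nat.one_le_iff_ne_zero.2 (by positivity)) (spAll h k).1.1 e rfl

theorem pw_ne_of {L : Type*} [LieRing L] {x : L} {m : L} {a : ℕ} (h : pw x a m ≠ 0) {b : ℕ}
    (hb : b ≤ a) : pw x b m ≠ 0 := by
  intro e
  obtain ⟨c, rfl⟩ := Nat.exists_eq_add_of_le hb
  exact h (by rw [pw_add, e, pw_of_zero])

theorem ss_ne (h : GenP S q x y) (k i : ℕ) (hi : i ≤ q + 2) :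
    pw (S.gx x) i (ss q (S.gx x) (S.gx y) k) ≠ 0 :=
  pw_ne_of (a := q + 2) (al_ne h (k + 1)) hi

theorem pw_ne (h : GenP S q x y) (i : ℕ) (hi : i ≤ q + 3) : pw (S.gx x) i (S.gx y) ≠ 0 :=
  pw_ne_of (a := q + 3) (al_ne h 0) hi

theorem two_cancel (h : GenP S q x y) {c : ℤ}
    (hc : ((q + 5 : ℕ) : ℤ) ∣ c * (-2 : ℤ)) : ((q + 5 : ℕ) : ℤ) ∣ c := by
  have hp : Prime ((q + 5 : ℕ) : ℤ) := Nat.prime_iff_prime_int.1 h.pr
  rcases hp.dvd_or_dvd hc with h1 | h1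
  · exact h1
  · rw [Int.dvd_neg] at h1
    have := Int.le_of_dvd (by norm_num) h1
    omega

theorem cardP_one (h : GenP S q x y) : Nat.card (S.A 1) = (q + 5) ^ 2 := by
  refine cardP_sq h ⟨x, Rp.one⟩ ⟨y, Rp.one⟩ (fun a ha => hom_one_spanP h a ha) ?_
  intro a b e
  have e1 := congrArg (fun u => ⁅u, S.gx x⁆) e
  have e2 := congrArg (fun u => ⁅S.gx y, u⁆) e
  simp only [add_lie, lie_add, zsmul_lie, lie_zsmul, lie_self, smul_zero, zero_add, add_zero,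
    zero_lie, lie_zero] at e1 e2
  have hne : ⁅S.gx y, S.gx x⁆ ≠ 0 := pw_ne h 1 (by omega)
  constructor
  · by_contra hd
    exact hne ((relP h).cancel e2 hd)
  · by_contra hd
    exact hne ((relP h).cancel e1 hd)

theorem cardP_low (h : GenP S q x y) (n : ℕ) (hn : n ≤ q + 2) : Nat.card (S.A (n + 2)) = q + 5 :=
  cardP_pr h ⟨_, (rp_pw x (Rp.one (a := y)) (n + 1)).cast (by ring)⟩ (sp_low h n hn)
    (pw_ne h (n + 1) (by omega))

theorem cardP_0 (h : GenP S q x y) (k : ℕ) : Nat.card (S.A ((k + 1) * (q + 4))) = q + 5 :=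
  cardP_pr h ⟨_, rp_al S q x y k⟩ (spAll h k).1.1 (al_ne h k)

theorem cardP_1 (h : GenP S q x y) (k : ℕ) :
    Nat.card (S.A ((k + 1) * (q + 4) + 1)) = (q + 5) ^ 2 := by
  obtain ⟨g, -⟩ := (all (relP h) k).1
  refine cardP_sq h ⟨_, (rp_al S q x y k).lie (Rp.one (a := x))⟩
    ⟨_, (rp_al S q x y k).lie (Rp.one (a := y))⟩ (spAll h k).1.2.1 ?_
  intro a b e
  have e1 := congrArg (fun u => ⁅u, S.gx x⁆) e
  have e2 := congrArg (fun u => ⁅u, S.gx y⁆) e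
  have hne : ss q (S.gx x) (S.gx y) k ≠ 0 := ss_ne h k 0 (by omega)
  simp only [add_lie, zsmul_lie, g.1, g.2.1, g.2.2, smul_zero, zero_add, add_zero,
    zero_lie, smul_smul] at e1 e2
  constructor
  · by_contra hd
    exact hne ((relP h).cancel e2 hd)
  · by_contra hd
    exact hne ((relP h).cancel e1 (fun h2 => hd (two_cancel h h2)))

theorem cardP_2 (h : GenP S q x y) (k i : ℕ) (hi : i ≤ q) :
    Nat.card (S.A ((k + 1) * (q + 4) + 2 + i)) = q + 5 :=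
  cardP_pr h ⟨_, rp_pw x (rp_ss S q x y k) i⟩ ((spAll h k).1.2.2.1 i hi) (ss_ne h k i (by omega))

theorem cardP_3 (h : GenP S q x y) : Nat.card (S.A (2 * q + 7)) = q + 5 := by
  have h1 := (spAll h 0).1.2.2.2
  rw [(relP h).rd] at h1
  exact cardP_pr h ⟨_, (rp_pw x (rp_ss S q x y 0) (q + 1)).cast (by ring)⟩ (h1.cast (by ring))
    (ss_ne h 0 (q + 1) (by omega))

theorem cardP_4 (h : GenP S q x y) (k : ℕ) :
    Nat.card (S.A ((k + 1) * (q + 4) + q + 3)) = q + 5 ∨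
      Nat.card (S.A ((k + 1) * (q + 4) + q + 3)) = (q + 5) ^ 2 :=
  cardP_or h ⟨_, (rp_pw x (rp_ss S q x y k) (q + 1)).cast (by ring)⟩ ⟨_, rp_xi S q x y k⟩
    (spAll h k).1.2.2.2 (ss_ne h k (q + 1) (by omega))

/-- **Core theorem**, `p = q + 5`. -/
theorem coreP (h : GenP S q x y) (i : ℕ) (hi : 1 ≤ i) :
    (i % (q + 4) = 1 → Nat.card (S.A i) = (q + 5) ^ 2) ∧
    (i % (q + 4) ≠ 1 → ¬ ((q + 4) ∣ (i + 1) ∧ 3 * (q + 4) ≤ i + 1) →
      Nat.card (S.A i) = q + 5) ∧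
    (i % (q + 4) ≠ 1 → Nat.card (S.A i) = q + 5 ∨ Nat.card (S.A i) = (q + 5) ^ 2) := by
  have hd := Nat.div_add_mod i (q + 4)
  have hlt := Nat.mod_lt i (show 0 < q + 4 by omega)
  rcases Nat.eq_zero_or_pos (i / (q + 4)) with h0 | h0
  · rw [h0, mul_zero, zero_add] at hd
    refine ⟨fun h1 => ?_, fun h1 h2 => ?_, fun h1 => ?_⟩
    · rw [← hd, h1]; exact cardP_one h
    · rw [show i = (i - 2) + 2 by omega]; exact cardP_low h _ (by omega)
    · left; rw [show i = (i - 2) + 2 by omega]; exact cardP_low h _ (by omega)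
  · obtain ⟨k, hk⟩ := Nat.exists_eq_succ_of_ne_zero h0.ne'
    rw [hk, Nat.succ_eq_add_one, mul_comm] at hd
    refine ⟨fun h1 => ?_, fun h1 h2 => ?_, fun h1 => ?_⟩
    · rw [← hd, h1]; exact cardP_1 h k
    · rcases Nat.eq_zero_or_pos (i % (q + 4)) with h3 | h3
      · rw [← hd, h3]; exact cardP_0 h k
      · rcases Nat.lt_or_ge (i % (q + 4)) (q + 3) with h4 | h4
        · rw [show i = (k + 1) * (q + 4) + 2 + (i % (q + 4) - 2) by omega]
          exact cardP_2 h k _ (by omega)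
        · have h5 : i % (q + 4) = q + 3 := by omega
          rw [h5] at hd
          rcases Nat.eq_zero_or_pos k with h6 | h6
          · subst h6
            rw [← hd, show (0 + 1) * (q + 4) + (q + 3) = 2 * q + 7 by ring]
            exact cardP_3 h
          · exfalso
            refine h2 ⟨⟨k + 2, by rw [← hd]; ring⟩, ?_⟩
            rw [← hd]
            nlinarith
    · rcases Nat.eq_zero_or_pos (i % (q + 4)) with h3 | h3
      · left; rw [← hd, h3]; exact cardP_0 h k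
      · rcases Nat.lt_or_ge (i % (q + 4)) (q + 3) with h4 | h4
        · left
          rw [show i = (k + 1) * (q + 4) + 2 + (i % (q + 4) - 2) by omega]
          exact cardP_2 h k _ (by omega)
        · have h5 : i % (q + 4) = q + 3 := by omega
          rw [h5, ← add_assoc] at hd
          rw [← hd]
          exact cardP_4 h k

end Pool.Agent.Lib.NOT62.P
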