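import Mathlib
import Pool.Agent.Lib.NOT62.Core

/-!
The closed lower central series of a topological group.
-/

namespace Pool.Agent.Lib.NOT62

open scoped commutatorElement Pointwise

/-- The closed lower central series: `gam G 1 = G` and `gam G (n+1)` is the closed subgroup
generated by the commutators of `gam G n` and `G` for `n ≥ 1` (and `gam G 0 = G`). -/
def gam (G : Type*) [Group G] [TopologicalSpace G] [IsTopologicalGroup G] : ℕ → Subgroup G
  | 0 => ⊤
  | 1 => ⊤
  | n + 2 => (⁅gam G (n + 1), (⊤ : Subgroup G)⁆).topologicalClosure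

section top

variable (G : Type*) [Group G] [TopologicalSpace G] [IsTopologicalGroup G]

instance gam_normal : ∀ n, (gam G n).Normal
  | 0 => by rw [gam]; infer_instance
  | 1 => by rw [gam]; infer_instance
  | n + 2 => by
    rw [gam]
    have := gam_normal (n + 1)
    exact Subgroup.is_normal_topologicalClosure _

theorem gam_closed : ∀ n, IsClosed (gam G n : Set G)
  | 0 => by rw [gam]; exact isClosed_univ
  | 1 => by rw [gam]; exact isClosed_univ
  | n + 2 => by
    rw [gam]
    exact Subgroup.isClosed_topologicalClosure _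

theorem comm_le_gam (n : ℕ) : ⁅gam G n, (⊤ : Subgroup G)⁆ ≤ gam G (n + 1) := by
  match n with
  | 0 => rw [gam]; exact le_top
  | n + 1 => exact Subgroup.le_topologicalClosure _

theorem gam_le (n : ℕ) (H : Subgroup G) (hc : IsClosed (H : Set G))
    (h : ⁅gam G (n + 1), (⊤ : Subgroup G)⁆ ≤ H) : gam G (n + 2) ≤ H :=
  Subgroup.topologicalClosure_minimal _ h hc

theorem gam_anti (n : ℕ) : gam G (n + 1) ≤ gam G n := by
  match n with
  | 0 => exact le_top
  | n + 1 =>
    refine gam_le G n _ (gam_closed G _) ?_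
    exact Subgroup.commutator_le_left _ _

theorem three_sub {G : Type*} [Group G] (N H₁ H₂ H₃ : Subgroup G) [N.Normal]
    (h1 : ⁅⁅H₂, H₃⁆, H₁⁆ ≤ N) (h2 : ⁅⁅H₃, H₁⁆, H₂⁆ ≤ N) : ⁅⁅H₁, H₂⁆, H₃⁆ ≤ N := by
  have key : ∀ K : Subgroup G, K ≤ N ↔ K.map (QuotientGroup.mk' N) = ⊥ := by
    intro K
    rw [Subgroup.map_eq_bot_iff, QuotientGroup.ker_mk']
  rw [key, Subgroup.map_commutator, Subgroup.map_commutator] at h1 h2 ⊢
  exact Subgroup.commutator_commutator_eq_bot_of_rotate h1 h2

theorem gam_comm_aux (j : ℕ) : ∀ i, ⁅gam G i, gam G (j + 1)⁆ ≤ gam G (i + j + 1) := by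
  induction j with
  | zero =>
    intro i
    have := comm_le_gam G i
    exact this
  | succ j ih =>
    intro i
    match i with
    | 0 =>
      rw [zero_add]
      exact Subgroup.commutator_le_right _ _
    | i + 1 =>
      have h1 : ⁅gam G (i + 1), ⁅gam G (j + 1), (⊤ : Subgroup G)⁆⁆ ≤ gam G (i + 1 + (j + 1) + 1) := by
        rw [Subgroup.commutator_comm]
        refine three_sub _ _ _ _ ?_ ?_
        · rw [Subgroup.commutator_comm ⊤ (gam G (i + 1))]
          refine (Subgroup.commutator_mono (comm_le_gam G (i + 1)) le_rfl).trans ?_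
          have := ih (i + 1 + 1)
          rwa [show i + 1 + 1 + j + 1 = i + 1 + (j + 1) + 1 by omega] at this
        · refine (Subgroup.commutator_mono (ih (i + 1)) le_rfl).trans ?_
          exact comm_le_gam G (i + 1 + (j + 1))
      rw [Subgroup.commutator_le]
      intro a ha b hb
      have hcl : IsClosed {b : G | ⁅a, b⁆ ∈ gam G (i + 1 + (j + 1) + 1)} := by
        have hco : Continuous (fun b : G => ⁅a, b⁆) := by
          simp only [commutatorElement_def]
          fun_prop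
        exact (gam_closed G _).preimage hco
      have hsub : ((⁅gam G (j + 1), (⊤ : Subgroup G)⁆ : Subgroup G) : Set G) ⊆
          {b : G | ⁅a, b⁆ ∈ gam G (i + 1 + (j + 1) + 1)} := by
        intro b hb
        exact h1 (Subgroup.commutator_mem_commutator ha hb)
      exact closure_minimal hsub hcl hb

theorem gam_comm (i j : ℕ) : ⁅gam G i, gam G j⁆ ≤ gam G (i + j) := by
  match j with
  | 0 => exact Subgroup.commutator_le_left _ _
  | j + 1 => exact gam_comm_aux G j i

/-- the closed lower central series as a central filtration. -/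
def gamSer : NSer G where
  g := gam G
  nor := gam_normal G
  anti := gam_anti G
  com := gam_comm G
  top1 := rfl

variable {G}

theorem gam_le_lcs {N : Subgroup G} [N.Normal] (hN : IsOpen (N : Set G)) (n : ℕ) :
    gam G (n + 1) ≤ ((⊤ : Subgroup (G ⧸ N)).lowerCentralSeries n).comap (QuotientGroup.mk' N) := by
  induction n with
  | zero => rw [Subgroup.lowerCentralSeries_zero, Subgroup.comap_top]; exact le_top
  | succ n ih =>
    refine gam_le G n _ ?_ ?_
    · refine Subgroup.isClosed_of_isOpen _ (Subgroup.isOpen_mono ?_ hN)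
      intro a ha
      rw [Subgroup.mem_comap, QuotientGroup.mk'_apply, (QuotientGroup.eq_one_iff a).2 ha]
      exact one_mem _
    · rw [← Subgroup.map_le_iff_le_comap, Subgroup.map_commutator, Subgroup.lowerCentralSeries_succ]
      exact Subgroup.commutator_mono (Subgroup.map_le_iff_le_comap.2 ih) le_top

theorem lcs_le_map {N : Subgroup G} [N.Normal] (n : ℕ) :
    (⊤ : Subgroup (G ⧸ N)).lowerCentralSeries n ≤ (gam G (n + 1)).map (QuotientGroup.mk' N) := by
  have htop : (⊤ : Subgroup G).map (QuotientGroup.mk' N) = ⊤ :=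
    Subgroup.map_top_of_surjective _ (QuotientGroup.mk'_surjective N)
  induction n with
  | zero => rw [Subgroup.lowerCentralSeries_zero, ← htop]; exact le_rfl
  | succ n ih =>
    rw [Subgroup.lowerCentralSeries_succ]
    refine (Subgroup.commutator_mono ih le_rfl).trans ?_
    rw [← htop, ← Subgroup.map_commutator]
    exact Subgroup.map_mono (comm_le_gam G (n + 1))

theorem mem_gam_iff {m : ℕ} (hm : IsOpen (gam G m : Set G)) {n : ℕ} (hn : n + 1 ≤ m) (a : G) :
    a ∈ gam G (n + 1) ↔ (a : G ⧸ gam G m) ∈ (⊤ : Subgroup (G ⧸ gam G m)).lowerCentralSeries n := by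
  constructor
  · intro ha
    exact gam_le_lcs hm n ha
  · intro ha
    obtain ⟨b, hb, hab⟩ := lcs_le_map n ha
    have h1 : b⁻¹ * a ∈ gam G m := QuotientGroup.eq.1 hab
    have h2 : b⁻¹ * a ∈ gam G (n + 1) := (gamSer G).anti' hn h1
    have := mul_mem hb h2
    rwa [mul_inv_cancel_left] at this

theorem lcs_equiv {A B : Type*} [Group A] [Group B] (f : A ≃* B) (n : ℕ) (a : A) :
    a ∈ (⊤ : Subgroup A).lowerCentralSeries n ↔ f a ∈ (⊤ : Subgroup B).lowerCentralSeries n := by
  have h : ((⊤ : Subgroup A).lowerCentralSeries n).map (f : A →* B)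
      = (⊤ : Subgroup B).lowerCentralSeries n := by
    rw [Subgroup.map_lowerCentralSeries, Subgroup.map_top_of_surjective _ f.surjective]
  rw [← h]
  exact (Subgroup.mem_map_iff_mem (f := (f : A →* B)) f.injective).symm

/-- transfer of membership through an isomorphism of the quotients. -/
theorem transfer {J : Type*} [Group J] [TopologicalSpace J] [IsTopologicalGroup J] {m : ℕ}
    (hG : IsOpen (gam G m : Set G)) (hJ : IsOpen (gam J m : Set J))
    (f : (G ⧸ gam G m) ≃* (J ⧸ gam J m)) {n : ℕ} (hn : n + 1 ≤ m) {a : G} {b : J}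
    (hab : f a = b) : a ∈ gam G (n + 1) ↔ b ∈ gam J (n + 1) := by
  rw [mem_gam_iff hG hn, mem_gam_iff hJ hn, lcs_equiv f, hab]

end top

namespace NSer

variable {G : Type*} [Group G] (S : NSer G) (x y : G)

/-- the subgroup of products `[b,x] [c,y] d`, `b, c` in `g i`, `d` in `g (i+2)`. -/
noncomputable def K (i : ℕ) : Subgroup G where
  carrier := {a | ∃ ha : a ∈ S.g (i + 1), ∃ u v : S.A i, S.cl (i + 1) a ha
    = S.br u (S.cl 1 x (S.mem1 x)) + S.br v (S.cl 1 y (S.mem1 y))}
  mul_mem' := by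
    rintro a b ⟨ha, u, v, e⟩ ⟨hb, u', v', e'⟩
    refine ⟨mul_mem ha hb, u + u', v + v', ?_⟩
    rw [S.cl_mul ha hb, e, e', S.add_br, S.add_br]
    abel
  one_mem' := by
    refine ⟨one_mem _, 0, 0, ?_⟩
    have h1 : S.br (0 : S.A i) (S.cl 1 x (S.mem1 x)) = 0 := by
      have := S.add_br (0 : S.A i) 0 (S.cl 1 x (S.mem1 x))
      rw [add_zero] at this
      exact left_eq_add.1 this
    have h2 : S.br (0 : S.A i) (S.cl 1 y (S.mem1 y)) = 0 := by
      have := S.add_br (0 : S.A i) 0 (S.cl 1 y (S.mem1 y))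
      rw [add_zero] at this
      exact left_eq_add.1 this
    rw [h1, h2, add_zero]
    rfl
  inv_mem' := by
    rintro a ⟨ha, u, v, e⟩
    refine ⟨inv_mem ha, -u, -v, ?_⟩
    have h0 : ∀ (w : S.A 1), S.br (0 : S.A i) w = 0 := by
      intro w
      have := S.add_br (0 : S.A i) 0 w
      rw [add_zero] at this
      exact left_eq_add.1 this
    have h1 : ∀ (w : S.A 1) (u : S.A i), S.br (-u) w = - S.br u w := by
      intro w u
      have := S.add_br (-u) u w
      rw [neg_add_cancel, h0] at this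
      exact eq_neg_of_add_eq_zero_left this.symm
    rw [S.cl_inv ha, e, h1, h1]
    abel

variable {S x y}

theorem mem_K_iff (i : ℕ) (a : G) : a ∈ S.K x y i ↔
    ∃ b ∈ S.g i, ∃ c ∈ S.g i, ∃ d ∈ S.g (i + 2), a = ⁅b, x⁆ * ⁅c, y⁆ * d := by
  constructor
  · rintro ⟨ha, u, v, e⟩
    obtain ⟨b, hb, rfl⟩ := S.cl_surj u
    obtain ⟨c, hc, rfl⟩ := S.cl_surj v
    have m1 := S.com_mem2 hb x
    have m2 := S.com_mem2 hc y
    rw [S.br_cl, S.br_cl, ← S.cl_mul m1 m2, eq_comm, S.cl_eq_iff] at e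
    exact ⟨b, hb, c, hc, _, e, by group⟩
  · rintro ⟨b, hb, c, hc, d, hd, rfl⟩
    have m1 := S.com_mem2 hb x
    have m2 := S.com_mem2 hc y
    have m3 := S.anti _ hd
    refine ⟨mul_mem (mul_mem m1 m2) m3, S.cl i b hb, S.cl i c hc, ?_⟩
    rw [S.cl_mul (mul_mem m1 m2) m3, S.cl_mul m1 m2, (S.cl_one_eq m3).2 hd, add_zero, S.br_cl,
      S.br_cl]

theorem comm_le_K (hs : ∀ a : G, ∃ p q : ℤ, ∃ c ∈ S.g 2, a = x ^ p * y ^ q * c) (i : ℕ) :
    ⁅S.g i, (⊤ : Subgroup G)⁆ ≤ S.K x y i := by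
  rw [Subgroup.commutator_le]
  intro b hb a _
  refine ⟨S.com_mem2 hb a, ?_⟩
  obtain ⟨p, q, c, hc, e⟩ := hs a
  have e1 : S.cl 1 a (S.mem1 a) = p • S.cl 1 x (S.mem1 x) + q • S.cl 1 y (S.mem1 y) := by
    rw [S.cl_congr e (S.mem1 a) (mul_mem (mul_mem (zpow_mem (S.mem1 x) p) (zpow_mem (S.mem1 y) q))
      (S.mem1 c)), S.cl_mul (mul_mem (zpow_mem (S.mem1 x) p) (zpow_mem (S.mem1 y) q)) (S.mem1 c),
      S.cl_mul (zpow_mem (S.mem1 x) p) (zpow_mem (S.mem1 y) q), (S.cl_one_eq (S.mem1 c)).2 hc,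
      add_zero]
    rfl
  have e2 : S.cl (i + 1) ⁅b, a⁆ (S.com_mem2 hb a) = S.br (S.cl i b hb) (S.cl 1 a (S.mem1 a)) := by
    rw [S.br_cl]
  have hz : ∀ (w : S.A 1) (p : ℤ), S.br (S.cl i b hb) (p • w) = S.br (p • S.cl i b hb) w := by
    intro w p
    let f : S.A i →+ S.A 1 →+ S.A (i + 1) :=
      DirectSum.gMulHom (fun i => S.A i)
    have h1 : S.br (S.cl i b hb) (p • w) = p • S.br (S.cl i b hb) w := map_zsmul (f (S.cl i b hb)) p w
    have h2 : S.br (p • S.cl i b hb) w = p • S.br (S.cl i b hb) w := by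
      change f (p • S.cl i b hb) w = p • f (S.cl i b hb) w
      rw [map_zsmul]
      rfl
    rw [h1, h2]
  refine ⟨p • S.cl i b hb, q • S.cl i b hb, ?_⟩
  rw [e2, e1, S.br_add, hz, hz]

end NSer

section gen

variable {G : Type*} [Group G] [TopologicalSpace G] [IsTopologicalGroup G] {x y : G}

theorem gam_le_K (hs : ∀ a : G, ∃ p q : ℤ, ∃ c ∈ gam G 2, a = x ^ p * y ^ q * c) (i : ℕ)
    (hi : 1 ≤ i) (hc : IsClosed ((gamSer G).K x y i : Set G)) :
    gam G (i + 1) ≤ (gamSer G).K x y i := by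
  obtain ⟨n, rfl⟩ : ∃ n, i = n + 1 := ⟨i - 1, by omega⟩
  exact gam_le G n _ hc (NSer.comm_le_K (S := gamSer G) hs (n + 1))

/-- generation when all terms are open. -/
theorem gen_of_open (hs : ∀ a : G, ∃ p q : ℤ, ∃ c ∈ gam G 2, a = x ^ p * y ^ q * c)
    (ho : ∀ i, IsOpen (gam G i : Set G)) (i : ℕ) (hi : 1 ≤ i) :
    gam G (i + 1) ≤ (gamSer G).K x y i := by
  refine gam_le_K hs i hi (Subgroup.isClosed_of_isOpen _ (Subgroup.isOpen_mono ?_ (ho (i + 2))))
  intro d hd
  rw [NSer.mem_K_iff]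
  exact ⟨1, one_mem _, 1, one_mem _, d, hd, by simp⟩

/-- generation in compact groups. -/
theorem gen_of_compact [CompactSpace G] [T2Space G]
    (hs : ∀ a : G, ∃ p q : ℤ, ∃ c ∈ gam G 2, a = x ^ p * y ^ q * c) (i : ℕ) (hi : 1 ≤ i) :
    gam G (i + 1) ≤ (gamSer G).K x y i := by
  refine gam_le_K hs i hi ?_
  have hf : Continuous (fun t : G × G × G => ⁅t.1, x⁆ * ⁅t.2.1, y⁆ * t.2.2) := by
    simp only [commutatorElement_def]
    fun_prop
  have he : ((gamSer G).K x y i : Set G) = (fun t : G × G × G => ⁅t.1, x⁆ * ⁅t.2.1, y⁆ * t.2.2) ''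
      ((gam G i : Set G) ×ˢ ((gam G i : Set G) ×ˢ (gam G (i + 2) : Set G))) := by
    ext a
    rw [SetLike.mem_coe, NSer.mem_K_iff]
    constructor
    · rintro ⟨b, hb, c, hc, d, hd, rfl⟩
      exact ⟨(b, c, d), ⟨hb, hc, hd⟩, rfl⟩
    · rintro ⟨⟨b, c, d⟩, ⟨hb, hc, hd⟩, rfl⟩
      exact ⟨b, hb, c, hc, d, hd, rfl⟩
  rw [he]
  have hcp : ∀ i, IsCompact (gam G i : Set G) := fun i => (gam_closed G i).isCompact
  exact (((hcp _).prod ((hcp _).prod (hcp _))).image hf).isClosed

end gen

/-- A pro-`p` group: a compact, Hausdorff, totally disconnected topological group whose open normal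
subgroups have index a power of `p`. -/
structure IsProP (p : ℕ) (G : Type*) [Group G] [TopologicalSpace G] : Prop where
  top : IsTopologicalGroup G
  compact : CompactSpace G
  hausdorff : T2Space G
  disconnected : TotallyDisconnectedSpace G
  index : ∀ N : Subgroup G, N.Normal → IsOpen (N : Set G) → ∃ k, N.index = p ^ k

section prop

variable {G : Type*} [Group G] [TopologicalSpace G] [IsTopologicalGroup G]

theorem residual {p : ℕ} (hp : p.Prime) (h : IsProP p G) (a : G) (ha : ∀ n, a ∈ gam G n) :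
    a = 1 := by
  have := h.compact
  have := h.hausdorff
  have := h.disconnected
  have : Fact p.Prime := ⟨hp⟩
  by_contra hne
  have hU : IsOpen ({a}ᶜ : Set G) := isOpen_compl_singleton
  obtain ⟨N, hN⟩ := ProfiniteGrp.exist_openNormalSubgroup_sub_open_nhds_of_one hU
    (by simpa using fun h : 1 = a => hne h.symm)
  have hNo : IsOpen ((N : Subgroup G) : Set G) := N.isOpen'
  have hNn : (N : Subgroup G).Normal := inferInstance
  have hfi : Finite (G ⧸ (N : Subgroup G)) := Subgroup.quotient_finite_of_isOpen _ hNo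
  obtain ⟨k, hk⟩ := h.index _ hNn hNo
  have hpg : IsPGroup p (G ⧸ (N : Subgroup G)) := by
    refine IsPGroup.of_card (n := k) ?_
    rw [← hk]
    rfl
  have hnil := hpg.isNilpotent
  obtain ⟨n, hn⟩ := Subgroup.nilpotent_iff_lowerCentralSeries.1 hnil
  have h1 := gam_le_lcs hNo n (ha (n + 1))
  rw [Subgroup.mem_comap, hn, Subgroup.mem_bot, QuotientGroup.mk'_apply,
    QuotientGroup.eq_one_iff] at h1
  exact hN h1 rfl

theorem gam_stable {n : ℕ} (hn : 1 ≤ n) (h : gam G n ≤ gam G (n + 1)) (m : ℕ) :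
    gam G n ≤ gam G (n + m) := by
  obtain ⟨k, rfl⟩ : ∃ k, n = k + 1 := ⟨n - 1, by omega⟩
  induction m with
  | zero => exact le_rfl
  | succ m ih =>
    refine h.trans ?_
    refine gam_le G k _ (gam_closed G _) ?_
    exact (Subgroup.commutator_mono ih le_rfl).trans (comm_le_gam G (k + 1 + m))

theorem finA (x y : G) (hK : ∀ i, 1 ≤ i → gam G (i + 1) ≤ (gamSer G).K x y i)
    (h1 : Finite ((gamSer G).A 1)) (i : ℕ) : Finite ((gamSer G).A (i + 1)) := by
  induction i with
  | zero => exact h1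
  | succ i ih =>
    have hs : Function.Surjective (fun t : (gamSer G).A (i + 1) × (gamSer G).A (i + 1) =>
        (gamSer G).br t.1 ((gamSer G).cl 1 x ((gamSer G).mem1 x))
          + (gamSer G).br t.2 ((gamSer G).cl 1 y ((gamSer G).mem1 y))) := by
      intro w
      obtain ⟨a, ha, rfl⟩ := (gamSer G).cl_surj w
      obtain ⟨_, u, v, e⟩ := hK (i + 1) (by omega) ha
      exact ⟨(u, v), e.symm⟩
    exact Finite.of_surjective _ hs

theorem index_ne_zero (x y : G) (hK : ∀ i, 1 ≤ i → gam G (i + 1) ≤ (gamSer G).K x y i)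
    (h1 : Finite ((gamSer G).A 1)) (i : ℕ) : (gam G (i + 1)).index ≠ 0 := by
  induction i with
  | zero => rw [zero_add, gam, Subgroup.index_top]; exact one_ne_zero
  | succ i ih =>
    rw [← Subgroup.relIndex_mul_index (gam_anti G (i + 1))]
    refine mul_ne_zero ?_ ih
    have := finA x y hK h1 i
    have h2 : Nat.card ((gamSer G).A (i + 1)) ≠ 0 := Nat.card_pos.ne'
    exact h2

theorem inf_of_infinite {p : ℕ} (hp : p.Prime) (h : IsProP p G) (hinf : Infinite G) (x y : G)
    (hK : ∀ i, 1 ≤ i → gam G (i + 1) ≤ (gamSer G).K x y i)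
    (h1 : Finite ((gamSer G).A 1)) (i : ℕ) (hi : 1 ≤ i) : ¬ gam G i ≤ gam G (i + 1) := by
  intro hle
  have hbot : gam G i = ⊥ := by
    rw [eq_bot_iff]
    intro a ha
    rw [Subgroup.mem_bot]
    refine residual hp h a (fun n => ?_)
    exact (gamSer G).anti' (by omega : n ≤ i + n) (gam_stable hi hle n ha)
  obtain ⟨k, rfl⟩ : ∃ k, i = k + 1 := ⟨i - 1, by omega⟩
  have h2 := index_ne_zero x y hK h1 k
  rw [hbot, Subgroup.index_bot] at h2
  exact h2 Nat.card_eq_zero_of_infinite

end prop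

end Pool.Agent.Lib.NOT62
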