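import Mathlib
import Pool.Agent.Lib.NOT62.Top

/-!
The Nottingham group over the field with `p` elements: automorphisms of the power series ring,
depth filtration, commutator formula.
-/

namespace Pool.Agent.Lib.NOT62

open PowerSeries
open scoped commutatorElement

section basic

variable {p : ℕ} [Fact p.Prime]

/-- automorphisms of the algebra of power series over the field with `p` elements. -/
abbrev Au (p : ℕ) [Fact p.Prime] : Type :=
  (PowerSeries (ZMod p)) ≃ₐ[ZMod p] (PowerSeries (ZMod p))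

theorem dvd_all {m : ℕ} {σ : Au p} (h : (X : PowerSeries (ZMod p)) ^ (m + 1) ∣ σ X - X)
    (f : PowerSeries (ZMod p)) : (X : PowerSeries (ZMod p)) ^ (m + 1) ∣ σ f - f := by
  have key : ∀ n, n ≤ m + 1 → ∀ f : PowerSeries (ZMod p), X ^ n ∣ σ f - f := by
    intro n
    induction n with
    | zero => intro _ f; simp
    | succ n ih =>
      intro hn f
      obtain ⟨g, hg⟩ : X ∣ f - C (constantCoeff f) := by
        rw [X_dvd_iff]; simp
      have hf : f = C (constantCoeff f) + X * g := by rw [← hg]; ring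
      have hC : σ (C (constantCoeff f)) = C (constantCoeff f) := by
        have := σ.commutes (constantCoeff f)
        exact this
      have e : σ f - f = (σ X - X) * σ g + X * (σ g - g) := by
        conv_lhs => rw [hf, map_add, map_mul, hC]
        ring
      rw [e]
      refine dvd_add ?_ ?_
      · exact Dvd.dvd.mul_right ((pow_dvd_pow X hn).trans h) _
      · rw [pow_succ']
        exact mul_dvd_mul_left _ (ih (by omega) g)
  exact key (m + 1) le_rfl f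

/-- all automorphisms acting trivially modulo `X^(m+1)`. -/
noncomputable def Dm (p : ℕ) [Fact p.Prime] (m : ℕ) : Subgroup (Au p) where
  carrier := {σ | ∀ f : PowerSeries (ZMod p), X ^ (m + 1) ∣ σ f - f}
  mul_mem' := by
    intro σ τ hσ hτ f
    have e : (σ * τ) f - f = (σ (τ f) - τ f) + (τ f - f) := by
      rw [AlgEquiv.mul_apply]; ring
    rw [e]
    exact dvd_add (hσ _) (hτ _)
  one_mem' := by
    intro f
    simp
  inv_mem' := by
    intro σ hσ f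
    have e : σ⁻¹ f - f = - (σ (σ⁻¹ f) - σ⁻¹ f) := by
      rw [← AlgEquiv.mul_apply, mul_inv_cancel, AlgEquiv.one_apply]; ring
    rw [e, dvd_neg]
    exact hσ _

theorem mem_Dm_iff {m : ℕ} {σ : Au p} : σ ∈ Dm p m ↔
    (X : PowerSeries (ZMod p)) ^ (m + 1) ∣ σ X - X :=
  ⟨fun h => h X, fun h f => dvd_all h f⟩

/-- The Nottingham group over the field with `p` elements: the automorphisms `σ` of the algebra of
power series with `σ(X) = X + O(X^2)`. -/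
noncomputable def nott (p : ℕ) [Fact p.Prime] : Subgroup (Au p) where
  carrier := {σ | (X : PowerSeries (ZMod p)) ^ 2 ∣ σ X - X}
  mul_mem' := by
    intro σ τ hσ hτ
    exact mem_Dm_iff.1 (mul_mem (mem_Dm_iff.2 hσ) (mem_Dm_iff.2 hτ))
  one_mem' := by simp
  inv_mem' := by
    intro σ hσ
    exact mem_Dm_iff.1 (inv_mem (mem_Dm_iff.2 hσ))

theorem X_dvd_of_mem {σ : Au p} (h : σ ∈ nott p) : (X : PowerSeries (ZMod p)) ∣ σ X := by
  have h1 : (X : PowerSeries (ZMod p)) ^ 2 ∣ σ X - X := h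
  have h2 : (X : PowerSeries (ZMod p)) ∣ σ X - X := (dvd_pow_self X two_ne_zero).trans h1
  have := dvd_add h2 (dvd_refl X)
  rwa [sub_add_cancel] at this

theorem pow_dvd_map {σ : Au p} (h : σ ∈ nott p) {k : ℕ} {f : PowerSeries (ZMod p)}
    (hf : X ^ k ∣ f) : (X : PowerSeries (ZMod p)) ^ k ∣ σ f := by
  obtain ⟨g, rfl⟩ := hf
  rw [map_mul, map_pow]
  exact Dvd.dvd.mul_right (pow_dvd_pow_of_dvd (X_dvd_of_mem h) k) _

/-- The subgroup of elements of depth at least `m`. -/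
noncomputable def dep (p : ℕ) [Fact p.Prime] (m : ℕ) : Subgroup (nott p) := (Dm p m).comap (nott p).subtype

theorem mem_dep_iff {m : ℕ} {σ : nott p} : σ ∈ dep p m ↔
    (X : PowerSeries (ZMod p)) ^ (m + 1) ∣ σ.1 X - X := mem_Dm_iff

theorem mem_dep_all {m : ℕ} {σ : nott p} (h : σ ∈ dep p m) (f : PowerSeries (ZMod p)) :
    (X : PowerSeries (ZMod p)) ^ (m + 1) ∣ σ.1 f - f := h f

instance dep_normal (m : ℕ) : (dep p m).Normal := by
  constructor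
  intro τ hτ σ f
  have e : (σ * τ * σ⁻¹).1 f - f = σ.1 (τ.1 (σ.1⁻¹ f) - σ.1⁻¹ f) := by
    rw [map_sub, ← AlgEquiv.mul_apply σ.1 σ.1⁻¹, mul_inv_cancel, AlgEquiv.one_apply]
    rfl
  change (X : PowerSeries (ZMod p)) ^ (m + 1) ∣ (σ * τ * σ⁻¹).1 f - f
  rw [e]
  exact pow_dvd_map σ.2 (mem_dep_all hτ _)

theorem dep_anti {m n : ℕ} (h : m ≤ n) : dep p n ≤ dep p m := by
  intro σ hσ
  rw [mem_dep_iff] at hσ ⊢
  exact (pow_dvd_pow X (by omega)).trans hσ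

theorem dep_one : dep p 1 = ⊤ := by
  rw [eq_top_iff]
  intro σ _
  exact mem_dep_iff.2 σ.2

theorem dep_zero : dep p 0 = ⊤ := by
  rw [eq_top_iff, ← dep_one]
  exact dep_anti zero_le_one

/-- leading coefficient in depth `m`. -/
noncomputable def lam (m : ℕ) (σ : nott p) : ZMod p := coeff (m + 1) (σ.1 X - X)

theorem mem_dep_succ {m : ℕ} {σ : nott p} (h : σ ∈ dep p m) : σ ∈ dep p (m + 1) ↔ lam m σ = 0 := by
  rw [mem_dep_iff] at h ⊢
  rw [X_pow_dvd_iff] at h ⊢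
  constructor
  · intro h1
    exact h1 (m + 1) (by omega)
  · intro h1 k hk
    rcases Nat.lt_succ_iff_lt_or_eq.1 hk with h2 | h2
    · exact h k h2
    · rw [h2]; exact h1

/-- the form of `σ (X^k)`. -/
theorem map_X_pow {m : ℕ} {σ : nott p} (h : σ ∈ dep p m) (k : ℕ) : ∃ u r : PowerSeries (ZMod p),
    σ.1 X - X = X ^ (m + 1) * u ∧
    σ.1 (X ^ k) = X ^ k + (k : PowerSeries (ZMod p)) * X ^ (k + m) * u + X ^ (k + 2 * m) * r := by
  obtain ⟨u, hu⟩ := mem_dep_iff.1 h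
  have h1 : σ.1 X = X * (1 + X ^ m * u) := by
    have : σ.1 X = X + X ^ (m + 1) * u := by rw [← hu]; ring
    rw [this]; ring
  have h2 : ∀ k : ℕ, ∃ r : PowerSeries (ZMod p), (1 + X ^ m * u) ^ k
      = 1 + (k : PowerSeries (ZMod p)) * (X ^ m * u) + X ^ (2 * m) * r := by
    intro k
    induction k with
    | zero => exact ⟨0, by simp⟩
    | succ k ih =>
      obtain ⟨r, hr⟩ := ih
      refine ⟨(k : PowerSeries (ZMod p)) * u ^ 2 + r * (1 + X ^ m * u), ?_⟩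
      rw [pow_succ, hr]
      push_cast
      ring
  obtain ⟨r, hr⟩ := h2 k
  refine ⟨u, r, hu, ?_⟩
  rw [map_pow, h1, mul_pow, hr]
  ring

theorem raise {m : ℕ} {σ : nott p} (h : σ ∈ dep p m) {k : ℕ} {f : PowerSeries (ZMod p)}
    (hf : X ^ k ∣ f) : (X : PowerSeries (ZMod p)) ^ (k + m) ∣ σ.1 f - f := by
  obtain ⟨g, rfl⟩ := hf
  obtain ⟨u, r, -, hr⟩ := map_X_pow h k
  obtain ⟨v, hv⟩ := mem_dep_all h g
  have e : σ.1 (X ^ k * g) - X ^ k * g = σ.1 (X ^ k) * (σ.1 g - g) + (σ.1 (X ^ k) - X ^ k) * g := by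
    rw [map_mul]; ring
  rw [e]
  refine dvd_add ?_ ?_
  · have h1 : (X : PowerSeries (ZMod p)) ^ k ∣ σ.1 (X ^ k) := pow_dvd_map σ.2 dvd_rfl
    have h2 : (X : PowerSeries (ZMod p)) ^ m ∣ σ.1 g - g :=
      (pow_dvd_pow X (by omega)).trans (mem_dep_all h g)
    rw [pow_add]
    exact mul_dvd_mul h1 h2
  · refine Dvd.dvd.mul_right ?_ _
    rw [hr]
    refine ⟨(k : PowerSeries (ZMod p)) * u + X ^ m * r, ?_⟩
    ring

theorem raise_coeff {i : ℕ} {σ : nott p} (h : σ ∈ dep p i) (hi : 1 ≤ i) {j : ℕ}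
    {f : PowerSeries (ZMod p)} (hf : X ^ (j + 1) ∣ f) :
    coeff (i + j + 1) (σ.1 f - f) = ((j + 1 : ℕ) : ZMod p) * lam i σ * coeff (j + 1) f := by
  obtain ⟨v, rfl⟩ := hf
  obtain ⟨u, r, hu, hr⟩ := map_X_pow h (j + 1)
  obtain ⟨w, hw⟩ : X ∣ v - C (constantCoeff v) := by
    rw [X_dvd_iff]; simp
  have hv : v = C (constantCoeff v) + X * w := by rw [← hw]; ring
  have hC : σ.1 (C (constantCoeff v)) = C (constantCoeff v) := σ.1.commutes (constantCoeff v)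
  have e : σ.1 (X ^ (j + 1) * v) - X ^ (j + 1) * v
      = (σ.1 (X ^ (j + 1)) - X ^ (j + 1)) * C (constantCoeff v)
        + (σ.1 (X ^ (j + 2) * w) - X ^ (j + 2) * w) := by
    have e1 : X ^ (j + 1) * v = X ^ (j + 1) * C (constantCoeff v) + X ^ (j + 2) * w := by
      conv_lhs => rw [hv]
      ring
    rw [e1, map_add, map_mul, hC]
    ring
  have h2 : coeff (i + j + 1) (σ.1 (X ^ (j + 2) * w) - X ^ (j + 2) * w) = 0 := by
    have := raise h (k := j + 2) (f := X ^ (j + 2) * w) (dvd_mul_right _ _)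
    rw [X_pow_dvd_iff] at this
    exact this _ (by omega)
  have h3 : coeff (i + j + 1) (σ.1 (X ^ (j + 1)) - X ^ (j + 1))
      = ((j + 1 : ℕ) : ZMod p) * coeff 0 u := by
    have e3 : σ.1 (X ^ (j + 1)) - X ^ (j + 1)
        = X ^ (i + j + 1) * (((j + 1 : ℕ) : PowerSeries (ZMod p)) * u + X ^ i * r) := by
      rw [hr]; ring
    rw [e3]
    have e4 := coeff_X_pow_mul (((j + 1 : ℕ) : PowerSeries (ZMod p)) * u + X ^ i * r) (i + j + 1) 0
    rw [zero_add] at e4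
    rw [e4, map_add]
    have e5 : coeff 0 (X ^ i * r) = 0 := by
      rw [coeff_zero_eq_constantCoeff_apply, map_mul, map_pow, constantCoeff_X, zero_pow (by omega),
        zero_mul]
    rw [e5, add_zero, coeff_zero_eq_constantCoeff_apply, map_mul, map_natCast,
      coeff_zero_eq_constantCoeff_apply]
  have h4 : lam i σ = coeff 0 u := by
    rw [lam, hu]
    have e4 := coeff_X_pow_mul u (i + 1) 0
    rw [zero_add] at e4
    exact e4
  have h5 : coeff (j + 1) (X ^ (j + 1) * v) = constantCoeff v := by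
    have e4 := coeff_X_pow_mul v (j + 1) 0
    rw [zero_add] at e4
    rw [e4, coeff_zero_eq_constantCoeff_apply]
  rw [e, map_add, h2, add_zero, coeff_mul_C, h3, h4, h5]

theorem lam_mul {m : ℕ} (hm : 1 ≤ m) {σ τ : nott p} (hσ : σ ∈ dep p m) (hτ : τ ∈ dep p m) :
    lam m (σ * τ) = lam m σ + lam m τ := by
  have e : (σ * τ).1 X - X = (σ.1 (τ.1 X - X) - (τ.1 X - X)) + (τ.1 X - X) + (σ.1 X - X) := by
    rw [map_sub]
    change σ.1 (τ.1 X) - X = _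
    ring
  have h1 : coeff (m + 1) (σ.1 (τ.1 X - X) - (τ.1 X - X)) = 0 := by
    have := raise hσ (k := m + 1) (f := τ.1 X - X) (mem_dep_iff.1 hτ)
    rw [X_pow_dvd_iff] at this
    exact this _ (by omega)
  rw [lam, e, map_add, map_add, h1, lam, lam]
  ring

theorem lam_inv {m : ℕ} (hm : 1 ≤ m) {σ : nott p} (hσ : σ ∈ dep p m) :
    lam m σ⁻¹ = - lam m σ := by
  have h := lam_mul hm hσ (inv_mem hσ)
  rw [mul_inv_cancel] at h
  have h1 : lam m (1 : nott p) = 0 := by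
    rw [lam]
    change coeff (m + 1) (X - X) = _
    simp
  rw [h1] at h
  exact eq_neg_of_add_eq_zero_right h.symm

theorem comm_dep {i j : ℕ} (hi : 1 ≤ i) (hj : 1 ≤ j) {σ τ : nott p} (hσ : σ ∈ dep p i)
    (hτ : τ ∈ dep p j) : ⁅σ, τ⁆ ∈ dep p (i + j) ∧
      lam (i + j) ⁅σ, τ⁆ = ((j : ZMod p) - (i : ZMod p)) * lam i σ * lam j τ := by
  have hE : ∀ f : PowerSeries (ZMod p), σ.1 (τ.1 f) - τ.1 (σ.1 f)
      = (σ.1 (τ.1 f - f) - (τ.1 f - f)) - (τ.1 (σ.1 f - f) - (σ.1 f - f)) := by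
    intro f
    rw [map_sub, map_sub]; ring
  have hd : ∀ f : PowerSeries (ZMod p), X ^ (i + j + 1) ∣ σ.1 (τ.1 f) - τ.1 (σ.1 f) := by
    intro f
    rw [hE]
    refine dvd_sub ?_ ?_
    · have := raise hσ (mem_dep_all hτ f)
      rwa [show j + 1 + i = i + j + 1 by omega] at this
    · have := raise hτ (mem_dep_all hσ f)
      rwa [show i + 1 + j = i + j + 1 by omega] at this
  have hk : ∀ f : PowerSeries (ZMod p), (⁅σ, τ⁆ : nott p).1 (τ.1 (σ.1 f)) = σ.1 (τ.1 f) := by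
    intro f
    have e : ⁅σ, τ⁆ * (τ * σ) = σ * τ := by rw [commutatorElement_def]; group
    have := congrArg (fun ρ : nott p => ρ.1 f) e
    exact this
  have hmem : ⁅σ, τ⁆ ∈ dep p (i + j) := by
    rw [mem_dep_iff]
    obtain ⟨g, hg⟩ : ∃ g, τ.1 (σ.1 g) = X :=
      ⟨σ.1.symm (τ.1.symm X), by rw [AlgEquiv.apply_symm_apply, AlgEquiv.apply_symm_apply]⟩
    have := hd g
    rwa [← hk g, hg] at this
  refine ⟨hmem, ?_⟩
  obtain ⟨h, hh⟩ : (X : PowerSeries (ZMod p)) ^ 2 ∣ (τ * σ).1 X - X := (τ * σ).2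
  have hY : τ.1 (σ.1 X) = X + X ^ 2 * h := by
    rw [← hh]
    change _ = X + (τ.1 (σ.1 X) - X)
    ring
  have h1 : coeff (i + j + 1) (σ.1 (τ.1 X) - τ.1 (σ.1 X)) = lam (i + j) ⁅σ, τ⁆ := by
    rw [← hk X, hY, map_add]
    have e : (⁅σ, τ⁆ : nott p).1 X + (⁅σ, τ⁆ : nott p).1 (X ^ 2 * h) - (X + X ^ 2 * h)
        = ((⁅σ, τ⁆ : nott p).1 X - X) + ((⁅σ, τ⁆ : nott p).1 (X ^ 2 * h) - X ^ 2 * h) := by ring
    rw [e, map_add]
    have h2 : coeff (i + j + 1) ((⁅σ, τ⁆ : nott p).1 (X ^ 2 * h) - X ^ 2 * h) = 0 := by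
      have := raise hmem (k := 2) (f := X ^ 2 * h) (dvd_mul_right _ _)
      rw [X_pow_dvd_iff] at this
      exact this _ (by omega)
    rw [h2, add_zero]
    rfl
  rw [← h1, hE, map_sub, raise_coeff hσ hi (mem_dep_iff.1 hτ)]
  have h3 := raise_coeff hτ hj (mem_dep_iff.1 hσ)
  rw [show j + i + 1 = i + j + 1 by omega] at h3
  rw [h3]
  change _ * _ * lam j τ - _ * _ * lam i σ = _
  push_cast
  ring

/-- the automorphism `X ↦ P` for a power series `P = X + O(X^2)`. -/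
noncomputable def ofSeries (P : PowerSeries (ZMod p)) (h0 : constantCoeff P = 0)
    (h1 : IsUnit (coeff 1 P)) : Au p :=
  AlgEquiv.ofAlgHom
    (substAlgHom (HasSubst.of_constantCoeff_zero' h0) :
      PowerSeries (ZMod p) →ₐ[ZMod p] PowerSeries (ZMod p))
    (substAlgHom (HasSubst.of_constantCoeff_zero' (constantCoeff_substInvOfIsUnit P h1)) :
      PowerSeries (ZMod p) →ₐ[ZMod p] PowerSeries (ZMod p))
    (by
      ext f : 1
      have h := substAlgHom_comp_substAlgHom_apply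
        (HasSubst.of_constantCoeff_zero' (constantCoeff_substInvOfIsUnit P h1))
        (HasSubst.of_constantCoeff_zero' h0) f
      rw [AlgHom.comp_apply, AlgHom.id_apply]
      refine h.trans ?_
      rw [coe_substAlgHom, coe_substAlgHom, subst_substInvOfIsUnit_left P h0 h1, X_subst])
    (by
      ext f : 1
      have h := substAlgHom_comp_substAlgHom_apply
        (HasSubst.of_constantCoeff_zero' h0)
        (HasSubst.of_constantCoeff_zero' (constantCoeff_substInvOfIsUnit P h1)) f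
      rw [AlgHom.comp_apply, AlgHom.id_apply]
      refine h.trans ?_
      rw [coe_substAlgHom, coe_substAlgHom, subst_substInvOfIsUnit_right P h0 h1, X_subst])

theorem ofSeries_X (P : PowerSeries (ZMod p)) (h0 : constantCoeff P = 0)
    (h1 : IsUnit (coeff 1 P)) : ofSeries P h0 h1 X = P := by
  change (substAlgHom (HasSubst.of_constantCoeff_zero' h0)) X = P
  exact substAlgHom_X (HasSubst.of_constantCoeff_zero' h0)

theorem exists_lam {m : ℕ} (hm : 1 ≤ m) (a : ZMod p) : ∃ σ ∈ dep p m, lam m σ = a := by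
  have h0 : constantCoeff (X + C a * X ^ (m + 1) : PowerSeries (ZMod p)) = 0 := by simp
  have h1 : IsUnit (coeff 1 (X + C a * X ^ (m + 1) : PowerSeries (ZMod p))) := by
    rw [map_add, coeff_one_X, coeff_C_mul, coeff_X_pow, if_neg (by omega), mul_zero, add_zero]
    exact isUnit_one
  have hX := ofSeries_X _ h0 h1
  have hd : ofSeries _ h0 h1 X - X = X ^ (m + 1) * C a := by rw [hX]; ring
  have hm2 : ofSeries _ h0 h1 ∈ nott p := by
    change X ^ 2 ∣ ofSeries _ h0 h1 X - X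
    rw [hd]
    exact Dvd.dvd.mul_right (pow_dvd_pow X (by omega)) _
  refine ⟨⟨ofSeries _ h0 h1, hm2⟩, ?_, ?_⟩
  · rw [mem_dep_iff]
    change X ^ (m + 1) ∣ ofSeries _ h0 h1 X - X
    rw [hd]
    exact dvd_mul_right _ _
  · rw [lam]
    change coeff (m + 1) (ofSeries _ h0 h1 X - X) = a
    rw [hd]
    have e4 := coeff_X_pow_mul (C a : PowerSeries (ZMod p)) (m + 1) 0
    rw [zero_add] at e4
    rw [e4, coeff_zero_C]

/-- The filter basis of the depth subgroups. -/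
@[instance_reducible] noncomputable def depBasis (p : ℕ) [Fact p.Prime] : GroupFilterBasis (nott p) where
  sets := {U | ∃ m, U = (dep p m : Set (nott p))}
  nonempty := ⟨_, 0, rfl⟩
  inter_sets := by
    rintro _ _ ⟨m, rfl⟩ ⟨n, rfl⟩
    exact ⟨_, ⟨max m n, rfl⟩, Set.subset_inter (dep_anti (le_max_left _ _))
      (dep_anti (le_max_right _ _))⟩
  one' := by
    rintro _ ⟨m, rfl⟩
    exact one_mem _
  mul' := by
    rintro _ ⟨m, rfl⟩
    refine ⟨_, ⟨m, rfl⟩, ?_⟩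
    rintro _ ⟨a, ha, b, hb, rfl⟩
    exact mul_mem ha hb
  inv' := by
    rintro _ ⟨m, rfl⟩
    exact ⟨_, ⟨m, rfl⟩, fun a ha => inv_mem ha⟩
  conj' := by
    rintro σ _ ⟨m, rfl⟩
    exact ⟨_, ⟨m, rfl⟩, fun a ha => (dep_normal m).conj_mem a ha σ⟩

/-- The topology of the Nottingham group: the depth subgroups are a basis of neighbourhoods of one. -/
noncomputable instance nottTop (p : ℕ) [Fact p.Prime] : TopologicalSpace (nott p) :=
  (depBasis p).topology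

instance nottTopGroup (p : ℕ) [Fact p.Prime] : IsTopologicalGroup (nott p) :=
  (depBasis p).isTopologicalGroup

theorem dep_mem_nhds (m : ℕ) : (dep p m : Set (nott p)) ∈ nhds (1 : nott p) :=
  (depBasis p).mem_nhds_one ⟨m, rfl⟩

theorem dep_open (m : ℕ) : IsOpen (dep p m : Set (nott p)) :=
  Subgroup.isOpen_of_mem_nhds _ (dep_mem_nhds m)

theorem exists_dep {U : Set (nott p)} (hU : U ∈ nhds (1 : nott p)) :
    ∃ m, (dep p m : Set (nott p)) ⊆ U := by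
  obtain ⟨V, ⟨m, rfl⟩, h⟩ := (depBasis p).nhds_one_hasBasis.mem_iff.1 hU
  exact ⟨m, h⟩

theorem dep_le_closed {H : Subgroup (nott p)} (hc : IsClosed (H : Set (nott p))) {m : ℕ}
    (h : ∀ k, m ≤ k → ∀ σ ∈ dep p k, ∃ κ ∈ H, κ⁻¹ * σ ∈ dep p (k + 1)) : dep p m ≤ H := by
  intro σ hσ
  have key : ∀ n, ∃ κ ∈ H, κ⁻¹ * σ ∈ dep p (m + n) := by
    intro n
    induction n with
    | zero => exact ⟨1, one_mem _, by simpa using hσ⟩
    | succ n ih =>
      obtain ⟨κ, hκ, h1⟩ := ih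
      obtain ⟨κ', hκ', h2⟩ := h (m + n) (by omega) _ h1
      refine ⟨κ * κ', mul_mem hκ hκ', ?_⟩
      rw [mul_inv_rev, mul_assoc]
      exact h2
  by_contra hn
  have hopen : IsOpen ((H : Set (nott p))ᶜ) := hc.isOpen_compl
  have hcont : Continuous (fun τ : nott p => σ * τ) := continuous_const_mul σ
  have hU : (fun τ : nott p => σ * τ) ⁻¹' ((H : Set (nott p))ᶜ) ∈ nhds (1 : nott p) := by
    refine (hopen.preimage hcont).mem_nhds ?_
    change σ * 1 ∈ (H : Set (nott p))ᶜ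
    rw [mul_one]
    exact hn
  obtain ⟨n, hn2⟩ := exists_dep hU
  obtain ⟨κ, hκ, h1⟩ := key n
  have h2 : (κ⁻¹ * σ)⁻¹ ∈ dep p n := inv_mem (dep_anti (by omega) h1)
  have h3 := hn2 h2
  change σ * (κ⁻¹ * σ)⁻¹ ∈ (H : Set (nott p))ᶜ at h3
  rw [mul_inv_rev, inv_inv, mul_inv_cancel_left] at h3
  exact h3 hκ

end basic

section three

instance : Fact (Nat.Prime 3) := ⟨Nat.prime_three⟩

theorem step {c m k : ℕ} (hm : dep 3 m ≤ gam (nott 3) c) (hk : m + 1 ≤ k) (hk3 : 3 ≤ k)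
    (hk2 : k % 3 ≠ 2 ∨ m + 2 ≤ k) (σ : nott 3) (hσ : σ ∈ dep 3 k) :
    ∃ κ ∈ gam (nott 3) (c + 1), κ⁻¹ * σ ∈ dep 3 (k + 1) := by
  have main : ∀ i j : ℕ, 1 ≤ i → 1 ≤ j → i + j = k → m ≤ i → ((j : ZMod 3) - (i : ZMod 3)) ≠ 0 →
      ∃ κ ∈ gam (nott 3) (c + 1), κ⁻¹ * σ ∈ dep 3 (k + 1) := by
    intro i j hi hj hij hmi hne
    obtain ⟨β, hβ, hβ1⟩ := exists_lam (p := 3) hj 1
    obtain ⟨α, hα, hα1⟩ := exists_lam (p := 3) hi (lam k σ * ((j : ZMod 3) - (i : ZMod 3))⁻¹)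
    obtain ⟨h1, h2⟩ := comm_dep hi hj hα hβ
    subst hij
    refine ⟨⁅α, β⁆, ?_, ?_⟩
    · exact comm_le_gam _ _ (Subgroup.commutator_mem_commutator (hm (dep_anti hmi hα)) trivial)
    · rw [mem_dep_succ (mul_mem (inv_mem h1) hσ), lam_mul (by omega) (inv_mem h1) hσ,
        lam_inv (by omega) h1, h2, hα1, hβ1]
      field_simp
      ring
  by_cases h2 : k % 3 = 2
  · refine main (k - 2) 2 (by omega) (by omega) (by omega) (by omega) ?_
    have e : ((k - 2 : ℕ) : ZMod 3) = 0 := by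
      rw [ZMod.natCast_eq_zero_iff]; omega
    rw [e]
    decide
  · refine main (k - 1) 1 (by omega) (by omega) (by omega) (by omega) ?_
    intro h
    have e : (((k - 1 : ℕ) : ℤ) - 1 : ℤ) % 3 = 0 := by
      have h3 : (((k - 1 : ℕ) : ℤ) - 1 : ℤ) ∣ 0 := by simp
      have h4 : ((((k - 1 : ℕ) : ℤ) - 1 : ℤ) : ZMod 3) = 0 := by
        push_cast
        rw [← neg_eq_zero, ← h]
        push_cast
        ring
      rw [ZMod.intCast_zmod_eq_zero_iff_dvd] at h4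
      push_cast at h4
      omega
    omega

theorem dep_le_gam (c : ℕ) (hc : 1 ≤ c) : dep 3 (3 * c / 2) ≤ gam (nott 3) c := by
  induction c, hc using Nat.le_induction with
  | base => exact le_top
  | succ c hc ih =>
    refine dep_le_closed (gam_closed _ _) (fun k hk σ hσ => ?_)
    exact step ih (by omega) (by omega) (by omega) σ hσ

theorem comm_dep_mem {p : ℕ} [Fact p.Prime] {i j : ℕ} (hi : 1 ≤ i) (hj : 1 ≤ j) {σ τ : nott p}
    (hσ : σ ∈ dep p i) (hτ : τ ∈ dep p j) : ⁅σ, τ⁆ ∈ dep p (i + j) :=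
  (comm_dep hi hj hσ hτ).1

/-- commutators of elements whose depths are congruent modulo three are deeper. -/
theorem comm_dep_deeper {i j : ℕ} (hi : 1 ≤ i) (hj : 1 ≤ j) (hij : i % 3 = j % 3) {σ τ : nott 3}
    (hσ : σ ∈ dep 3 i) (hτ : τ ∈ dep 3 j) : ⁅σ, τ⁆ ∈ dep 3 (i + j + 1) := by
  obtain ⟨h1, h2⟩ := comm_dep hi hj hσ hτ
  rw [mem_dep_succ h1, h2]
  have : (j : ZMod 3) = (i : ZMod 3) := by
    rw [ZMod.natCast_eq_natCast_iff]
    exact hij.symm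
  rw [this]
  ring

theorem gam_le_dep (c : ℕ) (hc : 1 ≤ c) : gam (nott 3) c ≤ dep 3 (3 * c / 2) := by
  induction c, hc using Nat.le_induction with
  | base => rw [show 3 * 1 / 2 = 1 by norm_num, dep_one]; exact le_top
  | succ c hc ih =>
    obtain ⟨n, rfl⟩ : ∃ n, c = n + 1 := ⟨c - 1, by omega⟩
    refine gam_le _ n _ (Subgroup.isClosed_of_isOpen _ (dep_open _)) ?_
    rw [Subgroup.commutator_le]
    intro a ha b _
    have hb : b ∈ dep 3 1 := by rw [dep_one]; trivial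
    have ha2 := ih ha
    by_cases h2 : (n + 1) % 2 = 0
    · have := comm_dep_mem (by omega) le_rfl ha2 hb
      exact dep_anti (by omega) this
    · have := comm_dep_deeper (by omega) le_rfl (by omega) ha2 hb
      exact dep_anti (by omega) this

theorem gam_eq_dep (c : ℕ) (hc : 1 ≤ c) : gam (nott 3) c = dep 3 (3 * c / 2) :=
  le_antisymm (gam_le_dep c hc) (dep_le_gam c hc)

theorem gam_open (c : ℕ) : IsOpen (gam (nott 3) c : Set (nott 3)) := by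
  match c with
  | 0 => exact isOpen_univ
  | c + 1 => rw [gam_eq_dep (c + 1) (by omega)]; exact dep_open _

theorem cube_mem (x : nott 3) : x ^ 3 ∈ dep 3 3 := by
  rw [mem_dep_iff]
  have h3 : (3 : PowerSeries (ZMod 3)) = 0 := by
    have : ((3 : ZMod 3)) = 0 := by decide
    have h := congrArg (C (R := ZMod 3)) this
    rw [map_ofNat, map_zero] at h
    exact h
  have hx : x ∈ dep 3 1 := by rw [dep_one]; trivial
  have e : (x ^ 3).1 X - X = (x.1 (x.1 (x.1 X - X) - (x.1 X - X)) - (x.1 (x.1 X - X) - (x.1 X - X)))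
      + 3 * (x.1 (x.1 X) - x.1 X) := by
    have e1 : (x ^ 3).1 X = x.1 (x.1 (x.1 X)) := rfl
    rw [e1]
    simp only [map_sub]
    ring
  rw [e, h3, zero_mul, add_zero]
  have d1 : (X : PowerSeries (ZMod 3)) ^ 2 ∣ x.1 X - X := x.2
  have d2 := raise hx d1
  have d3 := raise hx d2
  exact d3

theorem cd (i j n : ℕ) (hi : 1 ≤ i) (hj : 1 ≤ j) (hn : i + j = n) {σ τ : nott 3} {a b c : ZMod 3}
    (hσ : σ ∈ dep 3 i) (hτ : τ ∈ dep 3 j) (la : lam i σ = a) (lb : lam j τ = b)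
    (hc : ((j : ZMod 3) - (i : ZMod 3)) * a * b = c) : ⁅σ, τ⁆ ∈ dep 3 n ∧ lam n ⁅σ, τ⁆ = c := by
  subst hn
  obtain ⟨h1, h2⟩ := comm_dep hi hj hσ hτ
  exact ⟨h1, by rw [h2, la, lb, hc]⟩

theorem lam_zpow {p : ℕ} [Fact p.Prime] {m : ℕ} (hm : 1 ≤ m) {σ : nott p} (h : σ ∈ dep p m)
    (n : ℕ) : lam m (σ ^ n) = n • lam m σ := by
  induction n with
  | zero =>
    rw [pow_zero, zero_smul, lam]
    change coeff (m + 1) (X - X) = _
    simp
  | succ n ih => rw [pow_succ, lam_mul hm (pow_mem h n) h, ih, add_smul, one_smul]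

theorem span_pair {x y : nott 3} (hx : x ∈ dep 3 1) (hx1 : lam 1 x = 1) (hy : y ∈ dep 3 2)
    (hy1 : lam 2 y = 1) (a : nott 3) : ∃ p q : ℤ, ∃ c ∈ gam (nott 3) 2, a = x ^ p * y ^ q * c := by
  have g2 : gam (nott 3) 2 = dep 3 3 := gam_eq_dep 2 (by norm_num)
  have ha : a ∈ dep 3 1 := by rw [dep_one]; trivial
  obtain ⟨p, hp⟩ : ∃ p : ℕ, lam 1 a = p • (1 : ZMod 3) := ⟨(lam 1 a).val, by simp⟩
  have h1 : (x ^ p)⁻¹ * a ∈ dep 3 2 := by
    have h0 : (x ^ p)⁻¹ * a ∈ dep 3 1 := mul_mem (inv_mem (pow_mem hx p)) ha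
    rw [mem_dep_succ h0, lam_mul le_rfl (inv_mem (pow_mem hx p)) ha, lam_inv le_rfl (pow_mem hx p),
      lam_zpow le_rfl hx, hx1, hp]
    ring
  obtain ⟨q, hq⟩ : ∃ q : ℕ, lam 2 ((x ^ p)⁻¹ * a) = q • (1 : ZMod 3) :=
    ⟨(lam 2 ((x ^ p)⁻¹ * a)).val, by simp⟩
  have h2 : (y ^ q)⁻¹ * ((x ^ p)⁻¹ * a) ∈ dep 3 3 := by
    have h0 : (y ^ q)⁻¹ * ((x ^ p)⁻¹ * a) ∈ dep 3 2 := mul_mem (inv_mem (pow_mem hy q)) h1
    rw [mem_dep_succ h0, lam_mul one_le_two (inv_mem (pow_mem hy q)) h1,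
      lam_inv one_le_two (pow_mem hy q), lam_zpow one_le_two hy, hy1, hq]
    ring
  refine ⟨p, q, (y ^ q)⁻¹ * ((x ^ p)⁻¹ * a), by rw [g2]; exact h2, ?_⟩
  rw [zpow_natCast, zpow_natCast]
  group

/-- the class in degree four is bilinear: correction of the generator of depth one. -/
theorem pair_r1 {x y : nott 3} (hx : x ∈ dep 3 1) (hx1 : lam 1 x = 1) (hy : y ∈ dep 3 2)
    (hy1 : lam 2 y = 1) : ∃ t : ℕ, ⁅⁅⁅y, x * y ^ t⁆, x * y ^ t⁆, x * y ^ t⁆ ∈ gam (nott 3) 5 := by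
  have g4 : gam (nott 3) 4 = dep 3 6 := gam_eq_dep 4 (by norm_num)
  have g5 : gam (nott 3) 5 = dep 3 7 := gam_eq_dep 5 (by norm_num)
  obtain ⟨hu, lu⟩ := cd 2 1 3 (by omega) (by omega) rfl (c := -1) hy hx hy1 hx1 (by decide)
  obtain ⟨hux, lux⟩ := cd 3 1 4 (by omega) (by omega) rfl (c := 2) hu hx lu hx1 (by decide)
  obtain ⟨huy, luy⟩ := cd 3 2 5 (by omega) (by omega) rfl (c := 1) hu hy lu hy1 (by decide)
  obtain ⟨huxy, luxy⟩ := cd 4 2 6 (by omega) (by omega) rfl (c := 2) hux hy lux hy1 (by decide)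
  obtain ⟨huyx, luyx⟩ := cd 5 1 6 (by omega) (by omega) rfl (c := 2) huy hx luy hx1 (by decide)
  have huyy : ⁅⁅⁅y, x⁆, y⁆, y⁆ ∈ dep 3 7 := (comm_dep (i := 5) (j := 2) (by omega) (by omega) huy hy).1
  have huxx : ⁅⁅⁅y, x⁆, x⁆, x⁆ ∈ dep 3 6 := comm_dep_deeper (i := 4) (j := 1) (by omega) (by omega)
    (by omega) hux hx
  obtain ⟨t, ht⟩ : ∃ t : ℕ, lam 6 ⁅⁅⁅y, x⁆, x⁆, x⁆ + t • (2 : ZMod 3) + t • (2 : ZMod 3) = 0 := by
    refine ⟨(- lam 6 ⁅⁅⁅y, x⁆, x⁆, x⁆).val, ?_⟩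
    have h4 : ∀ a : ZMod 3, a + (-a).val • (2 : ZMod 3) + (-a).val • (2 : ZMod 3) = 0 := by decide
    exact h4 _
  refine ⟨t, ?_⟩
  let S := gamSer (nott 3)
  have m : ∀ a : nott 3, a ∈ S.g 1 := S.mem1
  have e0 : S.hom 1 (x * y ^ t) (m _) = S.hom 1 x (m x) + t • S.hom 1 y (m y) := by
    have h1 : S.hom 1 (x * y ^ t) (m _) = S.hom 1 x (m x) + S.hom 1 (y ^ t) (m _) :=
      S.hom_add (m x) (m (y ^ t))
    have h2 : S.hom 1 (y ^ t) (m _) = t • S.hom 1 y (m y) := by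
      rw [NSer.hom, NSer.hom, ← map_nsmul]
      rfl
    rw [h1, h2]
  have mu : ⁅y, x⁆ ∈ S.g 2 := S.com_mem2 (m y) x
  have m1 : ⁅⁅⁅y, x⁆, x⁆, x⁆ ∈ S.g 4 := S.com_mem2 (S.com_mem2 mu x) x
  have m2 : ⁅⁅⁅y, x⁆, x⁆, y⁆ ∈ S.g 4 := S.com_mem2 (S.com_mem2 mu x) y
  have m3 : ⁅⁅⁅y, x⁆, y⁆, x⁆ ∈ S.g 4 := S.com_mem2 (S.com_mem2 mu y) x
  have m4 : ⁅⁅⁅y, x⁆, y⁆, y⁆ ∈ S.g 4 := S.com_mem2 (S.com_mem2 mu y) y
  have m5 : ⁅⁅⁅y, x * y ^ t⁆, x * y ^ t⁆, x * y ^ t⁆ ∈ S.g 4 :=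
    S.com_mem2 (S.com_mem2 (S.com_mem2 (m y) _) _) _
  have h4z : S.hom 4 _ m4 = 0 := by
    rw [S.hom_zero_iff]
    change _ ∈ gam (nott 3) 5
    rw [g5]; exact huyy
  have expand : S.hom 4 _ m5 = S.hom 4 _ m1 + t • S.hom 4 _ m2 + t • S.hom 4 _ m3 := by
    have a1 : S.hom 4 _ m5 = ⁅⁅⁅S.hom 1 y (m y), S.hom 1 (x * y ^ t) (m _)⁆,
        S.hom 1 (x * y ^ t) (m _)⁆, S.hom 1 (x * y ^ t) (m _)⁆ := by
      rw [S.lie_hom, S.lie_hom, S.lie_hom]
    have a2 : S.hom 4 _ m1 = ⁅⁅⁅S.hom 1 y (m y), S.hom 1 x (m x)⁆, S.hom 1 x (m x)⁆,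
        S.hom 1 x (m x)⁆ := by
      rw [S.lie_hom, S.lie_hom, S.lie_hom]
    have a3 : S.hom 4 _ m2 = ⁅⁅⁅S.hom 1 y (m y), S.hom 1 x (m x)⁆, S.hom 1 x (m x)⁆,
        S.hom 1 y (m y)⁆ := by
      rw [S.lie_hom, S.lie_hom, S.lie_hom]
    have a4 : S.hom 4 _ m3 = ⁅⁅⁅S.hom 1 y (m y), S.hom 1 x (m x)⁆, S.hom 1 y (m y)⁆,
        S.hom 1 x (m x)⁆ := by
      rw [S.lie_hom, S.lie_hom, S.lie_hom]
    have a5 : S.hom 4 _ m4 = ⁅⁅⁅S.hom 1 y (m y), S.hom 1 x (m x)⁆, S.hom 1 y (m y)⁆,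
        S.hom 1 y (m y)⁆ := by
      rw [S.lie_hom, S.lie_hom, S.lie_hom]
    rw [a5] at h4z
    rw [a1, a2, a3, a4, e0]
    simp only [lie_add, add_lie, lie_nsmul, nsmul_lie, lie_self, smul_zero, add_zero,
      h4z]
    abel
  have hsum : S.hom 4 _ m1 + t • S.hom 4 _ m2 + t • S.hom 4 _ m3
      = S.hom 4 (⁅⁅⁅y, x⁆, x⁆, x⁆ * ⁅⁅⁅y, x⁆, x⁆, y⁆ ^ t * ⁅⁅⁅y, x⁆, y⁆, x⁆ ^ t)
        (mul_mem (mul_mem m1 (pow_mem m2 t)) (pow_mem m3 t)) := by
    rw [S.hom_add (mul_mem m1 (pow_mem m2 t)) (pow_mem m3 t), S.hom_add m1 (pow_mem m2 t)]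
    have hp : ∀ (a : nott 3) (ha : a ∈ S.g 4), S.hom 4 (a ^ t) (pow_mem ha t) = t • S.hom 4 a ha := by
      intro a ha
      rw [NSer.hom, NSer.hom, ← map_nsmul]
      rfl
    rw [hp _ m2, hp _ m3]
  have hz : S.hom 4 _ m5 = 0 := by
    rw [expand, hsum, S.hom_zero_iff]
    change _ ∈ gam (nott 3) 5
    rw [g5]
    have q1 : ⁅⁅⁅y, x⁆, x⁆, x⁆ * ⁅⁅⁅y, x⁆, x⁆, y⁆ ^ t ∈ dep 3 6 := mul_mem huxx (pow_mem huxy t)
    rw [mem_dep_succ (mul_mem q1 (pow_mem huyx t)), lam_mul (by omega) q1 (pow_mem huyx t),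
      lam_mul (by omega) huxx (pow_mem huxy t), lam_zpow (by omega) huxy, lam_zpow (by omega) huyx,
      luxy, luyx]
    exact ht
  exact (S.hom_zero_iff m5).1 hz

theorem exists_pair : ∃ x y : nott 3, (∀ a : nott 3, ∃ p q : ℤ, ∃ c ∈ gam (nott 3) 2,
      a = x ^ p * y ^ q * c) ∧ ⁅⁅⁅y, x⁆, x⁆, x⁆ ∈ gam (nott 3) 5 ∧
      ⁅⁅⁅y, x⁆, y⁆, y⁆ ∈ gam (nott 3) 5 ∧ ⁅⁅⁅⁅y, x⁆, x⁆, y⁆, ⁅y, x⁆⁆ ∈ gam (nott 3) 7 := by
  have g5 : gam (nott 3) 5 = dep 3 7 := gam_eq_dep 5 (by norm_num)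
  have g7 : gam (nott 3) 7 = dep 3 10 := gam_eq_dep 7 (by norm_num)
  obtain ⟨x0, hx0, hx01⟩ := exists_lam (p := 3) (m := 1) le_rfl 1
  obtain ⟨y, hy, hy1⟩ := exists_lam (p := 3) (m := 2) (by norm_num) 1
  obtain ⟨t, ht⟩ := pair_r1 hx0 hx01 hy hy1
  have hx : x0 * y ^ t ∈ dep 3 1 := by rw [dep_one]; trivial
  have hyt : y ^ t ∈ dep 3 2 := pow_mem hy t
  have hx1 : lam 1 (x0 * y ^ t) = 1 := by
    rw [lam_mul le_rfl hx0 (dep_anti one_le_two hyt), hx01,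
      (mem_dep_succ (dep_anti one_le_two hyt)).1 hyt, add_zero]
  refine ⟨x0 * y ^ t, y, span_pair hx hx1 hy hy1, ht, ?_, ?_⟩
  · obtain ⟨hu, lu⟩ := cd 2 1 3 (by omega) (by omega) rfl (c := -1) hy hx hy1 hx1 (by decide)
    obtain ⟨huy, luy⟩ := cd 3 2 5 (by omega) (by omega) rfl (c := 1) hu hy lu hy1 (by decide)
    rw [g5]
    exact (comm_dep (i := 5) (j := 2) (by omega) (by omega) huy hy).1
  · obtain ⟨hu, lu⟩ := cd 2 1 3 (by omega) (by omega) rfl (c := -1) hy hx hy1 hx1 (by decide)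
    obtain ⟨hux, lux⟩ := cd 3 1 4 (by omega) (by omega) rfl (c := 2) hu hx lu hx1 (by decide)
    obtain ⟨huxy, luxy⟩ := cd 4 2 6 (by omega) (by omega) rfl (c := 2) hux hy lux hy1 (by decide)
    rw [g7]
    exact comm_dep_deeper (i := 6) (j := 3) (by omega) (by omega) (by omega) huxy hu

end three

end Pool.Agent.Lib.NOT62
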