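import Mathlib
import Pool.Agent.Lib.NOT62.Nott

/-!
Approximations to the Nottingham group over the field with three elements: assembly.
-/

namespace Pool.Agent.Lib.NOT62

open PowerSeries
open scoped commutatorElement

theorem inf_nott (i : ℕ) (hi : 1 ≤ i) : ¬ gam (nott 3) i ≤ gam (nott 3) (i + 1) := by
  intro h
  rw [gam_eq_dep i hi, gam_eq_dep (i + 1) (by omega)] at h
  obtain ⟨σ, hσ, h1⟩ := exists_lam (p := 3) (m := 3 * i / 2) (by omega) 1
  have h2 : σ ∈ dep 3 (3 * i / 2 + 1) := dep_anti (by omega) (h hσ)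
  rw [mem_dep_succ hσ, h1] at h2
  exact one_ne_zero h2

theorem gen_nott : ∃ x y : nott 3, (gamSer (nott 3)).Gen x y := by
  obtain ⟨x, y, hs, h1, h2, h3⟩ := exists_pair
  have g2 : gam (nott 3) 2 = dep 3 3 := gam_eq_dep 2 (by norm_num)
  refine ⟨x, y, hs, ?_, ?_, ?_, h1, h2, h3, inf_nott⟩
  · change x ^ 3 ∈ gam (nott 3) 2
    rw [g2]; exact cube_mem x
  · change y ^ 3 ∈ gam (nott 3) 2
    rw [g2]; exact cube_mem y
  · intro i hi a ha
    exact (NSer.mem_K_iff (S := gamSer (nott 3)) i a).1 (gen_of_open hs gam_open i hi ha)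

theorem index_nott : (gam (nott 3) 7).index ≠ 0 := by
  obtain ⟨x, y, h⟩ := gen_nott
  have hf : Finite ((gamSer (nott 3)).A 1) :=
    Nat.finite_of_card_ne_zero (by rw [NSer.card_one h]; norm_num)
  exact index_ne_zero x y (fun i hi => gen_of_open h.span gam_open i hi) hf 6

theorem card_nott_even (j : ℕ) (hj : 1 ≤ j) : Nat.card ((gamSer (nott 3)).A (2 * j)) = 3 := by
  obtain ⟨x, y, h⟩ := gen_nott
  have h1 : Nat.card ((gamSer (nott 3)).A (2 * j)) ≤ 3 := by
    let S := gamSer (nott 3)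
    let f : S.A (2 * j) → ZMod 3 := fun w => lam (3 * j) (S.cl_surj w).choose
    have hf : Function.Injective f := by
      intro w w' hww
      have e1 := (S.cl_surj w).choose_spec.choose_spec
      have e2 := (S.cl_surj w').choose_spec.choose_spec
      have m1 : (S.cl_surj w).choose ∈ gam (nott 3) (2 * j) := (S.cl_surj w).choose_spec.choose
      have m2 : (S.cl_surj w').choose ∈ gam (nott 3) (2 * j) := (S.cl_surj w').choose_spec.choose
      rw [← e1, ← e2, S.cl_eq_iff]
      change _ ∈ gam (nott 3) (2 * j + 1)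
      rw [gam_eq_dep (2 * j) (by omega), show 3 * (2 * j) / 2 = 3 * j by omega] at m1 m2
      rw [gam_eq_dep (2 * j + 1) (by omega), show 3 * (2 * j + 1) / 2 = 3 * j + 1 by omega,
        mem_dep_succ (mul_mem (inv_mem m1) m2), lam_mul (by omega) (inv_mem m1) m2,
        lam_inv (by omega) m1]
      have : lam (3 * j) (S.cl_surj w).choose = lam (3 * j) (S.cl_surj w').choose := hww
      rw [this]; ring
    have := Nat.card_le_card_of_injective f hf
    rwa [Nat.card_zmod] at this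
  have h2 := (NSer.core h (2 * j) (by omega)).2.2 (by omega)
  omega

section approx

variable {G : Type*} [Group G] [TopologicalSpace G] [IsTopologicalGroup G]

theorem gen_approx (hG : IsProP 3 G) (hinf : Infinite G)
    (f : (G ⧸ gam G 7) ≃* (nott 3 ⧸ gam (nott 3) 7)) : ∃ x y : G, (gamSer G).Gen x y := by
  have := hG.compact
  have := hG.hausdorff
  obtain ⟨x, y, h⟩ := gen_nott
  have hJ : IsOpen (gam (nott 3) 7 : Set (nott 3)) := gam_open 7
  have hi7 : (gam G 7).index ≠ 0 := by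
    have e : (gam G 7).index = (gam (nott 3) 7).index := Nat.card_congr f.toEquiv
    rw [e]; exact index_nott
  have hfi : (gam G 7).FiniteIndex := ⟨hi7⟩
  have hGo : IsOpen (gam G 7 : Set G) :=
    Subgroup.isOpen_of_isClosed_of_finiteIndex _ (gam_closed G 7)
  obtain ⟨u, hu⟩ := QuotientGroup.mk_surjective (f.symm (x : nott 3 ⧸ gam (nott 3) 7))
  obtain ⟨v, hv⟩ := QuotientGroup.mk_surjective (f.symm (y : nott 3 ⧸ gam (nott 3) 7))
  have fu : f (u : G ⧸ gam G 7) = (x : nott 3 ⧸ gam (nott 3) 7) := by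
    rw [hu, MulEquiv.apply_symm_apply]
  have fv : f (v : G ⧸ gam G 7) = (y : nott 3 ⧸ gam (nott 3) 7) := by
    rw [hv, MulEquiv.apply_symm_apply]
  have fc : ∀ {a b : G} {c d : nott 3}, f (a : G ⧸ gam G 7) = (c : nott 3 ⧸ gam (nott 3) 7) →
      f (b : G ⧸ gam G 7) = (d : nott 3 ⧸ gam (nott 3) 7) →
      f ((⁅a, b⁆ : G) : G ⧸ gam G 7) = ((⁅c, d⁆ : nott 3) : nott 3 ⧸ gam (nott 3) 7) := by
    intro a b c d h1 h2
    have e1 : ((⁅a, b⁆ : G) : G ⧸ gam G 7) = ⁅(a : G ⧸ gam G 7), (b : G ⧸ gam G 7)⁆ := rfl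
    have e2 : ((⁅c, d⁆ : nott 3) : nott 3 ⧸ gam (nott 3) 7)
      = ⁅(c : nott 3 ⧸ gam (nott 3) 7), (d : nott 3 ⧸ gam (nott 3) 7)⁆ := rfl
    rw [e1, e2, map_commutatorElement, h1, h2]
  have hs : ∀ a : G, ∃ p q : ℤ, ∃ c ∈ gam G 2, a = u ^ p * v ^ q * c := by
    intro a
    obtain ⟨b, hb⟩ := QuotientGroup.mk_surjective (f (a : G ⧸ gam G 7))
    obtain ⟨p, q, c, hc, e⟩ := h.span b
    refine ⟨p, q, (u ^ p * v ^ q)⁻¹ * a, ?_, by group⟩
    have e3 : f (((u ^ p * v ^ q)⁻¹ * a : G) : G ⧸ gam G 7) = (c : nott 3 ⧸ gam (nott 3) 7) := by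
      have e4 : (((u ^ p * v ^ q)⁻¹ * a : G) : G ⧸ gam G 7)
        = ((u : G ⧸ gam G 7) ^ p * (v : G ⧸ gam G 7) ^ q)⁻¹ * (a : G ⧸ gam G 7) := rfl
      have e5 : (c : nott 3 ⧸ gam (nott 3) 7)
        = ((x : nott 3 ⧸ gam (nott 3) 7) ^ p * (y : nott 3 ⧸ gam (nott 3) 7) ^ q)⁻¹
          * (b : nott 3 ⧸ gam (nott 3) 7) := by
        have : c = (x ^ p * y ^ q)⁻¹ * b := by rw [e]; group
        rw [this]
        rfl
      rw [e4, map_mul, map_inv, map_mul, map_zpow, map_zpow, fu, fv, e5, hb]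
    exact (transfer hGo hJ f (n := 1) (by norm_num) e3).2 hc
  have hK : ∀ i, 1 ≤ i → gam G (i + 1) ≤ (gamSer G).K u v i := fun i hi => gen_of_compact hs i hi
  have hA1 : Finite ((gamSer G).A 1) := by
    have h2 : (gam G 2).index ≠ 0 := by
      intro h0
      have := Subgroup.index_dvd_of_le ((gamSer G).anti' (by norm_num : 2 ≤ 7))
      change (gam G 2).index ∣ (gam G 7).index at this
      rw [h0, zero_dvd_iff] at this
      exact hi7 this
    rw [← Subgroup.relIndex_mul_index (gam_anti G 1)] at h2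
    exact Nat.finite_of_card_ne_zero (left_ne_zero_of_mul h2)
  refine ⟨u, v, hs, ?_, ?_, ?_, ?_, ?_, ?_, ?_⟩
  · refine (transfer hGo hJ f (n := 1) (by norm_num) (b := x ^ 3) ?_).2 h.cx
    have e4 : ((u ^ 3 : G) : G ⧸ gam G 7) = (u : G ⧸ gam G 7) ^ 3 := rfl
    rw [e4, map_pow, fu]
    rfl
  · refine (transfer hGo hJ f (n := 1) (by norm_num) (b := y ^ 3) ?_).2 h.cy
    have e4 : ((v ^ 3 : G) : G ⧸ gam G 7) = (v : G ⧸ gam G 7) ^ 3 := rfl
    rw [e4, map_pow, fv]
    rfl
  · intro i hi a ha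
    exact (NSer.mem_K_iff (S := gamSer G) i a).1 (hK i hi ha)
  · exact (transfer hGo hJ f (n := 4) (by norm_num) (fc (fc (fc fv fu) fu) fu)).2 h.r1
  · exact (transfer hGo hJ f (n := 4) (by norm_num) (fc (fc (fc fv fu) fv) fv)).2 h.r2
  · exact (transfer hGo hJ f (n := 6) (by norm_num) (fc (fc (fc (fc fv fu) fu) fv) (fc fv fu))).2 h.r3
  · exact fun i hi => inf_of_infinite Nat.prime_three hG hinf u v hK hA1 i hi

/-- The lower central factor `gam G i / gam G (i+1)`. -/
abbrev Fac (G : Type*) [Group G] [TopologicalSpace G] [IsTopologicalGroup G] (i : ℕ) : Type _ :=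
  gam G i ⧸ (gam G (i + 1)).subgroupOf (gam G i)

theorem main (hG : IsProP 3 G) (hinf : Infinite G)
    (happ : Nonempty ((G ⧸ gam G 7) ≃* (nott 3 ⧸ gam (nott 3) 7))) (i : ℕ) (hi : 1 ≤ i) :
    (¬ 6 ∣ i ∨ i = 6 → Nonempty (Fac G i ≃* Fac (nott 3) i)) ∧
    (6 ∣ i → Nonempty (Fac G i ≃* Fac (nott 3) i) ∨
      Nonempty (Fac G i ≃* Fac (nott 3) i × Multiplicative (ZMod 3))) := by
  obtain ⟨f⟩ := happ
  obtain ⟨u, v, hg⟩ := gen_approx hG hinf f
  obtain ⟨x, y, hj⟩ := gen_nott
  have cG := NSer.core hg i hi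
  have cJ := NSer.core hj i hi
  have tG := NSer.three_smulA hg i
  have tJ := NSer.three_smulA hj i
  have same : Nat.card ((gamSer G).A i) ≠ 0 → Nat.card ((gamSer G).A i) =
      Nat.card ((gamSer (nott 3)).A i) → Nonempty (Fac G i ≃* Fac (nott 3) i) := by
    intro h0 h
    obtain ⟨e⟩ := iso_of_card tG tJ h0 h
    exact ⟨MulEquiv.toAdditive.symm e⟩
  have evenJ : i % 2 = 0 → Nat.card ((gamSer (nott 3)).A i) = 3 := by
    intro h2
    obtain ⟨j, rfl⟩ : ∃ j, i = 2 * j := ⟨i / 2, by omega⟩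
    exact card_nott_even j (by omega)
  refine ⟨fun h6 => ?_, fun h6 => ?_⟩
  · rcases Nat.mod_two_eq_zero_or_one i with h2 | h2
    · have h1 := cG.2.1 h2 h6
      exact same (by omega) (by rw [h1, evenJ h2])
    · have h1 := cG.1 h2
      exact same (by omega) (by rw [h1, cJ.1 h2])
  · have h2 : i % 2 = 0 := by omega
    rcases cG.2.2 h2 with h1 | h1
    · exact Or.inl (same (by omega) (by rw [h1, evenJ h2]))
    · right
      have tP : ∀ m : (gamSer (nott 3)).A i × ZMod 3, (3 : ℤ) • m = 0 := by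
        rintro ⟨a, b⟩
        rw [Prod.smul_mk, tJ a]
        have : (3 : ℤ) • b = 0 := by
          rw [zsmul_eq_mul]
          have : ((3 : ℤ) : ZMod 3) = 0 := by decide
          rw [this, zero_mul]
        rw [this]
        rfl
      have hc : Nat.card ((gamSer G).A i) = Nat.card ((gamSer (nott 3)).A i × ZMod 3) := by
        rw [Nat.card_prod, evenJ h2, Nat.card_zmod, h1]
      obtain ⟨e⟩ := iso_of_card tG tP (by omega) hc
      refine ⟨?_⟩
      exact
        { toFun := fun a => (Additive.toMul (e (Additive.ofMul a)).1,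
            Multiplicative.ofAdd (e (Additive.ofMul a)).2)
          invFun := fun b => Additive.toMul (e.symm (Additive.ofMul b.1, Multiplicative.toAdd b.2))
          left_inv := fun a => e.symm_apply_apply (Additive.ofMul a)
          right_inv := fun b => by
            have h := e.apply_symm_apply (Additive.ofMul b.1, Multiplicative.toAdd b.2)
            exact Prod.ext (congrArg Prod.fst h) (congrArg Prod.snd h)
          map_mul' := fun a b => by
            have h := e.map_add (Additive.ofMul a) (Additive.ofMul b)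
            exact Prod.ext (congrArg Prod.fst h) (congrArg Prod.snd h) }

end approx

end Pool.Agent.Lib.NOT62
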