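import Mathlib
import Pool.Agent.Lib.NOT62.Nott
import Pool.Agent.Lib.NOT62.CoreP

/-!
The Nottingham group for `p = q + 5`: lower central series and relations in low degree.
-/

namespace Pool.Agent.Lib.NOT62.P

open PowerSeries
open scoped commutatorElement
open Pool.Agent.Lib.NOT62

section general

variable {p : ℕ} [Fact p.Prime]

/-- the `p`-th power of an element has depth at least `p`. -/
theorem pow_p_mem (x : nott p) : x ^ p ∈ dep p p := by
  have hx : x ∈ dep p 1 := by rw [dep_one]; trivial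
  let f : Module.End (ZMod p) (PowerSeries (ZMod p)) := x.1.toLinearMap
  have hch : CharP (Module.End (ZMod p) (PowerSeries (ZMod p))) p :=
    charP_of_injective_algebraMap
      (algebraMap (ZMod p) (Module.End (ZMod p) (PowerSeries (ZMod p)))).injective p
  have h1 : (f - 1) ^ p = f ^ p - 1 := by
    rw [sub_pow_char_of_commute p (Commute.one_right f), one_pow]
  have h2 : ∀ n : ℕ, ∀ g : PowerSeries (ZMod p), (f ^ n) g = (x ^ n).1 g := by
    intro n
    induction n with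
    | zero => intro g; rfl
    | succ n ih =>
      intro g
      rw [pow_succ', pow_succ', Module.End.mul_apply, ih]
      rfl
  have h3 : ∀ n : ℕ, (X : PowerSeries (ZMod p)) ^ (n + 1) ∣ ((f - 1) ^ n) X := by
    intro n
    induction n with
    | zero => simp
    | succ n ih =>
      rw [pow_succ' (f - 1) n, Module.End.mul_apply]
      have := raise hx ih
      exact this
  rw [mem_dep_iff, ← h2]
  have h4 := h3 p
  rw [h1] at h4
  exact h4

/-- the depths of the lower central series. -/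
def mu (p : ℕ) : ℕ → ℕ
  | 0 => 1
  | 1 => 1
  | c + 2 => if mu p (c + 1) % p = 1 then mu p (c + 1) + 2 else mu p (c + 1) + 1

omit [Fact p.Prime] in
theorem mu_pos (c : ℕ) : 1 ≤ mu p c := by
  match c with
  | 0 => exact le_rfl
  | 1 => exact le_rfl
  | c + 2 =>
    rw [mu]
    split_ifs <;> omega

theorem cast_ne (h2 : p ≠ 2) {k : ℕ} (h : k % p ≠ 2) : (1 : ZMod p) - ((k - 1 : ℕ) : ZMod p) ≠ 0 ∨
    k = 0 := by
  by_contra hn
  rw [not_or, not_ne_iff] at hn
  obtain ⟨h1, h0⟩ := hn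
  have hp2 : 2 < p := lt_of_le_of_ne (Fact.out : p.Prime).two_le (Ne.symm h2)
  have h3 : ((2 : ℕ) : ZMod p) = (k : ZMod p) := by
    have : ((k : ℕ) : ZMod p) = ((k - 1 : ℕ) : ZMod p) + 1 := by
      rw [← Nat.cast_succ, Nat.succ_eq_add_one, Nat.sub_add_cancel (by omega)]
    rw [this, ← sub_eq_zero.1 h1]
    norm_num
  rw [ZMod.natCast_eq_natCast_iff'] at h3
  rw [Nat.mod_eq_of_lt hp2] at h3
  exact h h3.symm

theorem stepP (h2 : p ≠ 2) {c m k : ℕ} (hm : dep p m ≤ gam (nott p) c) (hm1 : 1 ≤ m)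
    (hk : m + 1 ≤ k) (hk2 : k % p ≠ 2 ∨ m + 2 ≤ k) (σ : nott p) (hσ : σ ∈ dep p k) :
    ∃ κ ∈ gam (nott p) (c + 1), κ⁻¹ * σ ∈ dep p (k + 1) := by
  have hp2 : 2 < p := lt_of_le_of_ne (Fact.out : p.Prime).two_le (Ne.symm h2)
  have main : ∀ i j : ℕ, 1 ≤ i → 1 ≤ j → i + j = k → m ≤ i → ((j : ZMod p) - (i : ZMod p)) ≠ 0 →
      ∃ κ ∈ gam (nott p) (c + 1), κ⁻¹ * σ ∈ dep p (k + 1) := by
    intro i j hi hj hij hmi hne
    obtain ⟨β, hβ, hβ1⟩ := exists_lam (p := p) hj 1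
    obtain ⟨α, hα, hα1⟩ := exists_lam (p := p) hi (lam k σ * ((j : ZMod p) - (i : ZMod p))⁻¹)
    obtain ⟨h1, h2⟩ := comm_dep hi hj hα hβ
    subst hij
    refine ⟨⁅α, β⁆, ?_, ?_⟩
    · exact comm_le_gam _ _ (Subgroup.commutator_mem_commutator (hm (dep_anti hmi hα)) trivial)
    · rw [mem_dep_succ (mul_mem (inv_mem h1) hσ), lam_mul (by omega) (inv_mem h1) hσ,
        lam_inv (by omega) h1, h2, hα1, hβ1]
      field_simp
      ring
  by_cases h2' : k % p = 2
  · refine main (k - 2) 2 (by omega) (by omega) (by omega) (by omega) ?_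
    have e : ((k - 2 : ℕ) : ZMod p) = 0 := by
      rw [ZMod.natCast_eq_zero_iff]
      have := Nat.dvd_sub_mod (n := p) k
      rwa [h2'] at this
    rw [e, sub_zero]
    intro h0
    rw [ZMod.natCast_eq_zero_iff] at h0
    have := Nat.le_of_dvd (by norm_num) h0
    omega
  · refine main (k - 1) 1 (by omega) (by omega) (by omega) (by omega) ?_
    rcases cast_ne h2 h2' with h3 | h3
    · rw [Nat.cast_one]; exact h3
    · omega

theorem dep_le_gamP (h2 : p ≠ 2) (c : ℕ) (hc : 1 ≤ c) : dep p (mu p c) ≤ gam (nott p) c := by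
  induction c, hc using Nat.le_induction with
  | base => exact le_top
  | succ c hc ih =>
    refine dep_le_closed (gam_closed _ _) (fun k hk σ hσ => ?_)
    obtain ⟨n, rfl⟩ : ∃ n, c = n + 1 := ⟨c - 1, by omega⟩
    rw [mu] at hk
    refine stepP h2 ih (mu_pos _) ?_ ?_ σ hσ
    · split_ifs at hk <;> omega
    · by_cases h3 : mu p (n + 1) % p = 1
      · rw [if_pos h3] at hk
        exact Or.inr hk
      · rw [if_neg h3] at hk
        rcases Nat.lt_or_ge k (mu p (n + 1) + 2) with h4 | h4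
        · left
          have h5 : k = mu p (n + 1) + 1 := by omega
          intro h6
          apply h3
          have hp2 : 2 < p := lt_of_le_of_ne (Fact.out : p.Prime).two_le (Ne.symm h2)
          have h7 : mu p (n + 1) + 1 ≡ 1 + 1 [MOD p] := by
            rw [Nat.ModEq, ← h5, h6, Nat.mod_eq_of_lt hp2]
          have h8 := Nat.ModEq.add_right_cancel' 1 h7
          rw [Nat.ModEq, Nat.mod_eq_of_lt (by omega : 1 < p)] at h8
          exact h8
        · exact Or.inr h4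

theorem comm_dep_deeperP {i j : ℕ} (hi : 1 ≤ i) (hj : 1 ≤ j) (hij : i % p = j % p) {σ τ : nott p}
    (hσ : σ ∈ dep p i) (hτ : τ ∈ dep p j) : ⁅σ, τ⁆ ∈ dep p (i + j + 1) := by
  obtain ⟨h1, h2⟩ := comm_dep hi hj hσ hτ
  rw [mem_dep_succ h1, h2]
  have : (j : ZMod p) = (i : ZMod p) := by
    rw [ZMod.natCast_eq_natCast_iff]
    exact hij.symm
  rw [this]
  ring

theorem gam_le_depP (h2 : p ≠ 2) (c : ℕ) (hc : 1 ≤ c) : gam (nott p) c ≤ dep p (mu p c) := by
  induction c, hc using Nat.le_induction with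
  | base => rw [mu, dep_one]; exact le_top
  | succ c hc ih =>
    obtain ⟨n, rfl⟩ : ∃ n, c = n + 1 := ⟨c - 1, by omega⟩
    refine gam_le _ n _ (Subgroup.isClosed_of_isOpen _ (dep_open _)) ?_
    rw [Subgroup.commutator_le]
    intro a ha b _
    have hb : b ∈ dep p 1 := by rw [dep_one]; trivial
    have ha2 := ih ha
    rw [mu]
    have hp2 : 2 < p := lt_of_le_of_ne (Fact.out : p.Prime).two_le (Ne.symm h2)
    split_ifs with h3
    · exact comm_dep_deeperP (mu_pos _) le_rfl (by rw [h3, Nat.mod_eq_of_lt (by omega)]) ha2 hb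
    · exact comm_dep_mem (mu_pos _) le_rfl ha2 hb

theorem gam_eq_depP (h2 : p ≠ 2) (c : ℕ) (hc : 1 ≤ c) : gam (nott p) c = dep p (mu p c) :=
  le_antisymm (gam_le_depP h2 c hc) (dep_le_gamP h2 c hc)

theorem gam_openP (h2 : p ≠ 2) (c : ℕ) : IsOpen (gam (nott p) c : Set (nott p)) := by
  match c with
  | 0 => exact isOpen_univ
  | c + 1 => rw [gam_eq_depP h2 (c + 1) (by omega)]; exact dep_open _

omit [Fact p.Prime] in
theorem mu_succ_lt (c : ℕ) (hc : 1 ≤ c) : mu p c < mu p (c + 1) := by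
  obtain ⟨n, rfl⟩ : ∃ n, c = n + 1 := ⟨c - 1, by omega⟩
  rw [mu]
  split_ifs <;> omega

end general

/-- values of `mu`. -/
theorem mu_val (q t : ℕ) : mu (q + 5) (t * (q + 4) + 1) = t * (q + 5) + 1 ∧
    ∀ r, r ≤ q + 2 → mu (q + 5) (t * (q + 4) + 2 + r) = t * (q + 5) + 3 + r := by
  have aux : ∀ t, mu (q + 5) (t * (q + 4) + 1) = t * (q + 5) + 1 →
      ∀ r, r ≤ q + 2 → mu (q + 5) (t * (q + 4) + 2 + r) = t * (q + 5) + 3 + r := by
    intro t h1 r
    induction r with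
    | zero =>
      intro _
      have e : mu (q + 5) (t * (q + 4) + 2 + 0) = if mu (q + 5) (t * (q + 4) + 1) % (q + 5) = 1
        then mu (q + 5) (t * (q + 4) + 1) + 2 else mu (q + 5) (t * (q + 4) + 1) + 1 := rfl
      rw [e, h1, if_pos]
      rw [mul_comm, Nat.mul_add_mod, Nat.mod_eq_of_lt (by omega)]
    | succ r ih =>
      intro hr
      have h3 := ih (by omega)
      have e : mu (q + 5) (t * (q + 4) + 2 + (r + 1)) = if mu (q + 5) (t * (q + 4) + 2 + r) % (q + 5) = 1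
        then mu (q + 5) (t * (q + 4) + 2 + r) + 2 else mu (q + 5) (t * (q + 4) + 2 + r) + 1 := by
        rw [show t * (q + 4) + 2 + (r + 1) = (t * (q + 4) + 1 + r) + 2 by ring, mu,
          show t * (q + 4) + 1 + r + 1 = t * (q + 4) + 2 + r by ring]
      rw [e, h3, if_neg]
      · ring
      · rw [add_assoc, mul_comm, Nat.mul_add_mod, Nat.mod_eq_of_lt (by omega)]
        omega
  induction t with
  | zero =>
    have h1 : mu (q + 5) (0 * (q + 4) + 1) = 0 * (q + 5) + 1 := by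
      rw [zero_mul, zero_add]
      rw [zero_mul]
      rfl
    exact ⟨h1, aux 0 h1⟩
  | succ t ih =>
    have h1 : mu (q + 5) ((t + 1) * (q + 4) + 1) = (t + 1) * (q + 5) + 1 := by
      have h3 := ih.2 (q + 2) le_rfl
      have e : mu (q + 5) ((t + 1) * (q + 4) + 1)
        = if mu (q + 5) (t * (q + 4) + 2 + (q + 2)) % (q + 5) = 1
        then mu (q + 5) (t * (q + 4) + 2 + (q + 2)) + 2
        else mu (q + 5) (t * (q + 4) + 2 + (q + 2)) + 1 := by
        rw [show (t + 1) * (q + 4) + 1 = (t * (q + 4) + q + 3) + 2 by ring, mu,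
          show t * (q + 4) + q + 3 + 1 = t * (q + 4) + 2 + (q + 2) by ring]
      rw [e, h3, if_neg]
      · ring
      · rw [show t * (q + 5) + 3 + (q + 2) = (q + 5) * (t + 1) + 0 by ring, Nat.mul_add_mod,
          Nat.zero_mod]
        omega
    exact ⟨h1, aux _ h1⟩

section lead

variable {q : ℕ} [hq : Fact (q + 5).Prime]

omit hq in
theorem ne2 : q + 5 ≠ 2 := by omega

/-- depth at least `m` with coefficient `a` in depth `m`. -/
def DL (q : ℕ) [Fact (q + 5).Prime] (m : ℕ) (σ : nott (q + 5)) (a : ZMod (q + 5)) : Prop :=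
  σ ∈ dep (q + 5) m ∧ lam m σ = a

theorem DL.comm {i j n : ℕ} {σ τ : nott (q + 5)} {a b c : ZMod (q + 5)} (h : DL q i σ a)
    (h' : DL q j τ b) (hi : 1 ≤ i) (hj : 1 ≤ j) (hn : i + j = n)
    (hc : ((j : ZMod (q + 5)) - (i : ZMod (q + 5))) * a * b = c) : DL q n ⁅σ, τ⁆ c := by
  subst hn
  obtain ⟨h1, h2⟩ := comm_dep hi hj h.1 h'.1
  exact ⟨h1, by rw [h2, h.2, h'.2, hc]⟩

theorem pwg_dep {x m : nott (q + 5)} {i : ℕ} (hi : 1 ≤ i) (hm : m ∈ dep (q + 5) i) (n : ℕ) :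
    pwg x n m ∈ dep (q + 5) (i + n) := by
  induction n with
  | zero => exact hm
  | succ n ih =>
    exact comm_dep_mem (i := i + n) (by omega) le_rfl ih (by rw [dep_one]; trivial)

theorem cast_ne_zero {k : ℕ} (h1 : 1 ≤ k) (h2 : k < q + 5) : ((k : ℕ) : ZMod (q + 5)) ≠ 0 := by
  intro h
  rw [ZMod.natCast_eq_zero_iff] at h
  have := Nat.le_of_dvd h1 h
  omega

theorem pwy {x y : nott (q + 5)} (hx : DL q 1 x 1) (hy : DL q 2 y 1) (n : ℕ) (hn : n ≤ q + 3) :
    ∃ a, a ≠ 0 ∧ DL q (n + 2) (pwg x n y) a := by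
  induction n with
  | zero => exact ⟨1, one_ne_zero, hy⟩
  | succ n ih =>
    obtain ⟨a, ha, h⟩ := ih (by omega)
    refine ⟨-((n + 1 : ℕ) : ZMod (q + 5)) * a, mul_ne_zero (neg_ne_zero.2
      (cast_ne_zero (by omega) (by omega))) ha, h.comm hx (by omega) le_rfl (by omega) ?_⟩
    push_cast
    ring

theorem castp : ((q : ZMod (q + 5)) + 5) = 0 := by
  have := CharP.cast_eq_zero (ZMod (q + 5)) (q + 5)
  push_cast at this
  exact this

structure Blk (q : ℕ) [Fact (q + 5).Prime] (x y a : nott (q + 5)) (m : ℕ) (l : ZMod (q + 5)) :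
    Prop where
  xy : DL q (m + 3) ⁅⁅a, x⁆, y⁆ l
  yy : ⁅⁅a, y⁆, y⁆ ∈ dep (q + 5) (m + 4)
  yx : ⁅⁅a, y⁆, x⁆ * ⁅⁅a, x⁆, y⁆ ^ 2 ∈ dep (q + 5) (m + 4)

theorem blk {x y a : nott (q + 5)} {m : ℕ} {l : ZMod (q + 5)} (hx : DL q 1 x 1) (hy : DL q 2 y 1)
    (hm : ((m : ℕ) : ZMod (q + 5)) = 0) (hm1 : 1 ≤ m) (ha : DL q m a l) : Blk q x y a m l := by
  have h1 : DL q (m + 1) ⁅a, x⁆ l := ha.comm hx hm1 le_rfl rfl (by rw [hm]; simp)
  have h2 : DL q (m + 2) ⁅a, y⁆ (2 * l) := ha.comm hy hm1 one_le_two rfl (by rw [hm]; simp)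
  have h3 : DL q (m + 3) ⁅⁅a, x⁆, y⁆ l := h1.comm hy (by omega) one_le_two (by omega)
    (by push_cast; rw [hm]; ring)
  have h4 : DL q (m + 3) ⁅⁅a, y⁆, x⁆ (-2 * l) := h2.comm hx (by omega) le_rfl (by omega)
    (by push_cast; rw [hm]; ring)
  have h5 : DL q (m + 4) ⁅⁅a, y⁆, y⁆ _ := h2.comm hy (by omega) one_le_two (by omega) rfl
  refine ⟨h3, h5.1, ?_⟩
  rw [mem_dep_succ (mul_mem h4.1 (pow_mem h3.1 2)), lam_mul (by omega) h4.1 (pow_mem h3.1 2),
    lam_zpow (by omega) h3.1, h4.2, h3.2]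
  rw [nsmul_eq_mul]
  push_cast
  ring

theorem g_low (n : ℕ) (h1 : 1 ≤ n) (hn : n ≤ q + 2) :
    gam (nott (q + 5)) (n + 3) = dep (q + 5) (n + 4) := by
  rw [gam_eq_depP ne2 _ (by omega)]
  congr 1
  rcases Nat.lt_or_ge n (q + 2) with h2 | h2
  · have := (mu_val q 0).2 (n + 1) (by omega)
    rw [show 0 * (q + 4) + 2 + (n + 1) = n + 3 by ring] at this
    rw [this]
    ring
  · have h3 : n = q + 2 := by omega
    subst h3
    have := (mu_val q 1).1
    rw [show 1 * (q + 4) + 1 = q + 2 + 3 by ring] at this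
    rw [this]
    ring

theorem g_two : gam (nott (q + 5)) 2 = dep (q + 5) 3 := by
  rw [gam_eq_depP ne2 _ (by omega)]
  have := (mu_val q 0).2 0 (by omega)
  rw [show 0 * (q + 4) + 2 + 0 = 2 by ring] at this
  rw [this, zero_mul]

theorem g_q6 : gam (nott (q + 5)) (q + 6) = dep (q + 5) (q + 8) := by
  rw [gam_eq_depP ne2 _ (by omega)]
  congr 1
  have := (mu_val q 1).2 0 (by omega)
  rw [show 1 * (q + 4) + 2 + 0 = q + 6 by ring] at this
  rw [this]
  ring

theorem g_q7 : gam (nott (q + 5)) (q + 7) = dep (q + 5) (q + 9) := by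
  rw [gam_eq_depP ne2 _ (by omega)]
  congr 1
  have := (mu_val q 1).2 1 (by omega)
  rw [show 1 * (q + 4) + 2 + 1 = q + 7 by ring] at this
  rw [this]
  ring

theorem g_2q8 : gam (nott (q + 5)) (2 * q + 8) = dep (q + 5) (2 * q + 10) := by
  rw [gam_eq_depP ne2 _ (by omega)]
  congr 1
  have := (mu_val q 1).2 (q + 2) (by omega)
  rw [show 1 * (q + 4) + 2 + (q + 2) = 2 * q + 8 by ring] at this
  rw [this]
  ring

theorem g_2q11 : gam (nott (q + 5)) (2 * q + 11) = dep (q + 5) (2 * q + 14) := by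
  rw [gam_eq_depP ne2 _ (by omega)]
  congr 1
  have := (mu_val q 2).2 1 (by omega)
  rw [show 2 * (q + 4) + 2 + 1 = 2 * q + 11 by ring] at this
  rw [this]
  ring

/-- the relations which hold for all pairs with the right leading terms. -/
structure Auto (q : ℕ) [Fact (q + 5).Prime] (x y : nott (q + 5)) : Prop where
  ra : ∀ n, 1 ≤ n → n ≤ q + 2 → ⁅pwg x n y, y⁆ ∈ gam (nott (q + 5)) (n + 3)
  rb2 : ⁅⁅alg q x y 0, y⁆, y⁆ ∈ gam (nott (q + 5)) (q + 7)
  rc : ⁅⁅alg q x y 0, y⁆, x⁆ * (ssg q x y 0) ^ 2 ∈ gam (nott (q + 5)) (q + 7)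
  rd : xig q x y 0 ∈ gam (nott (q + 5)) (2 * q + 8)
  re : ⁅⁅alg q x y 1, y⁆, x⁆ * (ssg q x y 1) ^ 2 ∈ gam (nott (q + 5)) (2 * q + 11)
  ex : ∃ l, l ≠ 0 ∧ DL q (q + 8) (ssg q x y 0) l

theorem auto {x y : nott (q + 5)} (hx : DL q 1 x 1) (hy : DL q 2 y 1) : Auto q x y := by
  obtain ⟨l, hl, h0⟩ := pwy hx hy (q + 3) le_rfl
  have hp : (((q + 3) + 2 : ℕ) : ZMod (q + 5)) = 0 := by
    have := castp (q := q)
    push_cast
    linear_combination this
  have b0 : Blk q x y (alg q x y 0) (q + 3 + 2) l := blk hx hy hp (by omega) h0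
  have hs : ssg q x y 0 ∈ dep (q + 5) (q + 8) := b0.xy.1
  have h1 : alg q x y 1 ∈ dep (q + 5) (2 * q + 10) := by
    have := pwg_dep (x := x) (by omega) hs (q + 2)
    rwa [show q + 8 + (q + 2) = 2 * q + 10 by ring] at this
  have hp1 : ((2 * q + 10 : ℕ) : ZMod (q + 5)) = 0 := by
    have := castp (q := q)
    push_cast
    linear_combination 2 * this
  have b1 : Blk q x y (alg q x y 1) (2 * q + 10) (lam (2 * q + 10) (alg q x y 1)) :=
    blk hx hy hp1 (by omega) ⟨h1, rfl⟩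
  refine ⟨fun n h1 h2 => ?_, ?_, ?_, ?_, ?_, ⟨l, hl, b0.xy⟩⟩
  · rw [g_low n h1 h2]
    obtain ⟨a, -, h⟩ := pwy hx hy n (by omega)
    have := comm_dep_mem (by omega) (by omega) h.1 hy.1
    exact this
  · rw [g_q7]; exact b0.yy
  · rw [g_q7]; exact b0.yx
  · rw [g_2q8]
    have h2 := pwg_dep (x := x) (by omega) hs q
    have := comm_dep_mem (by omega) (by omega) h2 hy.1
    rwa [show q + 8 + q + 2 = 2 * q + 10 by ring] at this
  · rw [g_2q11]; exact b1.yx

end lead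

end Pool.Agent.Lib.NOT62.P
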