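import Mathlib
import Pool.Agent.Lib.NOT62.NottP

/-!
Generators of the Nottingham group, `p = q + 5`, satisfying all the relations.
-/

namespace Pool.Agent.Lib.NOT62.P

open PowerSeries
open scoped commutatorElement
open Pool.Agent.Lib.NOT62

variable {q : ℕ} [hq : Fact (q + 5).Prime]

theorem span_pairP {x y : nott (q + 5)} (hx : DL q 1 x 1) (hy : DL q 2 y 1) (a : nott (q + 5)) :
    ∃ s t : ℤ, ∃ c ∈ gam (nott (q + 5)) 2, a = x ^ s * y ^ t * c := by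
  obtain ⟨hx, hx1⟩ := hx
  obtain ⟨hy, hy1⟩ := hy
  have ha : a ∈ dep (q + 5) 1 := by rw [dep_one]; trivial
  have hval : ∀ b : ZMod (q + 5), b = b.val • (1 : ZMod (q + 5)) := by
    intro b
    rw [nsmul_eq_mul, mul_one, ZMod.natCast_zmod_val]
  have h1 : (x ^ (lam 1 a).val)⁻¹ * a ∈ dep (q + 5) 2 := by
    have h0 : (x ^ (lam 1 a).val)⁻¹ * a ∈ dep (q + 5) 1 := mul_mem (inv_mem (pow_mem hx _)) ha
    rw [mem_dep_succ h0, lam_mul le_rfl (inv_mem (pow_mem hx _)) ha, lam_inv le_rfl (pow_mem hx _),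
      lam_zpow le_rfl hx, hx1, ← hval]
    ring
  obtain ⟨b, hb⟩ : ∃ b, b = (x ^ (lam 1 a).val)⁻¹ * a := ⟨_, rfl⟩
  rw [← hb] at h1
  have h2 : (y ^ (lam 2 b).val)⁻¹ * b ∈ dep (q + 5) 3 := by
    have h0 : (y ^ (lam 2 b).val)⁻¹ * b ∈ dep (q + 5) 2 := mul_mem (inv_mem (pow_mem hy _)) h1
    rw [mem_dep_succ h0, lam_mul one_le_two (inv_mem (pow_mem hy _)) h1,
      lam_inv one_le_two (pow_mem hy _), lam_zpow one_le_two hy, hy1, ← hval]
    ring
  refine ⟨(lam 1 a).val, (lam 2 b).val, (y ^ (lam 2 b).val)⁻¹ * b, by rw [g_two]; exact h2, ?_⟩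
  rw [zpow_natCast, zpow_natCast, hb]
  group

theorem gx_mul_pow {G : Type*} [Group G] (S : NSer G) (x y : G) (t : ℕ) :
    S.gx (x * y ^ t) = S.gx x + (t : ℤ) • S.gx y := by
  have h1 : S.gx (x * y ^ t) = S.hom 1 x (S.mem1 x) + S.hom 1 (y ^ t) (S.mem1 (y ^ t)) :=
    S.hom_add (S.mem1 x) (S.mem1 (y ^ t))
  have h2 : S.hom 1 (y ^ t) (S.mem1 (y ^ t)) = (t : ℤ) • S.hom 1 y (S.mem1 y) := by
    rw [← S.hom_zpow (S.mem1 y) (t : ℤ)]
    exact S.hom_congr rfl (zpow_natCast y t).symm _ _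
  rw [h1, h2]

/-- replacing `X` by `X + t Y`. -/
theorem pw_change {L : Type*} [LieRing L] {q : ℕ} {X Y : L} (t : ℤ)
    (ra : ∀ n, 1 ≤ n → n ≤ q + 2 → ⁅pw X n Y, Y⁆ = 0) (n : ℕ) (hn : n ≤ q + 3) :
    pw (X + t • Y) n Y = pw X n Y := by
  induction n with
  | zero => rfl
  | succ n ih =>
    rw [pw_succ, ih (by omega), lie_add, lie_zsmul, ← pw_succ]
    rcases Nat.eq_zero_or_pos n with h | h
    · subst h
      rw [pw_zero, lie_self, smul_zero, add_zero]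
    · rw [ra n h (by omega), smul_zero, add_zero]

theorem exists_pairP : ∃ x y : nott (q + 5), DL q 1 x 1 ∧ DL q 2 y 1 ∧
    ⁅⁅alg q x y 0, x⁆, x⁆ ∈ gam (nott (q + 5)) (q + 7) := by
  obtain ⟨x, hx, hx1⟩ := exists_lam (p := q + 5) (m := 1) le_rfl 1
  obtain ⟨y, hy, hy1⟩ := exists_lam (p := q + 5) (m := 2) one_le_two 1
  have A := auto (q := q) ⟨hx, hx1⟩ ⟨hy, hy1⟩
  obtain ⟨l, hl, hs, hsl⟩ := A.ex
  let S := gamSer (nott (q + 5))
  have ra : ∀ n, 1 ≤ n → n ≤ q + 2 → ⁅pw (S.gx x) n (S.gx y), S.gx y⁆ = 0 := fun n h1 h2 =>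
    ((rp_pw x (Rp.one (S := S) (a := y)) n).lie (Rp.one (a := y))).zero_iff.2
      (by rw [show 1 + n + 1 + 1 = n + 3 by ring]; exact A.ra n h1 h2)
  have rb2 : ⁅⁅al q (S.gx x) (S.gx y) 0, S.gx y⁆, S.gx y⁆ = 0 :=
    (((rp_al S q x y 0).lie (Rp.one (a := y))).lie (Rp.one (a := y))).zero_iff.2
      (by rw [show (0 + 1) * (q + 4) + 1 + 1 + 1 = q + 7 by ring]; exact A.rb2)
  have rc : ⁅⁅al q (S.gx x) (S.gx y) 0, S.gx y⁆, S.gx x⁆ = (-2 : ℤ) • ss q (S.gx x) (S.gx y) 0 := by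
    have e := ((((rp_al S q x y 0).lie (Rp.one (a := y))).lie (Rp.one (a := x))).mul
      ((rp_ss S q x y 0).mul (rp_ss S q x y 0))).zero_iff.2
      (by rw [show (0 + 1) * (q + 4) + 1 + 1 + 1 = q + 7 by ring, ← sq]; exact A.rc)
    linear_combination (norm := module) e
  -- the coefficient
  have ma : ⁅⁅alg q x y 0, x⁆, x⁆ ∈ gam (nott (q + 5)) (q + 6) := by
    have := (((rp_al S q x y 0).lie (Rp.one (a := x))).lie (Rp.one (a := x))).choose
    rw [show (0 + 1) * (q + 4) + 1 + 1 = q + 6 by ring] at this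
    exact this
  have ms : ssg q x y 0 ∈ gam (nott (q + 5)) (q + 6) := by rw [g_q6]; exact hs
  obtain ⟨t, ht⟩ : ∃ t : ℕ, (t : ZMod (q + 5)) * l = lam (q + 8) ⁅⁅alg q x y 0, x⁆, x⁆ := by
    refine ⟨(lam (q + 8) ⁅⁅alg q x y 0, x⁆, x⁆ * l⁻¹).val, ?_⟩
    rw [ZMod.natCast_zmod_val]
    field_simp
  have e1 : ⁅⁅al q (S.gx x) (S.gx y) 0, S.gx x⁆, S.gx x⁆ = (t : ℤ) • ss q (S.gx x) (S.gx y) 0 := by
    have r1 : Rp S (q + 6) ⁅⁅alg q x y 0, x⁆, x⁆ ⁅⁅al q (S.gx x) (S.gx y) 0, S.gx x⁆, S.gx x⁆ :=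
      (((rp_al S q x y 0).lie (Rp.one (a := x))).lie (Rp.one (a := x))).cast (by ring)
    have r2 : Rp S (q + 6) (ssg q x y 0) (ss q (S.gx x) (S.gx y) 0) :=
      (rp_ss S q x y 0).cast (by ring)
    have r3 : Rp S (q + 6) ((ssg q x y 0) ^ (-(t : ℤ))) ((-(t : ℤ)) • ss q (S.gx x) (S.gx y) 0) := by
      obtain ⟨h, e⟩ := r2
      exact ⟨zpow_mem h _, by rw [e, S.hom_zpow]⟩
    have hz : ⁅⁅al q (S.gx x) (S.gx y) 0, S.gx x⁆, S.gx x⁆
        + (-(t : ℤ)) • ss q (S.gx x) (S.gx y) 0 = 0 := by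
      rw [(r1.mul r3).zero_iff]
      change _ ∈ gam (nott (q + 5)) (q + 7)
      have m1 : ⁅⁅alg q x y 0, x⁆, x⁆ ∈ dep (q + 5) (q + 8) := by rw [← g_q6]; exact ma
      rw [zpow_neg, zpow_natCast, g_q7, mem_dep_succ (mul_mem m1 (inv_mem (pow_mem hs t))),
        lam_mul (by omega) m1 (inv_mem (pow_mem hs t)), lam_inv (by omega) (pow_mem hs t),
        lam_zpow (by omega) hs, hsl, ← ht, nsmul_eq_mul, add_neg_cancel]
    rw [neg_smul] at hz
    exact (sub_eq_zero.1 (by rw [sub_eq_add_neg]; exact hz))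
  have hyt : y ^ t ∈ dep (q + 5) 2 := pow_mem hy t
  have hx' : x * y ^ t ∈ dep (q + 5) 1 := by rw [dep_one]; trivial
  have hx1' : lam 1 (x * y ^ t) = 1 := by
    rw [lam_mul le_rfl hx (dep_anti one_le_two hyt), hx1,
      (mem_dep_succ (dep_anti one_le_two hyt)).1 hyt, add_zero]
  refine ⟨x * y ^ t, y, ⟨hx', hx1'⟩, ⟨hy, hy1⟩, ?_⟩
  have r := ((rp_al S q (x * y ^ t) y 0).lie (Rp.one (a := x * y ^ t))).lie
    (Rp.one (a := x * y ^ t))
  have hal : al q (S.gx (x * y ^ t)) (S.gx y) 0 = al q (S.gx x) (S.gx y) 0 := by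
    rw [gx_mul_pow]
    exact pw_change (t : ℤ) ra (q + 3) le_rfl
  have hz : ⁅⁅al q (S.gx (x * y ^ t)) (S.gx y) 0, S.gx (x * y ^ t)⁆, S.gx (x * y ^ t)⁆ = 0 := by
    rw [hal, gx_mul_pow]
    simp only [lie_add, add_lie, lie_zsmul, zsmul_lie]
    rw [e1, rb2, rc]
    rw [show ⁅⁅al q (S.gx x) (S.gx y) 0, S.gx x⁆, S.gx y⁆ = ss q (S.gx x) (S.gx y) 0 from rfl]
    module
  have := r.zero_iff.1 hz
  rw [show (0 + 1) * (q + 4) + 1 + 1 + 1 = q + 7 by ring] at this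
  exact this

theorem inf_nottP (i : ℕ) (hi : 1 ≤ i) : ¬ gam (nott (q + 5)) i ≤ gam (nott (q + 5)) (i + 1) := by
  intro h
  rw [gam_eq_depP ne2 i hi, gam_eq_depP ne2 (i + 1) (by omega)] at h
  obtain ⟨σ, hσ, h1⟩ := exists_lam (p := q + 5) (mu_pos (p := q + 5) i) 1
  have h2 : σ ∈ dep (q + 5) (mu (q + 5) i + 1) := dep_anti (mu_succ_lt i hi) (h hσ)
  rw [mem_dep_succ hσ, h1] at h2
  exact one_ne_zero h2

theorem gen_nottP : ∃ x y : nott (q + 5), GenP (gamSer (nott (q + 5))) q x y := by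
  obtain ⟨x, y, hx, hy, h1⟩ := exists_pairP (q := q)
  have A := auto hx hy
  have hs := span_pairP hx hy
  have hc : ∀ z : nott (q + 5), z ^ (q + 5) ∈ gam (nott (q + 5)) 2 := by
    intro z
    rw [g_two]
    exact dep_anti (by omega) (pow_p_mem z)
  refine ⟨x, y, hq.out, hs, hc x, hc y, ?_, A.ra, h1, A.rb2, A.rc, A.rd, A.re, inf_nottP⟩
  intro i hi a ha
  exact (NSer.mem_K_iff (S := gamSer (nott (q + 5))) i a).1 (gen_of_open hs (gam_openP ne2) i hi ha)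

theorem index_nottP (n : ℕ) : (gam (nott (q + 5)) (n + 1)).index ≠ 0 := by
  obtain ⟨x, y, h⟩ := gen_nottP (q := q)
  have hf : Finite ((gamSer (nott (q + 5))).A 1) :=
    Nat.finite_of_card_ne_zero (by rw [cardP_one h]; positivity)
  exact index_ne_zero x y (fun i hi => gen_of_open h.span (gam_openP ne2) i hi) hf n

theorem card_nottP (i : ℕ) (hi : 1 ≤ i) (h1 : i % (q + 4) ≠ 1) :
    Nat.card ((gamSer (nott (q + 5))).A i) = q + 5 := by
  have hmu : mu (q + 5) (i + 1) = mu (q + 5) i + 1 := by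
    rcases Nat.eq_zero_or_pos (i % (q + 4)) with h0 | h0
    · obtain ⟨t, rfl⟩ : ∃ t, i = (t + 1) * (q + 4) := by
        obtain ⟨t, ht⟩ := Nat.dvd_of_mod_eq_zero h0
        match t, ht with
        | 0, ht => omega
        | t + 1, ht => exact ⟨t, by rw [ht]; ring⟩
      have e1 := (mu_val q (t + 1)).1
      have e2 := (mu_val q t).2 (q + 2) le_rfl
      rw [show t * (q + 4) + 2 + (q + 2) = (t + 1) * (q + 4) by ring] at e2
      rw [e1, e2]
      ring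
    · have hd := Nat.div_add_mod i (q + 4)
      have hlt := Nat.mod_lt i (show 0 < q + 4 by omega)
      obtain ⟨r, hr⟩ : ∃ r, i % (q + 4) = r + 2 := ⟨i % (q + 4) - 2, by omega⟩
      rw [hr] at hd hlt
      have e1 := (mu_val q (i / (q + 4))).2 r (by omega)
      have e2 := (mu_val q (i / (q + 4))).2 (r + 1) (by omega)
      rw [show i / (q + 4) * (q + 4) + 2 + r = i by rw [mul_comm]; omega] at e1
      rw [show i / (q + 4) * (q + 4) + 2 + (r + 1) = i + 1 by rw [mul_comm]; omega] at e2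
      rw [e1, e2]
      ring
  obtain ⟨x, y, h⟩ := gen_nottP (q := q)
  have h2 : Nat.card ((gamSer (nott (q + 5))).A i) ≤ q + 5 := by
    let S := gamSer (nott (q + 5))
    let m := mu (q + 5) i
    have hm : 1 ≤ m := mu_pos i
    let f : S.A i → ZMod (q + 5) := fun w => lam m (S.cl_surj w).choose
    have hf : Function.Injective f := by
      intro w w' hww
      have e1 := (S.cl_surj w).choose_spec.choose_spec
      have e2 := (S.cl_surj w').choose_spec.choose_spec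
      have m1 : (S.cl_surj w).choose ∈ gam (nott (q + 5)) i := (S.cl_surj w).choose_spec.choose
      have m2 : (S.cl_surj w').choose ∈ gam (nott (q + 5)) i := (S.cl_surj w').choose_spec.choose
      rw [← e1, ← e2, S.cl_eq_iff]
      change _ ∈ gam (nott (q + 5)) (i + 1)
      rw [gam_eq_depP ne2 i hi] at m1 m2
      rw [gam_eq_depP ne2 (i + 1) (by omega), hmu,
        mem_dep_succ (mul_mem (inv_mem m1) m2), lam_mul hm (inv_mem m1) m2,
        lam_inv hm m1]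
      have : lam m (S.cl_surj w).choose = lam m (S.cl_surj w').choose := hww
      change - lam m (S.cl_surj w).choose + lam m (S.cl_surj w').choose = 0
      rw [this]; ring
    have := Nat.card_le_card_of_injective f hf
    rwa [Nat.card_zmod] at this
  rcases (coreP h i hi).2.2 h1 with h3 | h3
  · exact h3
  · rw [h3] at h2
    nlinarith

end Pool.Agent.Lib.NOT62.P
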