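import Mathlib
import Pool.Agent.Lib.NOT62.Final

/-!
Named definitions for the statement.
-/

namespace Pool.Agent.Lib.NOT62

/-- The Nottingham group over the field with `p` elements, as a type. -/
def Nottingham (p : ℕ) [Fact p.Prime] : Type := nott p

noncomputable instance instGroupNottingham (p : ℕ) [Fact p.Prime] : Group (Nottingham p) :=
  inferInstanceAs (Group (nott p))

noncomputable instance instTopNottingham (p : ℕ) [Fact p.Prime] :
    TopologicalSpace (Nottingham p) :=
  inferInstanceAs (TopologicalSpace (nott p))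

instance instTopGroupNottingham (p : ℕ) [Fact p.Prime] : IsTopologicalGroup (Nottingham p) :=
  inferInstanceAs (IsTopologicalGroup (nott p))

/-- `G` is an `n`-approximation to `J`: an infinite pro-`p` group with
`G / γ_n(G) ≅ J / γ_n(J)`. -/
structure IsApproximation (p : ℕ) (G J : Type*) [Group G] [TopologicalSpace G]
    [IsTopologicalGroup G] [Group J] [TopologicalSpace J] [IsTopologicalGroup J] (n : ℕ) :
    Prop where
  prop : IsProP p G
  infinite : Infinite G
  iso : Nonempty ((G ⧸ gam G n) ≃* (J ⧸ gam J n))

/-- The lower central factor `γ_i(G) / γ_(i+1)(G)`. -/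
def Factor (G : Type*) [Group G] [TopologicalSpace G] [IsTopologicalGroup G] (i : ℕ) : Type _ :=
  gam G i ⧸ (gam G (i + 1)).subgroupOf (gam G i)

instance instGroupFactor (G : Type*) [Group G] [TopologicalSpace G] [IsTopologicalGroup G]
    (i : ℕ) : Group (Factor G i) :=
  inferInstanceAs (Group (gam G i ⧸ (gam G (i + 1)).subgroupOf (gam G i)))

theorem main2 {G : Type*} [Group G] [TopologicalSpace G] [IsTopologicalGroup G]
    (h : IsApproximation 3 G (Nottingham 3) 7) (i : ℕ) (hi : 1 ≤ i) :
    (¬ 6 ∣ i ∨ i = 6 → Nonempty (Factor G i ≃* Factor (Nottingham 3) i)) ∧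
    (6 ∣ i → Nonempty (Factor G i ≃* Factor (Nottingham 3) i) ∨
      Nonempty (Factor G i ≃* Factor (Nottingham 3) i × Multiplicative (ZMod 3))) :=
  main h.prop h.infinite h.iso i hi

end Pool.Agent.Lib.NOT62
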