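import Mathlib
import Pool.Agent.Lib.NOT62.GenJP
import Pool.Agent.Lib.NOT62.Stat

/-!
Approximations to the Nottingham group for all odd primes: assembly.
-/

namespace Pool.Agent.Lib.NOT62.P

open PowerSeries
open scoped commutatorElement
open Pool.Agent.Lib.NOT62

variable {q : ℕ} [hq : Fact (q + 5).Prime]

section approx

variable {G : Type*} [Group G] [TopologicalSpace G] [IsTopologicalGroup G]

theorem gen_approxP (hG : IsProP (q + 5) G) (hinf : Infinite G)
    (f : (G ⧸ gam G (2 * q + 11)) ≃* (nott (q + 5) ⧸ gam (nott (q + 5)) (2 * q + 11))) :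
    ∃ x y : G, GenP (gamSer G) q x y := by
  have := hG.compact
  have := hG.hausdorff
  obtain ⟨x, y, h⟩ := gen_nottP (q := q)
  have hJ : IsOpen (gam (nott (q + 5)) (2 * q + 11) : Set (nott (q + 5))) := gam_openP ne2 _
  have hi7 : (gam G (2 * q + 11)).index ≠ 0 := by
    have e : (gam G (2 * q + 11)).index = (gam (nott (q + 5)) (2 * q + 11)).index :=
      Nat.card_congr f.toEquiv
    rw [e]; exact index_nottP (2 * q + 10)
  have hfi : (gam G (2 * q + 11)).FiniteIndex := ⟨hi7⟩
  have hGo : IsOpen (gam G (2 * q + 11) : Set G) :=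
    Subgroup.isOpen_of_isClosed_of_finiteIndex _ (gam_closed G _)
  obtain ⟨u, hu⟩ := QuotientGroup.mk_surjective
    (f.symm (x : nott (q + 5) ⧸ gam (nott (q + 5)) (2 * q + 11)))
  obtain ⟨v, hv⟩ := QuotientGroup.mk_surjective
    (f.symm (y : nott (q + 5) ⧸ gam (nott (q + 5)) (2 * q + 11)))
  -- the relation between elements of the two groups
  let R : G → nott (q + 5) → Prop := fun a b => f (a : G ⧸ gam G (2 * q + 11))
    = (b : nott (q + 5) ⧸ gam (nott (q + 5)) (2 * q + 11))
  have fu : R u x := by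
    change f _ = _
    rw [hu, MulEquiv.apply_symm_apply]
  have fv : R v y := by
    change f _ = _
    rw [hv, MulEquiv.apply_symm_apply]
  have fm : ∀ {a b : G} {c d : nott (q + 5)}, R a c → R b d → R (a * b) (c * d) := by
    intro a b c d h1 h2
    change f _ = _
    have e1 : ((a * b : G) : G ⧸ gam G (2 * q + 11)) = (a : G ⧸ gam G (2 * q + 11)) * b := rfl
    rw [e1, map_mul, show f a = c from h1, show f b = d from h2]
    rfl
  have fi : ∀ {a : G} {c : nott (q + 5)}, R a c → R a⁻¹ c⁻¹ := by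
    intro a c h1
    change f _ = _
    have e1 : ((a⁻¹ : G) : G ⧸ gam G (2 * q + 11)) = (a : G ⧸ gam G (2 * q + 11))⁻¹ := rfl
    rw [e1, map_inv, show f a = c from h1]
    rfl
  have fc : ∀ {a b : G} {c d : nott (q + 5)}, R a c → R b d → R ⁅a, b⁆ ⁅c, d⁆ := by
    intro a b c d h1 h2
    rw [commutatorElement_def, commutatorElement_def]
    exact fm (fm (fm h1 h2) (fi h1)) (fi h2)
  have fp : ∀ {a : G} {c : nott (q + 5)}, R a c → ∀ n : ℕ, R (a ^ n) (c ^ n) := by
    intro a c h1 n
    induction n with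
    | zero =>
      rw [pow_zero, pow_zero]
      change f _ = _
      have e1 : ((1 : G) : G ⧸ gam G (2 * q + 11)) = 1 := rfl
      rw [e1, map_one]
      rfl
    | succ n ih => rw [pow_succ, pow_succ]; exact fm ih h1
  have fz : ∀ {a : G} {c : nott (q + 5)}, R a c → ∀ n : ℤ, R (a ^ n) (c ^ n) := by
    intro a c h1 n
    rcases n with n | n
    · rw [Int.ofNat_eq_natCast, zpow_natCast, zpow_natCast]; exact fp h1 n
    · rw [zpow_negSucc, zpow_negSucc]; exact fi (fp h1 _)
  have fw : ∀ {a : G} {c : nott (q + 5)}, R a c → ∀ n : ℕ, R (pwg u n a) (pwg x n c) := by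
    intro a c h1 n
    induction n with
    | zero => exact h1
    | succ n ih => exact fc ih fu
  have fa : ∀ k : ℕ, R (alg q u v k) (alg q x y k) := by
    intro k
    induction k with
    | zero => exact fw fv (q + 3)
    | succ k ih => exact fw (fc (fc ih fu) fv) (q + 2)
  have fs : ∀ k : ℕ, R (ssg q u v k) (ssg q x y k) := fun k => fc (fc (fa k) fu) fv
  have tr : ∀ {n : ℕ}, n + 1 ≤ 2 * q + 11 → ∀ {a : G} {b : nott (q + 5)}, R a b →
      b ∈ gam (nott (q + 5)) (n + 1) → a ∈ gam G (n + 1) :=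
    fun {_} hn {_ _} hab hb => (transfer hGo hJ f hn hab).2 hb
  have hs : ∀ a : G, ∃ s t : ℤ, ∃ c ∈ gam G 2, a = u ^ s * v ^ t * c := by
    intro a
    obtain ⟨b, hb⟩ := QuotientGroup.mk_surjective (f (a : G ⧸ gam G (2 * q + 11)))
    obtain ⟨s, t, c, hc, e⟩ := h.span b
    refine ⟨s, t, (u ^ s * v ^ t)⁻¹ * a, ?_, by group⟩
    have hab : R a b := hb.symm
    have e3 : R ((u ^ s * v ^ t)⁻¹ * a) c := by
      have e5 : c = (x ^ s * y ^ t)⁻¹ * b := by rw [e]; group
      rw [e5]
      exact fm (fi (fm (fz fu s) (fz fv t))) hab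
    exact tr (n := 1) (by omega) e3 hc
  have hK : ∀ i, 1 ≤ i → gam G (i + 1) ≤ (gamSer G).K u v i := fun i hi => gen_of_compact hs i hi
  have hA1 : Finite ((gamSer G).A 1) := by
    have h2 : (gam G 2).index ≠ 0 := by
      intro h0
      have := Subgroup.index_dvd_of_le ((gamSer G).anti' (by omega : 2 ≤ 2 * q + 11))
      change (gam G 2).index ∣ (gam G (2 * q + 11)).index at this
      rw [h0, zero_dvd_iff] at this
      exact hi7 this
    rw [← Subgroup.relIndex_mul_index (gam_anti G 1)] at h2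
    exact Nat.finite_of_card_ne_zero (left_ne_zero_of_mul h2)
  refine ⟨u, v, hq.out, hs, ?_, ?_, ?_, ?_, ?_, ?_, ?_, ?_, ?_, ?_⟩
  · exact tr (n := 1) (by omega) (fp fu (q + 5)) h.cx
  · exact tr (n := 1) (by omega) (fp fv (q + 5)) h.cy
  · intro i hi a ha
    exact (NSer.mem_K_iff (S := gamSer G) i a).1 (hK i hi ha)
  · intro n h1 h2
    exact tr (n := n + 2) (by omega) (fc (fw fv n) fv) (h.ra n h1 h2)
  · exact tr (n := q + 6) (by omega) (fc (fc (fa 0) fu) fu) h.rb1
  · exact tr (n := q + 6) (by omega) (fc (fc (fa 0) fv) fv) h.rb2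
  · exact tr (n := q + 6) (by omega) (fm (fc (fc (fa 0) fv) fu) (fp (fs 0) 2)) h.rc
  · exact tr (n := 2 * q + 7) (by omega) (fc (fw (fs 0) q) fv) h.rd
  · exact tr (n := 2 * q + 10) (by omega) (fm (fc (fc (fa 1) fv) fu) (fp (fs 1) 2)) h.re
  · exact fun i hi => inf_of_infinite hq.out hG hinf u v hK hA1 i hi

/-- an additive isomorphism with a product, written multiplicatively. -/
theorem prod_iso {A B : Type*} [AddCommGroup A] [AddCommGroup B] {p : ℕ}
    (e : A ≃+ B × ZMod p) :
    Nonempty (Multiplicative A ≃* Multiplicative B × Multiplicative (ZMod p)) :=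
  ⟨{ toFun := fun a => (Multiplicative.ofAdd (e (Multiplicative.toAdd a)).1,
        Multiplicative.ofAdd (e (Multiplicative.toAdd a)).2)
     invFun := fun b => Multiplicative.ofAdd
        (e.symm (Multiplicative.toAdd b.1, Multiplicative.toAdd b.2))
     left_inv := fun a => e.symm_apply_apply (Multiplicative.toAdd a)
     right_inv := fun b => by
       have h := e.apply_symm_apply (Multiplicative.toAdd b.1, Multiplicative.toAdd b.2)
       exact Prod.ext (congrArg Prod.fst h) (congrArg Prod.snd h)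
     map_mul' := fun a b => by
       have h := e.map_add (Multiplicative.toAdd a) (Multiplicative.toAdd b)
       exact Prod.ext (congrArg Prod.fst h) (congrArg Prod.snd h) }⟩

theorem mainP (hG : IsProP (q + 5) G) (hinf : Infinite G)
    (happ : Nonempty ((G ⧸ gam G (2 * q + 11)) ≃*
      (nott (q + 5) ⧸ gam (nott (q + 5)) (2 * q + 11)))) (i : ℕ) (hi : 1 ≤ i) :
    (¬ ((q + 4) ∣ (i + 1) ∧ 3 * (q + 4) ≤ i + 1) →
      Nonempty (Fac G i ≃* Fac (nott (q + 5)) i)) ∧
    ((q + 4) ∣ (i + 1) → Nonempty (Fac G i ≃* Fac (nott (q + 5)) i) ∨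
      Nonempty (Fac G i ≃* Fac (nott (q + 5)) i × Multiplicative (ZMod (q + 5)))) := by
  obtain ⟨f⟩ := happ
  obtain ⟨u, v, hg⟩ := gen_approxP hG hinf f
  obtain ⟨x, y, hj⟩ := gen_nottP (q := q)
  have cG := coreP hg i hi
  have cJ := coreP hj i hi
  have tG := smulAP hg i
  have tJ := smulAP hj i
  have same : Nat.card ((gamSer G).A i) ≠ 0 → Nat.card ((gamSer G).A i) =
      Nat.card ((gamSer (nott (q + 5))).A i) → Nonempty (Fac G i ≃* Fac (nott (q + 5)) i) := by
    intro h0 h
    obtain ⟨e⟩ := iso_of_cardP hq.out tG tJ h0 h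
    exact ⟨MulEquiv.toAdditive.symm e⟩
  refine ⟨fun h6 => ?_, fun h6 => ?_⟩
  · by_cases h1 : i % (q + 4) = 1
    · have h2 := cG.1 h1
      exact same (by rw [h2]; positivity) (by rw [h2, cJ.1 h1])
    · have h2 := cG.2.1 h1 h6
      exact same (by omega) (by rw [h2, card_nottP i hi h1])
  · have h1 : i % (q + 4) ≠ 1 := by
      intro h1
      obtain ⟨t, ht⟩ := h6
      have hd := Nat.div_add_mod i (q + 4)
      rw [h1] at hd
      have h3 : (q + 4) * (i / (q + 4)) + 2 = (q + 4) * t := by omega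
      have h4 : (q + 4) ∣ 2 := by
        rw [← Nat.dvd_add_right (dvd_mul_right (q + 4) (i / (q + 4))), h3]
        exact dvd_mul_right _ _
      have := Nat.le_of_dvd (by norm_num) h4
      omega
    rcases cG.2.2 h1 with h2 | h2
    · exact Or.inl (same (by omega) (by rw [h2, card_nottP i hi h1]))
    · right
      have tP : ∀ m : (gamSer (nott (q + 5))).A i × ZMod (q + 5), ((q + 5 : ℕ) : ℤ) • m = 0 := by
        rintro ⟨a, b⟩
        rw [Prod.smul_mk, tJ a]
        have : ((q + 5 : ℕ) : ℤ) • b = 0 := by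
          rw [natCast_zsmul, nsmul_eq_mul, CharP.cast_eq_zero, zero_mul]
        rw [this]
        rfl
      have hc : Nat.card ((gamSer G).A i)
          = Nat.card ((gamSer (nott (q + 5))).A i × ZMod (q + 5)) := by
        rw [Nat.card_prod, card_nottP i hi h1, Nat.card_zmod, h2, sq]
      obtain ⟨e⟩ := iso_of_cardP hq.out tG tP (by rw [h2]; positivity) hc
      exact prod_iso e

end approx

end Pool.Agent.Lib.NOT62.P

namespace Pool.Agent.Lib.NOT62

/-- The degrees in which the lower central factor of an approximation is not determined: for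
`p = 3` the multiples of 6 from 12 on, for `p ≥ 5` the `i` with `i + 1` a multiple of `p - 1` and
`i + 1 ≥ 3 (p - 1)`. -/
def Exceptional (p i : ℕ) : Prop :=
  if p = 3 then 6 ∣ i ∧ 12 ≤ i else (p - 1) ∣ (i + 1) ∧ 3 * (p - 1) ≤ i + 1

theorem main3 {p : ℕ} [hp : Fact p.Prime] (h2 : p ≠ 2) {G : Type*} [Group G] [TopologicalSpace G]
    [IsTopologicalGroup G] (h : IsApproximation p G (Nottingham p) (2 * p + 1)) (i : ℕ)
    (hi : 1 ≤ i) :
    (¬ Exceptional p i → Nonempty (Factor G i ≃* Factor (Nottingham p) i)) ∧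
    (Exceptional p i → Nonempty (Factor G i ≃* Factor (Nottingham p) i) ∨
      Nonempty (Factor G i ≃* Factor (Nottingham p) i × Multiplicative (ZMod p))) := by
  by_cases h3 : p = 3
  · subst h3
    have m := main2 h i hi
    rw [Exceptional, if_pos rfl]
    exact ⟨fun h4 => m.1 (by omega), fun h4 => m.2 h4.1⟩
  · have h4 : p ≠ 4 := by
      rintro rfl
      exact absurd hp.out (by norm_num)
    obtain ⟨q, rfl⟩ : ∃ q, p = q + 5 := by
      have := hp.out.two_le
      exact ⟨p - 5, by omega⟩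
    rw [Exceptional, if_neg h3, show q + 5 - 1 = q + 4 from rfl]
    have m := P.mainP (q := q) h.prop h.infinite
      (by have := h.iso; rwa [show 2 * (q + 5) + 1 = 2 * q + 11 by ring] at this) i hi
    exact ⟨m.1, fun h5 => m.2 h5.1⟩

end Pool.Agent.Lib.NOT62
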